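import Mathlib

/-! AP12a. Exponential polynomials are rarely small. -/

set_option autoImplicit false

namespace Pool.Agent.AlmostPos

open Finset

/- PROOF SKETCH. WLOG all `C i ≠ 0` (restrict to a subtype / induct over a Finset of indices).
Induction on the number `K` of terms. `K = 1`: the sum has constant absolute value `‖C i‖`, take
`ε = ‖C i‖ / 2`. Step: let `A_ε = {m : ‖∑ C i μ i ^ m‖ ≤ ε}`. If `m` and `m + h` are in `A_ε`, `h > 0`,
then `‖∑_{i ≠ i0} C i (μ i ^ h - μ i0 ^ h) μ i ^ m‖ ≤ 2 ε` (subtract `μ i0 ^ h` times the first from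
the second), an exponential polynomial with `K - 1` nonzero terms, so for each fixed `h` the number of
such `m < M` is `≤ η' M` for `ε` small, `M` large. Choose `H` with `H > 2 / η`; if
`#(A_ε ∩ [0, M)) > η M` then counting the pairs in windows of length `H` (a point `m ∈ A_ε` is
`isolated` if no other point of `A_ε` lies in `(m, m + H)`; there are at most `M / H + 1` isolated
points) gives at least `η M - M / H - 1 ≥ η M / 2 - 1` points `m` having some `h ∈ [1, H)` with
`m + h ∈ A_ε`, so some `h` has at least `(η M / 2 - 1) / H` such `m`: contradiction with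
`η' = η / (4 H)`. -/

private theorem density_exists_unif (H : ℕ) (P : ℕ → ℝ → ℕ → Prop)
    (hmono : ∀ h (ε ε' : ℝ) (M M' : ℕ), ε' ≤ ε → M ≤ M' → P h ε M → P h ε' M')
    (hex : ∀ h, 1 ≤ h → ∃ ε : ℝ, 0 < ε ∧ ∃ M, P h ε M) :
    ∃ ε : ℝ, 0 < ε ∧ ∃ M, ∀ h, 1 ≤ h → h < H → P h ε M := by
  induction H with
  | zero => exact ⟨1, one_pos, 0, fun h _ h2 => absurd h2 (by omega)⟩
  | succ H ih =>
    obtain ⟨ε, hε, M, hM⟩ := ih
    by_cases hH : 1 ≤ H
    · obtain ⟨ε', hε', M', hM'⟩ := hex H hH
      refine ⟨min ε ε', lt_min hε hε', max M M', fun h h1 h2 => ?_⟩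
      rcases Nat.lt_succ_iff_lt_or_eq.mp h2 with h3 | h3
      · exact hmono h ε _ M _ (min_le_left _ _) (le_max_left _ _) (hM h h1 h3)
      · subst h3
        exact hmono h ε' _ M' _ (min_le_right _ _) (le_max_right _ _) hM'
    · exact ⟨ε, hε, M, fun h h1 h2 => absurd h2 (by omega)⟩

open scoped Classical in
private theorem density_finset {ι : Type} (μ : ι → ℂ) (hμ : ∀ i, ‖μ i‖ = 1)
    (hne : ∀ i j, i ≠ j → ∀ n : ℕ, 0 < n → μ i ^ n ≠ μ j ^ n) (s : Finset ι) :
    ∀ (C : ι → ℂ), (∀ i ∈ s, C i ≠ 0) → s.Nonempty → ∀ η : ℝ, 0 < η →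
      ∃ ε : ℝ, 0 < ε ∧ ∃ M0 : ℕ, ∀ M : ℕ, M0 ≤ M →
        (((Finset.range M).filter fun m => ‖∑ i ∈ s, C i * μ i ^ m‖ ≤ ε).card : ℝ) ≤ η * M := by
  induction s using Finset.induction_on with
  | empty => intro C _ h; exact absurd h (by simp)
  | insert i0 s hi0 ih =>
    intro C hC _ η hη
    rcases s.eq_empty_or_nonempty with hs | hs
    · subst hs
      have hc : 0 < ‖C i0‖ := norm_pos_iff.mpr (hC i0 (by simp))
      refine ⟨‖C i0‖ / 2, by positivity, 0, fun M _ => ?_⟩
      have : ((Finset.range M).filter fun m =>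
          ‖∑ i ∈ insert i0 (∅ : Finset ι), C i * μ i ^ m‖ ≤ ‖C i0‖ / 2) = ∅ := by
        apply Finset.filter_eq_empty_iff.mpr
        intro m _
        simp only [insert_empty_eq, Finset.sum_singleton, norm_mul, norm_pow, hμ, one_pow,
          mul_one, not_le]
        linarith
      rw [this]
      simp only [Finset.card_empty, Nat.cast_zero]
      positivity
    -- the main case
    obtain ⟨H, hH⟩ := exists_nat_gt (2 / η)
    have hHpos : (0 : ℝ) < H := lt_trans (by positivity) hH
    have hH0 : 0 < H := by exact_mod_cast hHpos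
    have hη' : 0 < η / (4 * H) := by positivity
    obtain ⟨ε, hε, M1, hM1⟩ := density_exists_unif H
      (fun h ε M => ∀ M' : ℕ, M ≤ M' →
        (((Finset.range M').filter fun m =>
          ‖∑ i ∈ s, (C i * (μ i ^ h - μ i0 ^ h)) * μ i ^ m‖ ≤ 2 * ε).card : ℝ) ≤
          η / (4 * H) * M')
      (by
        intro h ε ε' M M' h1 h2 h3 M'' hM''
        refine le_trans ?_ (h3 M'' (h2.trans hM''))
        gcongr)
      (by
        intro h hh
        obtain ⟨ε, hε, M, hM⟩ := ih (fun i => C i * (μ i ^ h - μ i0 ^ h))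
          (fun i hi => mul_ne_zero (hC i (Finset.mem_insert_of_mem hi))
            (sub_ne_zero.mpr (hne i i0 (fun e => hi0 (e ▸ hi)) h hh))) hs _ hη'
        refine ⟨ε / 2, by positivity, M, fun M' hM' => ?_⟩
        have e : 2 * (ε / 2) = ε := by ring
        rw [e]
        exact hM M' hM')
    obtain ⟨M2, hM2⟩ := exists_nat_gt (4 / η)
    refine ⟨ε, hε, max M1 M2, fun M hM => ?_⟩
    have hMM1 : M1 ≤ M := (le_max_left _ _).trans hM
    have hMM2 : (M2 : ℝ) ≤ M := by exact_mod_cast (le_max_right _ _).trans hM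
    set F : ℕ → ℂ := fun m => ∑ i ∈ insert i0 s, C i * μ i ^ m with hF
    set A := (Finset.range M).filter fun m => ‖F m‖ ≤ ε with hA
    set B : ℕ → Finset ℕ := fun h => (Finset.range M).filter fun m =>
      ‖∑ i ∈ s, (C i * (μ i ^ h - μ i0 ^ h)) * μ i ^ m‖ ≤ 2 * ε with hB
    set I := A.filter fun m => ∀ h, 1 ≤ h → h < H → ¬ ‖F (m + h)‖ ≤ ε with hI
    have hImem : ∀ m, m ∈ I ↔ m ∈ A ∧ ∀ h, 1 ≤ h → h < H → ¬ ‖F (m + h)‖ ≤ ε := by
      intro m
      simp only [hI, Finset.mem_filter]
    have hsub : A ⊆ I ∪ (Finset.Ico 1 H).biUnion B := by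
      intro m hm
      by_cases hmI : ∀ h, 1 ≤ h → h < H → ¬ ‖F (m + h)‖ ≤ ε
      · exact Finset.mem_union_left _ ((hImem m).mpr ⟨hm, hmI⟩)
      · push Not at hmI
        obtain ⟨h, h1, h2, h3⟩ := hmI
        refine Finset.mem_union_right _ (Finset.mem_biUnion.mpr ⟨h, Finset.mem_Ico.mpr ⟨h1, h2⟩, ?_⟩)
        have hm' := Finset.mem_filter.mp hm
        refine Finset.mem_filter.mpr ⟨hm'.1, ?_⟩
        have e : ∑ i ∈ s, (C i * (μ i ^ h - μ i0 ^ h)) * μ i ^ m =
            F (m + h) - μ i0 ^ h * F m := by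
          rw [hF]
          simp only
          rw [Finset.sum_insert hi0, Finset.sum_insert hi0, mul_add, Finset.mul_sum]
          have : ∑ i ∈ s, (C i * (μ i ^ h - μ i0 ^ h)) * μ i ^ m =
              ∑ i ∈ s, C i * μ i ^ (m + h) - ∑ i ∈ s, μ i0 ^ h * (C i * μ i ^ m) := by
            rw [← Finset.sum_sub_distrib]
            refine Finset.sum_congr rfl fun i _ => ?_
            rw [pow_add]; ring
          rw [this, pow_add]
          ring
        rw [e]
        calc ‖F (m + h) - μ i0 ^ h * F m‖ ≤ ‖F (m + h)‖ + ‖μ i0 ^ h * F m‖ := norm_sub_le _ _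
          _ = ‖F (m + h)‖ + ‖F m‖ := by rw [norm_mul, norm_pow, hμ, one_pow, one_mul]
          _ ≤ 2 * ε := by linarith [hm'.2]
    have hIcard : (I.card : ℝ) ≤ M / H + 1 := by
      have h1 : I.card ≤ (Finset.range (M / H + 1)).card := by
        apply Finset.card_le_card_of_injOn (fun m => m / H)
        · intro m hm
          have hm' := (Finset.mem_filter.mp ((hImem m).mp hm).1).1
          have := Finset.mem_range.mp hm'
          simp only [Finset.coe_range, Set.mem_Iio]
          exact Nat.lt_succ_of_le (Nat.div_le_div_right this.le)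
        · intro m hm m' hm' he
          simp only at he
          have key : ∀ a ∈ I, ∀ b ∈ I, a / H = b / H → a < b → False := by
            intro a ha b hb hab hlt
            have h2 := ((hImem a).mp ha).2 (b - a) (by omega) (by
              have h3 := Nat.div_add_mod a H
              have h4 := Nat.div_add_mod b H
              rw [hab] at h3
              have h5 := Nat.mod_lt a hH0
              have h6 := Nat.mod_lt b hH0
              omega)
            have h3 : a + (b - a) = b := by omega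
            rw [h3] at h2
            exact h2 (Finset.mem_filter.mp ((hImem b).mp hb).1).2
          rcases lt_trichotomy m m' with h | h | h
          · exact (key m hm m' hm' he h).elim
          · exact h
          · exact (key m' hm' m hm he.symm h).elim
      rw [Finset.card_range] at h1
      calc (I.card : ℝ) ≤ ((M / H + 1 : ℕ) : ℝ) := by exact_mod_cast h1
        _ = ((M / H : ℕ) : ℝ) + 1 := by push_cast; ring
        _ ≤ M / H + 1 := by
          have := Nat.cast_div_le (α := ℝ) (m := M) (n := H)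
          linarith
    have hBcard : (((Finset.Ico 1 H).biUnion B).card : ℝ) ≤ η / 4 * M := by
      have h1 : (((Finset.Ico 1 H).biUnion B).card : ℝ) ≤
          ∑ h ∈ Finset.Ico 1 H, ((B h).card : ℝ) := by
        exact_mod_cast Finset.card_biUnion_le
      have h2 : ∑ h ∈ Finset.Ico 1 H, ((B h).card : ℝ) ≤
          ∑ h ∈ Finset.Ico 1 H, η / (4 * H) * M := by
        refine Finset.sum_le_sum fun h hh => ?_
        have hh' := Finset.mem_Ico.mp hh
        exact hM1 h hh'.1 hh'.2 M hMM1
      rw [Finset.sum_const, Nat.card_Ico, nsmul_eq_mul] at h2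
      have h3 : ((H - 1 : ℕ) : ℝ) * (η / (4 * H) * M) ≤ (H : ℝ) * (η / (4 * H) * M) := by
        apply mul_le_mul_of_nonneg_right
        · exact_mod_cast Nat.sub_le H 1
        · positivity
      have h4 : (H : ℝ) * (η / (4 * H) * M) = η / 4 * M := by
        field_simp
      linarith
    have hcard : (A.card : ℝ) ≤ I.card + ((Finset.Ico 1 H).biUnion B).card := by
      exact_mod_cast (Finset.card_le_card hsub).trans (Finset.card_union_le _ _)
    have hMH : (M : ℝ) / H ≤ η / 2 * M := by
      have h1 : (1 : ℝ) / H ≤ η / 2 := by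
        rw [div_le_iff₀ hHpos]
        have := (div_lt_iff₀ hη).mp hH
        linarith
      calc (M : ℝ) / H = 1 / H * M := by ring
        _ ≤ η / 2 * M := mul_le_mul_of_nonneg_right h1 (Nat.cast_nonneg _)
    have h1M : 1 ≤ η / 4 * M := by
      have h1 : 4 / η < M := lt_of_lt_of_le hM2 hMM2
      have := (div_lt_iff₀ hη).mp h1
      linarith
    calc (A.card : ℝ) ≤ I.card + ((Finset.Ico 1 H).biUnion B).card := hcard
      _ ≤ (M / H + 1) + η / 4 * M := add_le_add hIcard hBcard
      _ ≤ η * M := by linarith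

theorem density_small {ι : Type} [Fintype ι] (μ C : ι → ℂ) (hμ : ∀ i, ‖μ i‖ = 1)
    (hne : ∀ i j, i ≠ j → ∀ n : ℕ, 0 < n → μ i ^ n ≠ μ j ^ n) (hC : ∃ i, C i ≠ 0) (η : ℝ)
    (hη : 0 < η) : ∃ ε : ℝ, 0 < ε ∧ ∃ M0 : ℕ, ∀ M : ℕ, M0 ≤ M →
      open scoped Classical in
      (((Finset.range M).filter fun m => ‖∑ i, C i * μ i ^ m‖ ≤ ε).card : ℝ) ≤ η * M := by
  classical
  obtain ⟨i1, hi1⟩ := hC
  obtain ⟨ε, hε, M0, h⟩ := density_finset μ hμ hne (Finset.univ.filter fun i => C i ≠ 0) C
    (fun i hi => (Finset.mem_filter.mp hi).2) ⟨i1, by simp [hi1]⟩ η hη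
  refine ⟨ε, hε, M0, fun M hM => ?_⟩
  have e : ∀ m : ℕ, ∑ i, C i * μ i ^ m =
      ∑ i ∈ Finset.univ.filter (fun i => C i ≠ 0), C i * μ i ^ m := by
    intro m
    rw [Finset.sum_filter]
    refine Finset.sum_congr rfl fun i _ => ?_
    split_ifs with h0
    · rfl
    · push Not at h0
      rw [h0, zero_mul]
  have h' := h M hM
  simp only [e]
  convert h' using 3

end Pool.Agent.AlmostPos
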