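import Pool.Agent.AlmostPos.AEDef
import Pool.Agent.AlmostPos.Density

/-! AP12b. Without a certificate the sequence is almost everywhere positive. -/

set_option autoImplicit false

namespace Pool.Agent.DD7719.M

open Complex Filter Topology GS

variable {k : ℕ}

/- TEMPLATE: `class_data` (DD7719/TClass.lean) and `tm_of_not_cert` (DD7719/TComplete.lean). Without
a certificate every class `j` of the modulus `n0` (a multiple of `e`) has an exact level `(ρ, d)`,
`ρ > 0`, with `Re LevF ≥ 0` on the torus and a level sum which does not tend to `0`. The imaginary part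
of the level sum tends to `0` (`v` is real). So `v (j + n0 m) ≤ 0` and `m` large imply
`‖levelSum m‖ ≤ ε`; group equal values of `nz (l i) ^ n0` (different values have no equal positive
powers by `htor` and `e ∣ n0`) and apply `density_small` (AP12a, may still be sorry). -/

open scoped Classical in
/-- nonpositive terms are rare on a class whose level sum has nonnegative real part -/
private theorem aec_class (l c : Fin k → ℂ) (ex : Fin k → ℕ) (n0 j : ℕ) (hn0 : 0 < n0)
    (hexj : ∀ i, ex i ≤ j) (i0 : Fin k) (hi0 : l i0 ≠ 0)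
    (hG : grp l c ex n0 j (l i0 ^ n0) (ex i0) ≠ 0)
    (hvan : ∀ m, ∑ i, (if Above ‖l i0‖ (ex i0) (l i) (ex i) then
        c i * ((j + n0 * m).choose (ex i) : ℂ) * l i ^ (j + n0 * m - ex i) else 0) = 0)
    (htor : ∀ i i', l i ≠ 0 → l i' ≠ 0 → (∃ n : ℕ, 0 < n ∧ (l i / l i') ^ n = 1) →
      (l i / l i') ^ n0 = 1)
    (v : ℕ → ℝ)
    (hv : ∀ n, ∑ i, c i * (n.choose (ex i) : ℂ) * l i ^ (n - ex i) = (v n : ℂ))
    (hpos : ∀ m, 0 ≤ (levelSum l c ex n0 j ‖l i0‖ (ex i0) m).re) (η : ℝ) (hη : 0 < η) :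
    ∃ M0 : ℕ, ∀ M, M0 ≤ M →
      (((Finset.range M).filter fun m => v (j + n0 * m) ≤ 0).card : ℝ) ≤ η * M := by
  have hρ : 0 < ‖l i0‖ := norm_pos_iff.mpr hi0
  have hρC : (‖l i0‖ : ℂ) ≠ 0 := by exact_mod_cast hρ.ne'
  set ρ := ‖l i0‖ with hρdef
  set d := ex i0 with hd
  have hnzpow : ∀ i i', ‖l i‖ = ρ → ‖l i'‖ = ρ →
      (nz (l i) ^ n0 = nz (l i') ^ n0 ↔ l i ^ n0 = l i' ^ n0) := by
    intro i i' hi hi'
    have e1 : (ρ : ℂ) ^ n0 * nz (l i) ^ n0 = l i ^ n0 := by
      rw [← hi]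
      exact nz_pow_eq n0
    have e2 : (ρ : ℂ) ^ n0 * nz (l i') ^ n0 = l i' ^ n0 := by
      rw [← hi']
      exact nz_pow_eq n0
    constructor
    · intro h
      rw [← e1, ← e2, h]
    · intro h
      rw [← e1, ← e2] at h
      exact mul_left_cancel₀ (pow_ne_zero n0 hρC) h
  -- grouping
  set Lv : Finset (Fin k) := Finset.univ.filter (fun i => ‖l i‖ = ρ ∧ ex i = d) with hLv
  set S : Finset ℂ := Lv.image (fun i => nz (l i) ^ n0) with hS
  set C : {y : ℂ // y ∈ S} → ℂ := fun y =>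
    ∑ i ∈ Lv with nz (l i) ^ n0 = (y : ℂ), c i * l i ^ (j - d) with hC
  have hsum : ∀ m : ℕ, levelSum l c ex n0 j ρ d m = ∑ y : {y : ℂ // y ∈ S}, C y * (y : ℂ) ^ m := by
    intro m
    rw [levelSum, ← Finset.sum_filter,
      ← Finset.sum_fiberwise_of_maps_to (t := S) (g := fun i => nz (l i) ^ n0)
        (fun i hi => Finset.mem_image_of_mem _ hi), ← Finset.sum_coe_sort S]
    refine Finset.sum_congr rfl fun y _ => ?_
    simp only [hC]
    rw [Finset.sum_mul]
    refine Finset.sum_congr rfl fun i hi => ?_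
    rw [(Finset.mem_filter.mp hi).2]
  have hi0L : i0 ∈ Lv := by simp [hLv, hρdef, hd]
  have hy0 : nz (l i0) ^ n0 ∈ S := Finset.mem_image_of_mem _ hi0L
  obtain ⟨ε, hε, M1, hM1⟩ := Pool.Agent.AlmostPos.density_small
    (fun y : {y : ℂ // y ∈ S} => (y : ℂ)) C
    (by
      rintro ⟨y, hy⟩
      obtain ⟨i, -, rfl⟩ := Finset.mem_image.mp hy
      rw [norm_pow, norm_nz, one_pow])
    (by
      rintro ⟨y, hy⟩ ⟨y', hy'⟩ hne n hn h
      obtain ⟨i, hi, rfl⟩ := Finset.mem_image.mp hy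
      obtain ⟨i', hi', rfl⟩ := Finset.mem_image.mp hy'
      apply hne
      apply Subtype.ext
      change nz (l i) ^ n0 = nz (l i') ^ n0
      have h1 := (Finset.mem_filter.mp hi).2.1
      have h2 := (Finset.mem_filter.mp hi').2.1
      rw [hnzpow i i' h1 h2]
      have hli : l i ≠ 0 := norm_pos_iff.mp (by rw [h1]; exact hρ)
      have hli' : l i' ≠ 0 := norm_pos_iff.mp (by rw [h2]; exact hρ)
      have h3 : l i ^ (n0 * n) = l i' ^ (n0 * n) := by
        have e1 : (ρ : ℂ) ^ n0 * nz (l i) ^ n0 = l i ^ n0 := by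
          rw [← h1]
          exact nz_pow_eq n0
        have e2 : (ρ : ℂ) ^ n0 * nz (l i') ^ n0 = l i' ^ n0 := by
          rw [← h2]
          exact nz_pow_eq n0
        rw [pow_mul, pow_mul, ← e1, ← e2, mul_pow, mul_pow]
        exact congrArg _ h
      have h4 := htor i i' hli hli' ⟨n0 * n, by positivity, by
        rw [div_pow, h3, div_self (pow_ne_zero _ hli')]⟩
      rw [div_pow, div_eq_one_iff_eq (pow_ne_zero _ hli')] at h4
      exact h4)
    ⟨⟨_, hy0⟩, by
      have h1 : C ⟨_, hy0⟩ = grp l c ex n0 j (l i0 ^ n0) d := by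
        simp only [hC, grp, hLv]
        rw [Finset.filter_filter]
        apply Finset.sum_congr _ (fun _ _ => rfl)
        ext i
        simp only [Finset.mem_filter, Finset.mem_univ, true_and]
        constructor
        · rintro ⟨⟨h8, h7⟩, h6⟩
          exact ⟨(hnzpow i i0 h8 rfl).mp h6, h7⟩
        · rintro ⟨h6, h7⟩
          have h8 := norm_eq_of_pow_eq hn0 h6
          exact ⟨⟨h8, h7⟩, (hnzpow i i0 h8 rfl).mpr h6⟩
      rw [h1]
      exact hG⟩ (η / 2) (by positivity)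
  -- asymptotics
  have hlev := level_asym l c ex n0 j hn0 hexj ρ d hρ hvan
  have hκt := choose_asym j n0 d hn0
  set κ : ℝ := (n0 : ℝ) ^ d / d.factorial with hκ
  have hn0R : (0 : ℝ) < n0 := by exact_mod_cast hn0
  have hκ0 : 0 < κ := by positivity
  set κM : ℕ → ℝ := fun M => ((j + n0 * M).choose d : ℝ) / (M : ℝ) ^ d with hκM
  set L : ℕ → ℂ := fun M => levelSum l c ex n0 j ρ d M with hL
  have hasym : Tendsto (fun M : ℕ => ((v (j + n0 * M) : ℝ) : ℂ) /
        ((ρ ^ (n0 * M) * (M : ℝ) ^ d : ℝ) : ℂ) - ((κM M : ℝ) : ℂ) * L M) atTop (𝓝 0) := by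
    refine hlev.congr fun M => ?_
    rw [hv]
  have hre : Tendsto (fun M : ℕ => v (j + n0 * M) / (ρ ^ (n0 * M) * (M : ℝ) ^ d) -
      κM M * (L M).re) atTop (𝓝 0) := by
    have h1 := (Complex.continuous_re.tendsto 0).comp hasym
    rw [Complex.zero_re] at h1
    refine h1.congr fun M => ?_
    simp only [Function.comp_apply]
    rw [Complex.sub_re, Complex.re_ofReal_mul, ← Complex.ofReal_div, Complex.ofReal_re]
  have him : Tendsto (fun M : ℕ => κM M * (L M).im) atTop (𝓝 0) := by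
    have h1 := ((Complex.continuous_im.tendsto 0).comp hasym).neg
    rw [Complex.zero_im, neg_zero] at h1
    refine h1.congr fun M => ?_
    simp only [Function.comp_apply]
    rw [Complex.sub_im, Complex.im_ofReal_mul, ← Complex.ofReal_div, Complex.ofReal_im]
    ring
  have hκM0 : ∀ᶠ M in atTop, κ / 2 < κM M := hκt.eventually_const_lt (by linarith)
  have hθ : 0 < κ * ε / 4 := by positivity
  have hev : ∀ᶠ M in atTop, v (j + n0 * M) ≤ 0 → ‖L M‖ ≤ ε := by
    filter_upwards [hκM0, hre.eventually_const_lt (show -(κ * ε / 4) < 0 by linarith),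
      him.eventually_const_lt (show -(κ * ε / 4) < 0 by linarith),
      him.eventually_lt_const hθ] with M h1 h2 h3 h4 h5
    have hsc : 0 ≤ ρ ^ (n0 * M) * (M : ℝ) ^ d := by positivity
    have h6 : v (j + n0 * M) / (ρ ^ (n0 * M) * (M : ℝ) ^ d) ≤ 0 :=
      div_nonpos_of_nonpos_of_nonneg h5 hsc
    have h7 : κM M * (L M).re < κ * ε / 4 := by linarith
    have h8 : 0 ≤ (L M).re := hpos M
    have hκMp : 0 < κM M := lt_trans (by positivity) h1
    have h9 : (L M).re ≤ ε / 2 := by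
      by_contra hcon
      push Not at hcon
      have : κ / 2 * (ε / 2) < κM M * (L M).re :=
        mul_lt_mul'' h1 hcon (by positivity) (by positivity)
      linarith
    have h10 : |(L M).im| ≤ ε / 2 := by
      have h11 : |κM M * (L M).im| < κ * ε / 4 := abs_lt.mpr ⟨h3, h4⟩
      rw [abs_mul, abs_of_pos hκMp] at h11
      by_contra hcon
      push Not at hcon
      have : κ / 2 * (ε / 2) < κM M * |(L M).im| :=
        mul_lt_mul'' h1 hcon (by positivity) (by positivity)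
      linarith
    calc ‖L M‖ ≤ |(L M).re| + |(L M).im| := Complex.norm_le_abs_re_add_abs_im _
      _ ≤ ε / 2 + ε / 2 := add_le_add (by rw [abs_of_nonneg h8]; exact h9) h10
      _ = ε := by ring
  obtain ⟨m1, hm1⟩ := eventually_atTop.mp hev
  obtain ⟨m2, hm2⟩ := exists_nat_gt ((m1 : ℝ) / (η / 2))
  refine ⟨max M1 m2, fun M hM => ?_⟩
  have hMM1 : M1 ≤ M := (le_max_left _ _).trans hM
  have hMm2 : (m2 : ℝ) ≤ M := by exact_mod_cast (le_max_right _ _).trans hM
  have hsub : ((Finset.range M).filter fun m => v (j + n0 * m) ≤ 0) ⊆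
      Finset.range m1 ∪ ((Finset.range M).filter fun m =>
        ‖∑ y : {y : ℂ // y ∈ S}, C y * (y : ℂ) ^ m‖ ≤ ε) := by
    intro m hm
    obtain ⟨h1, h2⟩ := Finset.mem_filter.mp hm
    rcases Nat.lt_or_ge m m1 with h | h
    · exact Finset.mem_union_left _ (Finset.mem_range.mpr h)
    · refine Finset.mem_union_right _ (Finset.mem_filter.mpr ⟨h1, ?_⟩)
      rw [← hsum m]
      exact hm1 m h h2
  have hc1 : (((Finset.range M).filter fun m => v (j + n0 * m) ≤ 0).card : ℝ) ≤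
      (m1 : ℝ) + (((Finset.range M).filter fun m =>
        ‖∑ y : {y : ℂ // y ∈ S}, C y * (y : ℂ) ^ m‖ ≤ ε).card : ℝ) := by
    have h1 := (Finset.card_le_card hsub).trans (Finset.card_union_le _ _)
    rw [Finset.card_range] at h1
    exact_mod_cast h1
  have hc2 := hM1 M hMM1
  have hc3 : (m1 : ℝ) ≤ η / 2 * M := by
    have h1 : (m1 : ℝ) / (η / 2) < M := lt_of_lt_of_le hm2 hMm2
    rw [div_lt_iff₀ (by positivity)] at h1
    linarith
  have hc4 : (((Finset.range M).filter fun m =>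
        ‖∑ y : {y : ℂ // y ∈ S}, C y * (y : ℂ) ^ m‖ ≤ ε).card : ℝ) ≤ η / 2 * M := by
    convert hc2 using 3
  linarith

/-- combination of the classes -/
private theorem aec_combine (v : ℕ → ℝ) (k n0 : ℕ) (hn0 : 0 < n0)
    (h : ∀ j, k ≤ j → j < k + n0 → ∀ η : ℝ, 0 < η → ∃ M0 : ℕ, ∀ M, M0 ≤ M →
      open scoped Classical in
      (((Finset.range M).filter fun m => v (j + n0 * m) ≤ 0).card : ℝ) ≤ η * M) :
    AEPos v := by
  classical
  unfold AEPos
  rw [Metric.tendsto_atTop]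
  intro ε hε
  have hn0R : (0 : ℝ) < n0 := by exact_mod_cast hn0
  have hη : 0 < ε / (4 * n0) := by positivity
  have h' : ∀ j : ℕ, ∃ M0 : ℕ, j ∈ Finset.Ico k (k + n0) → ∀ M, M0 ≤ M →
      (((Finset.range M).filter fun m => v (j + n0 * m) ≤ 0).card : ℝ) ≤ ε / (4 * n0) * M := by
    intro j
    by_cases hj : j ∈ Finset.Ico k (k + n0)
    · obtain ⟨M0, hM0⟩ := h j (Finset.mem_Ico.mp hj).1 (Finset.mem_Ico.mp hj).2 _ hη
      exact ⟨M0, fun _ M hM => by convert hM0 M hM using 3⟩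
    · exact ⟨0, fun hh => absurd hh hj⟩
  choose M0 hM0 using h'
  obtain ⟨N1, hN1⟩ := exists_nat_gt (4 * (k : ℝ) / ε)
  refine ⟨(Finset.Ico k (k + n0)).sup M0 + N1 + 1, fun X hX => ?_⟩
  have hX0 : (0 : ℝ) < X := by
    have : 0 < X := by omega
    exact_mod_cast this
  have hXN : (N1 : ℝ) ≤ X := by
    have : N1 ≤ X := by omega
    exact_mod_cast this
  have hsub : ((Finset.range X).filter fun n => v n ≤ 0) ⊆ Finset.range k ∪
      (Finset.Ico k (k + n0)).biUnion fun j =>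
        ((Finset.range X).filter fun m => v (j + n0 * m) ≤ 0).image fun m => j + n0 * m := by
    intro n hn
    obtain ⟨h1, h2⟩ := Finset.mem_filter.mp hn
    rw [Finset.mem_range] at h1
    rcases Nat.lt_or_ge n k with h3 | h3
    · exact Finset.mem_union_left _ (Finset.mem_range.mpr h3)
    · refine Finset.mem_union_right _ (Finset.mem_biUnion.mpr ⟨k + (n - k) % n0, ?_, ?_⟩)
      · rw [Finset.mem_Ico]
        have := Nat.mod_lt (n - k) hn0
        omega
      · have h4 := Nat.mod_add_div (n - k) n0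
        have h5 : k + (n - k) % n0 + n0 * ((n - k) / n0) = n := by omega
        refine Finset.mem_image.mpr ⟨(n - k) / n0, Finset.mem_filter.mpr ⟨?_, ?_⟩, h5⟩
        · rw [Finset.mem_range]
          have := Nat.div_le_self (n - k) n0
          omega
        · rw [h5]
          exact h2
  have hcard : (((Finset.range X).filter fun n => v n ≤ 0).card : ℝ) ≤
      k + ∑ j ∈ Finset.Ico k (k + n0),
        (((Finset.range X).filter fun m => v (j + n0 * m) ≤ 0).card : ℝ) := by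
    have h1 := (Finset.card_le_card hsub).trans (Finset.card_union_le _ _)
    have h2 : ((Finset.Ico k (k + n0)).biUnion fun j =>
        ((Finset.range X).filter fun m => v (j + n0 * m) ≤ 0).image fun m => j + n0 * m).card ≤
        ∑ j ∈ Finset.Ico k (k + n0), ((Finset.range X).filter fun m => v (j + n0 * m) ≤ 0).card :=
      Finset.card_biUnion_le.trans (Finset.sum_le_sum fun j _ => Finset.card_image_le)
    rw [Finset.card_range] at h1
    exact_mod_cast h1.trans (Nat.add_le_add_left h2 k)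
  have hsum : ∑ j ∈ Finset.Ico k (k + n0),
        (((Finset.range X).filter fun m => v (j + n0 * m) ≤ 0).card : ℝ) ≤ ε / 4 * X := by
    calc _ ≤ ∑ j ∈ Finset.Ico k (k + n0), ε / (4 * n0) * X := by
          refine Finset.sum_le_sum fun j hj => hM0 j hj X ?_
          have := Finset.le_sup (f := M0) hj
          omega
      _ = ε / 4 * X := by
          rw [Finset.sum_const, Nat.card_Ico, nsmul_eq_mul, Nat.add_sub_cancel_left]
          field_simp
  have hk : (k : ℝ) < ε / 4 * X := by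
    have h1 : 4 * (k : ℝ) / ε < X := lt_of_lt_of_le hN1 hXN
    rw [div_lt_iff₀ hε] at h1
    linarith
  rw [Real.dist_eq, sub_zero, abs_of_nonneg (by positivity), div_lt_iff₀ hX0]
  have : 0 < ε * X := by positivity
  linarith

theorem ae_complete (l c : Fin k → ℂ) (ex : Fin k → ℕ) (R Q MH Q' e Nb : ℕ) (hk : 0 < k)
    (hex : ∀ i, ex i < k) (hinj : Function.Injective fun i => (l i, ex i))
    (hR : 1 ≤ R)
    (hQ : 2 * k * R ≤ Q) (hMH : k.factorial * (Q ^ k + 1) ^ k ≤ MH) (δ : ℝ)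
    (hδ0 : 0 ≤ δ) (hδ1 : 2 * k * MH * δ ≤ 1)
    (hδ2 : (k : ℝ) ^ 4 * (Q ^ k + 1) * Q ^ (k + 1) * MH ^ 3 * δ ^ 2 ≤ 1)
    (hδ3 : 2 * (k : ℝ) * R * δ ≤ 1)
    (hQ' : 0 < Q') (hδQ' : 7 / (Q' : ℝ) ≤ δ) (he : 0 < e) (hNb : e * Q' ^ k ≤ Nb)
    (hrb : RelBound k l R)
    (htor : ∀ i i', l i ≠ 0 → l i' ≠ 0 → (∃ n : ℕ, 0 < n ∧ (l i / l i') ^ n = 1) →
      (l i / l i') ^ e = 1)
    (v : ℕ → ℝ)
    (hv : ∀ n, ∑ i, c i * (n.choose (ex i) : ℂ) * l i ^ (n - ex i) = (v n : ℂ))
    (hno : ¬ CertBF k l c ex MH Nb (2 / Q) δ PAE) : AEPos v := by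
  classical
  obtain ⟨t, ht, htQ, htδ⟩ := exists_n0 (fun i => nz (l i)) (fun i => norm_nz _) e Q' hQ'
  set n0 := e * t with hn0def
  have hn0 : 0 < n0 := by positivity
  have hn0Nb : n0 ≤ Nb := (Nat.mul_le_mul_left e htQ).trans hNb
  set μ : Fin k → ℂ := fun i => nz (l i) ^ n0 with hμ
  have hμn : ∀ i, ‖μ i‖ = 1 := fun i => by rw [hμ]; simp only [norm_pow, norm_nz, one_pow]
  have hμδ : ∀ i, ‖μ i - 1‖ ≤ δ := fun i => (htδ i).trans hδQ'
  set θ : Fin k → ℝ := fun i => (μ i).arg with hθ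
  have hθδ : ∀ i, |θ i| ≤ 2 * δ := fun i =>
    (abs_arg_le (hμn i)).trans (by have := hμδ i; linarith)
  have hprodμ : ∀ g : Fin k → ℤ, ∏ i, μ i ^ g i = exp ((∑ i, (g i : ℝ) * θ i : ℝ) * I) :=
    prod_zpow_eq_exp hμn
  have hprodμ' : ∀ g : Fin k → ℤ, ∏ i, μ i ^ g i = (∏ i, nz (l i) ^ g i) ^ n0 :=
    fun g => prod_pow_zpow (fun i => nz (l i)) g n0
  have hrel : ∀ a : Fin k → ℤ, (∀ g : Fin k → ℤ, (∀ i, |g i| ≤ R) →
      ∑ t, (g t : ℝ) * θ t = 0 → ∑ t, a t * g t = 0) →
      ∀ g : Fin k → ℤ, ∑ t, (g t : ℝ) * θ t = 0 → ∑ t, a t * g t = 0 := by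
    intro a ha g hg
    have h1 := hrb a (by
      intro g hg hrel
      apply ha g hg
      have h2 : (∏ i, μ i ^ g i) ^ 2 = 1 := by
        rw [hprodμ', ← pow_mul, mul_comm, pow_mul, hrel, one_pow]
      rw [hprodμ] at h2
      apply eq_zero_of_exp_sq h2
      calc |∑ i, (g i : ℝ) * θ i| ≤ ∑ i, |(g i : ℝ) * θ i| := Finset.abs_sum_le_sum_abs _ _
        _ ≤ ∑ _i : Fin k, (R : ℝ) * (2 * δ) := by
            apply Finset.sum_le_sum
            intro i _
            rw [abs_mul]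
            have h3 : |(g i : ℝ)| ≤ R := by exact_mod_cast hg i
            exact mul_le_mul h3 (hθδ i) (abs_nonneg _) (by positivity)
        _ = 2 * (k : ℝ) * R * δ := by simp; ring
        _ ≤ 1 := hδ3
        _ < Real.pi := by have := Real.pi_gt_three; linarith)
    have h2 : (∏ i, nz (l i) ^ g i) ^ n0 = 1 := by
      rw [← hprodμ', hprodμ, hg]
      simp
    have h3 := h1 (fun i => n0 * g i) (by
      have h4 : ∏ i, nz (l i) ^ ((n0 : ℤ) * g i) = (∏ i, nz (l i) ^ g i) ^ n0 := by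
        rw [← Finset.prod_pow]
        apply Finset.prod_congr rfl
        intro i _
        rw [mul_comm, zpow_mul, zpow_natCast]
      rw [h4, h2, one_pow])
    have h4 : (n0 : ℤ) * ∑ i, a i * g i = 0 := by
      rw [← h3, Finset.mul_sum]
      exact Finset.sum_congr rfl fun i _ => by ring
    rcases mul_eq_zero.mp h4 with h5 | h5
    · exact absurd h5 (by exact_mod_cast hn0.ne')
    · exact h5
  obtain ⟨s, A, H, D, w, τ, hs, hD, hDM, hHA, hA, hH, hw, hwε, _, x, hx0, hx⟩ :=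
    exists_rel_cert R Q MH hR hQ hk θ hrel δ hδ0 hθδ hMH hδ1 hδ2
  have hAM : ∀ l' t, |A l' t| ≤ MH := by
    intro l' t
    refine (hA l' t).trans ?_
    have h1 : Q ^ k + 1 ≤ MH := by
      refine le_trans ?_ hMH
      calc Q ^ k + 1 = 1 * (Q ^ k + 1) ^ 1 := by ring
        _ ≤ k.factorial * (Q ^ k + 1) ^ k :=
            Nat.mul_le_mul k.factorial_pos (Nat.pow_le_pow_right (by omega) hk)
    exact_mod_cast h1
  have hw' : ∀ i : Fin k, (i : ℕ) < s → ∀ l', i ≤ l' → ∑ t, (H l' t : ℝ) * w i t =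
      (if l' = i then (D : ℝ) else 0) - τ i * (∏ t, (nz (l t) ^ n0) ^ H l' t).im := by
    intro i hi l' hl'
    rw [hw i hi l' hl']
    have := hprodμ (H l')
    rw [show (∏ t, (nz (l t) ^ n0) ^ H l' t) = ∏ t, μ t ^ H l' t from rfl, this, im_exp]
  refine aec_combine v k n0 hn0 fun j hj hj' η hη => ?_
  have hexj : ∀ i, ex i ≤ j := fun i => ((hex i).le.trans hj)
  rcases level_cases l c ex n0 j hn0 hexj with hvan | ⟨i0, hi0, hG, hvan⟩
  · exfalso
    apply hno
    refine ⟨n0, j, A, H, D, s, w, τ, 0, 0, fun _ => 1, fun _ => 1, ⟨hn0, hn0Nb, hj, hj', hs, hD,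
        hDM, hHA, hAM, hH, hμδ, hw', hwε, le_rfl, hk, ?_⟩, fun _ => norm_one, fun _ => norm_one,
        Or.inl rfl⟩
    intro m _
    refine Eq.trans (Finset.sum_congr rfl fun i _ => ?_) (hvan m)
    unfold Above
    by_cases h : l i = 0
    · simp [h]
    · have h1 : 0 < ‖l i‖ := norm_pos_iff.mpr h
      rw [if_pos (Or.inl h1), if_pos h]
  · have hρ : 0 < ‖l i0‖ := norm_pos_iff.mpr hi0
    have hbase : BaseF k l c ex MH Nb (2 / Q) δ n0 j A H D s w τ ‖l i0‖ (ex i0) :=
      ⟨hn0, hn0Nb, hj, hj', hs, hD, hDM, hHA, hAM, hH, hμδ, hw', hwε, hρ.le, hex i0,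
        fun m _ => hvan m⟩
    obtain ⟨M0, hM0⟩ := aec_class l c ex n0 j hn0 hexj i0 hi0 hG hvan (fun i i' hi hi' h => by
      have h4 := htor i i' hi hi' h
      rw [hn0def, pow_mul, h4, one_pow]) v hv (fun m => by
        rw [levelSum_eq l c ex n0 j (ex i0) ‖l i0‖ s A x hx0 hx m]
        by_contra hcon
        push Not at hcon
        exact hno ⟨n0, j, A, H, D, s, w, τ, ‖l i0‖, ex i0, _, fun _ => 1, hbase,
          fun t => norm_exp_ofReal_mul_I _, fun _ => norm_one, Or.inr hcon⟩) η hη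
    exact ⟨M0, fun M hM => by convert hM0 M hM using 3⟩

end Pool.Agent.DD7719.M
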