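import Pool.Agent.DD7719.TAssemble

/-! AP12. Definitions for almost everywhere positivity. -/

set_option autoImplicit false

namespace Pool.Agent.DD7719.M

open Complex Filter Topology GS

/-- the set of indices of nonpositive terms has density zero -/
def AEPos (v : ℕ → ℝ) : Prop :=
  open scoped Classical in
  Tendsto (fun X : ℕ => (((Finset.range X).filter fun n => v n ≤ 0).card : ℝ) / X) atTop (𝓝 0)

/-- the last clause of a certificate -/
def PAE (ρ : ℝ) (_d : ℕ) (f _f' : ℝ) : Prop := ρ = 0 ∨ f < 0

end Pool.Agent.DD7719.M
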