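import Mathlib

/-! AP6. Ultimate positivity implies that the top part is never negative; return times. -/

set_option autoImplicit false

namespace Pool.Agent.AlmostPos

open Filter Topology Finset

/- PROOF SKETCH. (a) `returns`: the set `{(μ i ^ n)_i : n}` is totally bounded in the torus; take a
finite `ε`-net of the form `h_1, .., h_r`; for every `n` some `h_j` has
`‖μ i ^ (n + H) - μ i ^ h_j‖ ≤ ε` for all `i` (`H > max h_j`), i.e. `‖μ i ^ (n + H - h_j) - 1‖ ≤ ε`.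
(b) `re_nonneg_of_pos`: if `Re ∑ C i ζ i ^ m < 0`, use `μ i = ζ i / ρ`: for infinitely many `h` the
value at `m + h`, divided by `ρ ^ (m + h)`, is within any `ε` of the value at `m` divided by `ρ ^ m`,
while `‖e‖ / ρ ^ m → 0`; contradiction to `0 < w` eventually. -/

/-- Bohr: the return times to a neighbourhood of `1` have bounded gaps. -/
theorem returns {ι : Type} [Fintype ι] (μ : ι → ℂ) (hμ : ∀ i, ‖μ i‖ = 1) (ε : ℝ) (hε : 0 < ε) :
    ∃ H : ℕ, 0 < H ∧ ∀ n : ℕ, ∃ h : ℕ, n ≤ h ∧ h < n + H ∧ ∀ i, ‖μ i ^ h - 1‖ ≤ ε := by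
  classical
  set x : ℕ → ι → ℂ := fun n i => μ i ^ n with hx
  have hb : Set.range x ⊆ Metric.closedBall 0 1 := by
    rintro _ ⟨n, rfl⟩
    rw [mem_closedBall_zero_iff, pi_norm_le_iff_of_nonneg zero_le_one]
    intro i
    rw [hx]
    simp only [norm_pow, hμ, one_pow, le_refl]
  have htb : TotallyBounded (Set.range x) :=
    (isCompact_closedBall (0 : ι → ℂ) 1).totallyBounded.subset hb
  obtain ⟨t, ht, htf, hcov⟩ := Metric.finite_approx_of_totallyBounded htb ε hε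
  choose! k hk using fun y (hy : y ∈ t) => ht hy
  set H : ℕ := htf.toFinset.sup k with hH
  refine ⟨H + 1, Nat.succ_pos _, fun n => ?_⟩
  have h1 := hcov ⟨n + H, rfl⟩
  rw [Set.mem_iUnion₂] at h1
  obtain ⟨y, hy, hxy⟩ := h1
  have hky : k y ≤ H := Finset.le_sup (f := k) (htf.mem_toFinset.2 hy)
  refine ⟨n + H - k y, by omega, by omega, fun i => ?_⟩
  rw [← hk y hy, mem_ball_iff_norm] at hxy
  have h2 : ‖x (n + H) i - x (k y) i‖ ≤ ε := by
    have := norm_le_pi_norm (x (n + H) - x (k y)) i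
    exact this.trans hxy.le
  have h3 : x (n + H) i - x (k y) i = (μ i ^ (n + H - k y) - 1) * μ i ^ k y := by
    rw [hx]
    simp only
    rw [sub_mul, one_mul, ← pow_add]
    congr 2
    omega
  rw [h3, norm_mul, norm_pow, hμ, one_pow, mul_one] at h2
  exact h2

theorem re_nonneg_of_pos {ι : Type} [Fintype ι] (ζ C : ι → ℂ) (ρ : ℝ) (hρ : 0 < ρ)
    (hζ : ∀ i, ‖ζ i‖ = ρ) (w : ℕ → ℝ) (e : ℕ → ℂ)
    (he : Tendsto (fun m => ‖e m‖ / ρ ^ m) atTop (𝓝 0))
    (hw : ∀ m, (w m : ℂ) = ∑ i, C i * ζ i ^ m + e m) (hup : ∀ᶠ m in atTop, 0 < w m) (m : ℕ) :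
    0 ≤ (∑ i, C i * ζ i ^ m).re := by
  by_contra hneg
  rw [not_le] at hneg
  have hρC : (ρ : ℂ) ≠ 0 := by exact_mod_cast hρ.ne'
  set μ : ι → ℂ := fun i => ζ i / ρ with hμd
  have hμ : ∀ i, ‖μ i‖ = 1 := by
    intro i
    rw [hμd]
    simp only [norm_div, hζ, Complex.norm_real, Real.norm_eq_abs, abs_of_pos hρ]
    exact div_self hρ.ne'
  have hS : ∀ k : ℕ, ∑ i, C i * ζ i ^ k = ((ρ ^ k : ℝ) : ℂ) * ∑ i, C i * μ i ^ k := by
    intro k
    rw [Finset.mul_sum]
    refine Finset.sum_congr rfl fun i _ => ?_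
    rw [hμd]
    simp only
    rw [div_pow]
    push_cast
    field_simp
  set D : ℝ := -(∑ i, C i * μ i ^ m).re with hD
  have hDpos : 0 < D := by
    rw [hS m, Complex.re_ofReal_mul] at hneg
    have h1 : 0 < ρ ^ m := by positivity
    rw [hD]
    by_contra h2
    have h3 : 0 ≤ (∑ i, C i * μ i ^ m).re := by linarith
    exact absurd hneg (not_lt.2 (mul_nonneg h1.le h3))
  set B : ℝ := ∑ i, ‖C i‖ with hB
  have hB0 : 0 ≤ B := Finset.sum_nonneg fun i _ => norm_nonneg _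
  have hε : 0 < D / (4 * (B + 1)) := by positivity
  obtain ⟨H, -, hH⟩ := returns μ hμ _ hε
  have h1 : ∀ᶠ k in atTop, 0 < w k ∧ ‖e k‖ / ρ ^ k < D / 4 :=
    hup.and (he.eventually (gt_mem_nhds (by positivity)))
  obtain ⟨N, hN⟩ := eventually_atTop.1 h1
  obtain ⟨h, hh1, -, hh2⟩ := hH N
  obtain ⟨h3, h4⟩ := hN (m + h) (by omega)
  have hpow : 0 < ρ ^ (m + h) := by positivity
  rw [div_lt_iff₀ hpow] at h4
  have h5 : ‖∑ i, C i * μ i ^ (m + h) - ∑ i, C i * μ i ^ m‖ ≤ D / 4 := by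
    rw [← Finset.sum_sub_distrib]
    calc ‖∑ i, (C i * μ i ^ (m + h) - C i * μ i ^ m)‖
        ≤ ∑ i, ‖C i * μ i ^ (m + h) - C i * μ i ^ m‖ := norm_sum_le _ _
      _ ≤ ∑ i, ‖C i‖ * (D / (4 * (B + 1))) := by
          refine Finset.sum_le_sum fun i _ => ?_
          have h6 : C i * μ i ^ (m + h) - C i * μ i ^ m = C i * (μ i ^ m * (μ i ^ h - 1)) := by
            rw [pow_add]
            ring
          rw [h6, norm_mul, norm_mul, norm_pow, hμ, one_pow, one_mul]
          exact mul_le_mul_of_nonneg_left (hh2 i) (norm_nonneg _)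
      _ = B * (D / (4 * (B + 1))) := by rw [← Finset.sum_mul]
      _ ≤ D / 4 := by
          rw [mul_div_assoc', div_le_div_iff₀ (by positivity) (by norm_num)]
          nlinarith
  have h6 : (∑ i, C i * μ i ^ (m + h)).re ≤ -D + D / 4 := by
    have h7 := (Complex.abs_re_le_norm (∑ i, C i * μ i ^ (m + h) - ∑ i, C i * μ i ^ m)).trans h5
    rw [Complex.sub_re] at h7
    have h8 := (abs_le.1 h7).2
    rw [hD]
    linarith
  have h7 : w (m + h) = ρ ^ (m + h) * (∑ i, C i * μ i ^ (m + h)).re + (e (m + h)).re := by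
    have h8 := congrArg Complex.re (hw (m + h))
    rw [Complex.ofReal_re, Complex.add_re, hS, Complex.re_ofReal_mul] at h8
    exact h8
  have h8 : (e (m + h)).re ≤ D / 4 * ρ ^ (m + h) :=
    ((le_abs_self _).trans (Complex.abs_re_le_norm _)).trans h4.le
  have h9 : ρ ^ (m + h) * (∑ i, C i * μ i ^ (m + h)).re ≤ ρ ^ (m + h) * (-D + D / 4) :=
    mul_le_mul_of_nonneg_left h6 hpow.le
  have h10 : 0 < ρ ^ (m + h) * D := by positivity
  rw [h7] at h3
  nlinarith

end Pool.Agent.AlmostPos
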