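import Pool.Agent.AlmostPos.AEDef
import Pool.Agent.AlmostPos.TopPos

/-! AP12b. Certificates are sound. -/

set_option autoImplicit false

namespace Pool.Agent.DD7719.M

open Complex Filter Topology GS

variable {k : ℕ}

/-- violations with bounded gaps have positive upper density -/
theorem not_aePos_of_gaps (v : ℕ → ℝ) (L N0 : ℕ)
    (h : ∀ n, N0 ≤ n → ∃ m, n ≤ m ∧ m < n + L ∧ v m ≤ 0) : ¬ AEPos v := by
  classical
  intro hA
  unfold AEPos at hA
  have hL1 : (0 : ℝ) < 1 / ((L : ℝ) + 1) := by positivity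
  have h1 := hA.eventually_lt_const hL1
  rw [eventually_atTop] at h1
  obtain ⟨X0, hX0⟩ := h1
  choose! g hg using h
  set K : ℕ := X0 + N0 + 1 with hK
  have hLpos : 0 < L := by
    by_contra h0
    have h2 := hg N0 le_rfl
    omega
  have h3 := hX0 (N0 + L * K) (by nlinarith)
  have hcard : K ≤ ((Finset.range (N0 + L * K)).filter fun n => v n ≤ 0).card := by
    have h4 : (Finset.range K).card ≤
        ((Finset.range (N0 + L * K)).filter fun n => v n ≤ 0).card := by
      apply Finset.card_le_card_of_injOn (fun i => g (N0 + L * i))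
      · intro i hi
        rw [Finset.coe_range, Set.mem_Iio] at hi
        have h5 := hg (N0 + L * i) (by omega)
        rw [Finset.mem_coe, Finset.mem_filter, Finset.mem_range]
        refine ⟨?_, h5.2.2⟩
        have h6 : L * i + L ≤ L * K := by
          rw [← Nat.mul_succ]
          exact Nat.mul_le_mul_left L hi
        change g (N0 + L * i) < N0 + L * K
        omega
      · intro i _ i' _ he
        have h5 := hg (N0 + L * i) (by omega)
        have h6 := hg (N0 + L * i') (by omega)
        simp only at he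
        rcases lt_trichotomy i i' with h7 | h7 | h7
        · exfalso
          have h8 : L * i + L ≤ L * i' := by
            rw [← Nat.mul_succ]
            exact Nat.mul_le_mul_left L h7
          omega
        · exact h7
        · exfalso
          have h8 : L * i' + L ≤ L * i := by
            rw [← Nat.mul_succ]
            exact Nat.mul_le_mul_left L h7
          omega
    rwa [Finset.card_range] at h4
  have hpos : (0 : ℝ) < ((N0 + L * K : ℕ) : ℝ) := by
    have : 0 < N0 + L * K := by nlinarith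
    exact_mod_cast this
  rw [div_lt_div_iff₀ hpos (by positivity), one_mul] at h3
  have hcard' : (K : ℝ) ≤ (((Finset.range (N0 + L * K)).filter fun n => v n ≤ 0).card : ℝ) := by
    exact_mod_cast hcard
  have h9 : (K : ℝ) * ((L : ℝ) + 1) ≤
      (((Finset.range (N0 + L * K)).filter fun n => v n ≤ 0).card : ℝ) * ((L : ℝ) + 1) :=
    mul_le_mul_of_nonneg_right hcard' (by positivity)
  have h10 : (N0 : ℝ) ≤ K := by
    have : N0 ≤ K := by omega
    exact_mod_cast this
  push_cast at h3
  nlinarith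

theorem not_aePos_of_prog (v : ℕ → ℝ) (j n0 H K0 : ℕ) (hn0 : 0 < n0)
    (h : ∀ K, K0 ≤ K → ∃ m, K ≤ m ∧ m < K + H ∧ v (j + n0 * m) ≤ 0) : ¬ AEPos v := by
  apply not_aePos_of_gaps v (n0 * (H + 1)) (j + n0 * K0)
  intro n hn
  have h1 := Nat.div_add_mod (n - j) n0
  have h2 := Nat.mod_lt (n - j) hn0
  set q := (n - j) / n0 with hq
  have hnj : j ≤ n := le_trans (Nat.le_add_right _ _) hn
  have hK : K0 ≤ q + 1 := by
    by_contra hcon
    push Not at hcon
    have h3 : n0 * (q + 1) ≤ n0 * K0 := Nat.mul_le_mul_left n0 hcon.le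
    rw [Nat.mul_succ] at h3
    omega
  obtain ⟨m, hm1, hm2, hm3⟩ := h (q + 1) hK
  refine ⟨j + n0 * m, ?_, ?_, hm3⟩
  · have h3 : n0 * (q + 1) ≤ n0 * m := Nat.mul_le_mul_left n0 hm1
    rw [Nat.mul_succ] at h3
    omega
  · have h3 : n0 * (m + 1) ≤ n0 * (q + 1 + H) := Nat.mul_le_mul_left n0 hm2
    have h4 : n0 * (m + 1) = n0 * m + n0 := by ring
    have h5 : n0 * (q + 1 + H) = n0 * q + n0 * (H + 1) := by ring
    omega

theorem ae_sound (l c : Fin k → ℂ) (ex : Fin k → ℕ) (R M Nb : ℕ) (ε δ : ℝ) (hk : 0 < k)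
    (hex : ∀ i, ex i < k) (hdc : ∀ i, ∀ e, e < ex i → ∃ i', l i' = l i ∧ ex i' = e)
    (hR : 1 ≤ R) (hM : 1 ≤ M)
    (hrb : RelBound k l R) (hε : 4 * k * R * ε ≤ 1) (hδ : 8 * k ^ 3 * M ^ 2 * R * δ ≤ 1)
    (v : ℕ → ℝ)
    (hv : ∀ n, ∑ i, c i * (n.choose (ex i) : ℂ) * l i ^ (n - ex i) = (v n : ℂ))
    (hc : CertBF k l c ex M Nb ε δ PAE) : ¬ AEPos v := by
  classical
  obtain ⟨n0, j, A, H, D, s, w, τ, ρ, d, z, z', hbase, hz, hz', hP⟩ := hc
  obtain ⟨hn0, _, hj, _, hs, hD, hDM, hHA, hA, hH, hδ', hw, hwε, hρ, hd, hvan⟩ := hbase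
  have hvan' : ∀ m, ∑ i, (if Above ρ d (l i) (ex i) then c i * ((j + n0 * m).choose (ex i) : ℂ) *
      l i ^ (j + n0 * m - ex i) else 0) = 0 :=
    vanish_gen l c ex hdc (fun i => Above ρ d (l i) (ex i)) j n0 hvan
  rcases hρ.eq_or_lt with h0 | hρpos
  · apply not_aePos_of_prog v j n0 1 0 hn0
    intro K _
    refine ⟨K, le_rfl, by omega, ?_⟩
    have h2 : ∑ i, c i * ((j + n0 * K).choose (ex i) : ℂ) * l i ^ (j + n0 * K - ex i) =
        ∑ i, (if Above ρ d (l i) (ex i) then c i * ((j + n0 * K).choose (ex i) : ℂ) *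
          l i ^ (j + n0 * K - ex i) else 0) := by
      apply Finset.sum_congr rfl
      intro i _
      split_ifs with h
      · rfl
      · have h3 : l i = 0 := by
          by_contra h4
          apply h
          left
          rw [← h0]
          exact norm_pos_iff.mpr h4
        rw [h3, zero_pow, mul_zero]
        have := hex i
        omega
    rw [hv, hvan' K] at h2
    have h3 : v (j + n0 * K) = 0 := by exact_mod_cast h2
    exact h3.le
  · have hf : (LevF l c ex A s j d ρ z).re < 0 := hP.resolve_left hρpos.ne'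
    obtain ⟨r, hr, hvr⟩ := asym l c ex hex j n0 d ρ hj hn0 hρpos hd v hv _ (fun i => Iff.rfl) hvan'
    set Fs : (Fin k → ℂ) → ℂ := fun W => ∑ i, (if ‖l i‖ = ρ ∧ ex i = d then
      c i * l i ^ (j - d) * W i else 0) with hFs
    set S : ℝ := ∑ i, ‖c i * l i ^ (j - d)‖ with hS
    have hS0 : 0 ≤ S := Finset.sum_nonneg fun i _ => norm_nonneg _
    have hclose : ∀ (W W' : Fin k → ℂ) (η : ℝ), (∀ i, ‖W i - W' i‖ ≤ η) →
        ‖Fs W - Fs W'‖ ≤ S * η := by
      intro W W' η h
      have hη : 0 ≤ η := (norm_nonneg _).trans (h ⟨0, hk⟩)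
      simp only [hFs]
      rw [← Finset.sum_sub_distrib]
      refine (norm_sum_le _ _).trans ?_
      rw [hS, Finset.sum_mul]
      apply Finset.sum_le_sum
      intro i _
      split_ifs
      · rw [← mul_sub, norm_mul]
        exact mul_le_mul_of_nonneg_left (h i) (norm_nonneg _)
      · rw [sub_zero, norm_zero]
        positivity
    have hvre : ∀ m, v (j + n0 * m) = ρ ^ (n0 * m) * ((j + n0 * m).choose d : ℝ) *
        (Fs (fun i => nz (l i) ^ (n0 * m)) + r m).re := by
      intro m
      have h1 := congrArg Complex.re (hvr m)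
      rw [ofReal_re] at h1
      rw [h1]
      have h2 : (ρ : ℂ) ^ (n0 * m) * ((j + n0 * m).choose d : ℂ) =
          ((ρ ^ (n0 * m) * ((j + n0 * m).choose d : ℝ) : ℝ) : ℂ) := by
        push_cast
        rfl
      rw [h2, re_ofReal_mul]
    set a : ℝ := -(LevF l c ex A s j d ρ z).re with ha
    have ha0 : 0 < a := by rw [ha]; linarith
    -- small error
    obtain ⟨N2, hN2⟩ : ∃ N, ∀ m, N ≤ m → ‖r m‖ < a / 8 := by
      have h1 := hr.norm
      rw [norm_zero] at h1
      have h2 := h1.eventually_lt_const (show (0 : ℝ) < a / 8 by positivity)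
      rwa [eventually_atTop] at h2
    have hSκ : S * (a / (8 * (S + 1))) ≤ a / 8 := by
      have h7 : S * (a / (8 * (S + 1))) = (S / (S + 1)) * (a / 8) := by field_simp
      rw [h7]
      have h8 : S / (S + 1) ≤ 1 := by
        rw [div_le_one (by linarith)]
        linarith
      nlinarith
    -- one approximation
    obtain ⟨m0, -, hcl⟩ := cert_limit l R M n0 hR hM hrb A H D s w τ ε δ hn0 hD hHA hA hH hδ' hw
      hwε hε hδ z hz n0 hn0 0 (a / (8 * (S + 1))) (by positivity)
    have h1 := hclose (fun i => nz (l i) ^ (n0 * m0))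
      (fun i => ∏ t : Fin k, (if (t : ℕ) < s then z t ^ A t i else 1)) (a / (8 * (S + 1)))
      (fun i => (hcl i).le)
    have h5 : Fs (fun i => ∏ t : Fin k, (if (t : ℕ) < s then z t ^ A t i else 1)) =
        LevF l c ex A s j d ρ z := rfl
    have h3 := (abs_re_le_norm _).trans (h1.trans hSκ)
    rw [sub_re, h5] at h3
    have h4 := (abs_le.mp h3).2
    -- return times
    obtain ⟨H', -, hH'⟩ := Pool.Agent.AlmostPos.returns (fun i => nz (l i) ^ n0)
      (fun i => by rw [norm_pow, norm_nz, one_pow]) (a / (8 * (S + 1))) (by positivity)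
    apply not_aePos_of_prog v j n0 H' (m0 + N2) hn0
    intro K hK
    obtain ⟨h, hh1, hh2, hh3⟩ := hH' (K - m0)
    refine ⟨m0 + h, by omega, by omega, ?_⟩
    have h6 := hclose (fun i => nz (l i) ^ (n0 * (m0 + h))) (fun i => nz (l i) ^ (n0 * m0))
      (a / (8 * (S + 1))) (fun i => by
        have h7 : nz (l i) ^ (n0 * (m0 + h)) - nz (l i) ^ (n0 * m0) =
            nz (l i) ^ (n0 * m0) * ((nz (l i) ^ n0) ^ h - 1) := by
          rw [mul_add, pow_add, ← pow_mul]
          ring
        rw [h7, norm_mul, norm_pow, norm_nz, one_pow, one_mul]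
        exact hh3 i)
    have h7 := (abs_re_le_norm _).trans (h6.trans hSκ)
    rw [sub_re] at h7
    have h8 := (abs_le.mp h7).2
    have h9 := (abs_le.mp ((abs_re_le_norm (r (m0 + h))).trans (hN2 (m0 + h) (by omega)).le)).2
    rw [hvre, add_re]
    apply mul_nonpos_of_nonneg_of_nonpos
    · positivity
    · linarith

end Pool.Agent.DD7719.M
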