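import Pool.Agent.AlmostPos.Defs
import Pool.Agent.AlmostPos.AESound
import Pool.Agent.AlmostPos.AEComplete
import Pool.Agent.DD7719.TLang

/-! AP12c. Almost everywhere positivity is in `∀ℝ`. -/

set_option autoImplicit false

namespace Pool.Agent.UltPos

open Pool.Agent.PT Pool.Agent.AllR Pool.Agent.DD7719.M Pool.Agent.DD7719 Finset

/- TEMPLATE: `Inst.not_tm_of_cert`, `Inst.cert_of_not_tm` (DD7719/TAssemble.lean) with `PT` replaced by
`PAE` and `Tm` by `AEPos` (use `ae_sound`, `ae_complete`, which may still be sorry), the lemma `re_PT`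
(DD7719/TRel.lean) with `PAE`, and the proof of `inForallR_simple` / `inForallR_tame`
(DD7719/Lang.lean, DD7719/TLang.lean), only the disjunction `not valid ∨ certificate`. -/

private theorem ael_re_PAE {Γ : Type} {t ρ f f' : List Γ → (ℕ → ℕ) → (ℕ → ℝ) → ℝ}
    {d : List Γ → (ℕ → ℕ) → ℕ} (_ : RF t) (hρ : RF ρ) (hf : RF f) (_ : RF f') (_ : UF d) :
    RE (fun x e α => (fun _ => PAE) (t x e α) (ρ x e α) (d x e) (f x e α) (f' x e α)) := by
  unfold PAE
  exact RE.or (RE.eq hρ RF.zero) (RE.lt hf RF.zero)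

section
variable (I : Inst) (L : ℕ) (hkL : I.k ≤ L)
    (hb : ∀ i, (I.aNum i).natAbs ≤ 2 ^ L ∧ I.aDen i ≤ 2 ^ L) (aR uR : ℕ → ℝ)
    (ha : ∀ t (h : t < I.k), aR t = (I.a ⟨t, h⟩ : ℝ)) (hu : ∀ t (h : t < I.k), uR t = (I.u ⟨t, h⟩ : ℝ))
    (v : ℕ → ℚ) (hv : I.IsSeq v)

include hkL hb ha hu hv in
private theorem ael_not_of_cert (h : ∃ (l c : ℕ → ℂ) (ex : ℕ → ℕ),
      RootData I.k aR uR l c ex ∧
      CertBN I.k l c ex (pbm L) (pbn L) (2 / ((2 ^ pq L : ℕ) : ℝ)) (1 / 2 ^ pdl L) PAE) :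
    ¬ AEPos (fun n => ((v n : ℚ) : ℝ)) := by
  obtain ⟨l, c, ex, hrd, hcert⟩ := h
  exact ae_sound (k := I.k) (fun i => l i) (fun i => c i) (fun i => ex i) (2 ^ pr L)
      (2 ^ pbm L) (2 ^ pbn L) _ _ I.kpos (fun i => hrd.1 i i.2)
      (fun i e he => hrd.closed i e he) Nat.one_le_two_pow
      Nat.one_le_two_pow (I.relBound' L hkL hb aR uR ha hrd) (peps hkL) (pd1 hkL)
      (fun n => ((v n : ℚ) : ℝ)) (I.all' aR uR ha hu v hv hrd) hcert.toF

include hkL hb ha hu hv in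
private theorem ael_cert_of_not (h : ¬ AEPos (fun n => ((v n : ℚ) : ℝ))) :
    ∃ (l c : ℕ → ℂ) (ex : ℕ → ℕ), RootData I.k aR uR l c ex ∧
      CertBN I.k l c ex (pbm L) (pbn L) (2 / ((2 ^ pq L : ℕ) : ℝ)) (1 / 2 ^ pdl L) PAE := by
  obtain ⟨l, c, ex, hrd⟩ := I.exists_rootData' aR uR ha hu
  refine ⟨l, c, ex, hrd, ?_⟩
  obtain ⟨e, he0, hele, htor⟩ := torsion_of_roots I.k I.num I.den I.den_pos' (fun i => l i)
    (I.root_eq' aR uR ha hrd)
  have hinj : Function.Injective fun i : Fin I.k => (l i, ex i) := by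
    intro i i' hii
    by_contra hne
    have h1 : (i : ℕ) ≠ (i' : ℕ) := fun h2 => hne (Fin.ext h2)
    have h3 : l i = l i' := congrArg Prod.fst hii
    have h4 : ex i = ex i' := congrArg Prod.snd hii
    rcases hrd.2.1 i i.2 i' i'.2 h1 with h2 | h2
    · exact h2 h3
    · exact h2 h4
  have hF : CertBF I.k (fun i => l i) (fun i => c i) (fun i => ex i) (2 ^ pmh L)
      (2 ^ (1 + 2 * L * L + (pdl L + 3) * L)) (2 / ((2 ^ pq L : ℕ) : ℝ)) (1 / 2 ^ pdl L) PAE := by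
    by_contra hno
    apply h
    exact ae_complete (k := I.k) (fun i => l i) (fun i => c i) (fun i => ex i) (2 ^ pr L)
      (2 ^ pq L) (2 ^ pmh L) (2 ^ (pdl L + 3)) e (2 ^ (1 + 2 * L * L + (pdl L + 3) * L)) I.kpos
      (fun i => hrd.1 i i.2) hinj Nat.one_le_two_pow
      (le_trans (by
        have : 2 * I.k * 2 ^ pr L ≤ 8 * I.k * 2 ^ pr L := by
          gcongr
          norm_num
        exact this) (pQ_le hkL)) (pMH_le hkL) (1 / 2 ^ pdl L) (by positivity) (pd2 hkL) (pd4 hkL)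
      (pd3 hkL) (by positivity) (pd5 L) he0 (pNb_le hkL hele) (I.relBound' L hkL hb aR uR ha hrd)
      (fun i i' h1 h2 h3 => htor i i' h1 h2 h3)
      (fun n => ((v n : ℚ) : ℝ)) (I.all' aR uR ha hu v hv hrd) hno
  exact hF.toN (two_pow_lt_pbm L) (two_pow_lt_pbn L)

include hv in
private theorem ael_iff : I.AEPositive ↔ AEPos (fun n => ((v n : ℚ) : ℝ)) := by
  classical
  have h1 : ∀ X : ℕ, ((Finset.range X).filter fun n => v n ≤ 0) =
      (Finset.range X).filter fun n => ((v n : ℚ) : ℝ) ≤ 0 := by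
    intro X
    refine Finset.filter_congr fun n _ => ?_
    exact_mod_cast Iff.rfl
  have h2 : (Filter.Tendsto (fun X : ℕ => (((Finset.range X).filter fun n => v n ≤ 0).card : ℝ) / X)
      Filter.atTop (nhds 0)) ↔ AEPos (fun n => ((v n : ℚ) : ℝ)) := by
    unfold AEPos
    simp only [h1]
  rw [← h2]
  constructor
  · intro h
    exact h v hv
  · intro h w hw
    rw [I.exists_unique_seq.unique hw hv]
    exact h

end

theorem inForallR_AEPositive :
    InForallR {w : List ISym | ∃ I : Inst, w = I.enc ∧ I.AEPositive} := by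
  obtain ⟨kk, sg, nb, db, hkk, hsg, hnb, hdb, hI⟩ := exists_parser
  have h2 : RF (Γ := ISym) (fun _ _ _ => (2 : ℝ)) :=
    (RF.nat (UF.const 2)).congr fun _ _ _ => by norm_num
  have hε : RF (Γ := ISym) (fun x _ _ => (2 : ℝ) / ((2 ^ pq x.length : ℕ) : ℝ)) :=
    (h2.div (h2.pow (uf_pq UF.len))).congr fun x e α => by push_cast; rfl
  have hδ : RF (Γ := ISym) (fun x _ _ => (1 : ℝ) / 2 ^ pdl x.length) :=
    RF.one.div (h2.pow (uf_pdl UF.len))
  have hfa : ∀ (I : Inst) (t : ℕ) (ht : t < I.k), fieldR sg nb db 0 I.enc t = (I.a ⟨t, ht⟩ : ℝ) := by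
    intro I t ht
    obtain ⟨e1, e2, e3, e4, e5, e6, e7⟩ := hI I
    rw [Inst.a, fieldR]
    push_cast
    have h3 := congrArg (fun z : ℤ => (z : ℝ)) (e3 ⟨t, ht⟩)
    have h4 := congrArg (fun z : ℤ => (z : ℝ)) (e4 ⟨t, ht⟩)
    simp only at h3 h4
    push_cast at h3 h4
    rw [h3, h4]
  have hfu : ∀ (I : Inst) (t : ℕ) (ht : t < I.k), fieldR sg nb db 1 I.enc t = (I.u ⟨t, ht⟩ : ℝ) := by
    intro I t ht
    obtain ⟨e1, e2, e3, e4, e5, e6, e7⟩ := hI I
    rw [Inst.u, fieldR]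
    push_cast
    have h3 := congrArg (fun z : ℤ => (z : ℝ)) (e5 ⟨t, ht⟩)
    have h4 := congrArg (fun z : ℤ => (z : ℝ)) (e6 ⟨t, ht⟩)
    simp only at h3 h4
    push_cast at h3 h4
    rw [h3, h4]
  have hcert := re_certP (fun _ => PAE) (fun ht hρ hf hf' hd => ael_re_PAE ht hρ hf hf' hd) kk
    (fun x => pbm x.length) (fun x => pbn x.length)
    (fieldR sg nb db 0) (fieldR sg nb db 1) _ _ hkk (uf_pbm UF.len) (uf_pbn UF.len)
    (rf_fieldR 0 hsg hnb hdb) (rf_fieldR 1 hsg hnb hdb) hε hδ (fun _ _ => 0) RF.zero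
  refine RE.inForallR ((RE.up up_valid.not).or hcert) _ fun x => ?_
  constructor
  · rintro ⟨I, rfl, hpos⟩ ⟨α, h4 | h4⟩
    · exact h4 ⟨I, rfl⟩
    · obtain ⟨e1, e2, e3, e4, e5, e6, e7⟩ := hI I
      rw [e1] at h4
      obtain ⟨v, hv, -⟩ := I.exists_unique_seq
      exact ael_not_of_cert I I.enc.length e2 (fun i => ⟨(e7 i).1.le, (e7 i).2.1.le⟩) _ _
        (hfa I) (hfu I) v hv h4 ((ael_iff I v hv).1 hpos)
  · intro h
    have h1 : ∃ I : Inst, x = I.enc := by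
      by_contra hcon
      exact h ⟨fun _ => 0, Or.inl hcon⟩
    obtain ⟨I, rfl⟩ := h1
    obtain ⟨e1, e2, e3, e4, e5, e6, e7⟩ := hI I
    obtain ⟨v, hv, -⟩ := I.exists_unique_seq
    refine ⟨I, rfl, (ael_iff I v hv).2 ?_⟩
    by_contra hcon
    have h3 := ael_cert_of_not I I.enc.length e2 (fun i => ⟨(e7 i).1.le, (e7 i).2.1.le⟩) _ _
      (hfa I) (hfu I) v hv hcon
    rw [← e1] at h3
    exact h ⟨fun _ => 0, Or.inr h3⟩

end Pool.Agent.UltPos
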