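import Pool.Agent.AlmostPos.Liouville

/-! AP5. Bounds for the coefficients of a simple recurrence with integral roots. -/

set_option autoImplicit false

namespace Pool.Agent.AlmostPos

open Finset

/- PROOF SKETCH (uses AP4 = `liouville`, which may still be sorry). `V n i = l i ^ n` (`n, i : Fin k`),
`det V ≠ 0` (`Matrix.det_vandermonde_ne_zero_iff`), `V *ᵥ c = (v n)_n`, so Cramer:
`det V * c i = det V_i`, `V_i` = `V` with column `i` replaced by `(v n)` (`Matrix.cramer`,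
`Matrix.updateCol`). Everything is integral over `ℤ` and for every embedding `φ`:
`‖φ (det V)‖ ≤ k! R^(k k)`, `‖φ (det V_i)‖ ≤ k! R^(k k) U` (expand the determinant).
Upper bound: `‖ψ (c i)‖ = ‖ψ (det V_i)‖ / ‖ψ (det V)‖` and `1 ≤ ‖ψ (det V)‖ (k! R^(k k))^D`.
Lower bound: `x = det V * ∑_{i ∈ S} c i l i ^ a = ∑_{i ∈ S} l i ^ a * det V_i` is integral, nonzero,
with conjugates `≤ B := k * k! * R^(k k + a) * U`, so `1 ≤ ‖ψ x‖ B^D` and `‖ψ (det V)‖ ≤ B`. -/

private theorem coeff_det_bound {k : ℕ} (M : Matrix (Fin k) (Fin k) ℂ) (b : Fin k → ℝ)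
    (h : ∀ i j, ‖M i j‖ ≤ b j) : ‖M.det‖ ≤ k.factorial * ∏ j, b j := by
  rw [Matrix.det_apply']
  calc ‖∑ σ : Equiv.Perm (Fin k), ((Equiv.Perm.sign σ : ℤ) : ℂ) * ∏ i, M (σ i) i‖
      ≤ ∑ σ : Equiv.Perm (Fin k), ‖((Equiv.Perm.sign σ : ℤ) : ℂ) * ∏ i, M (σ i) i‖ :=
        norm_sum_le _ _
    _ ≤ ∑ _σ : Equiv.Perm (Fin k), ∏ j, b j := by
        refine Finset.sum_le_sum fun σ _ => ?_
        rw [norm_mul, norm_prod]
        have h1 : ‖((Equiv.Perm.sign σ : ℤ) : ℂ)‖ = 1 := by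
          rcases Int.units_eq_one_or (Equiv.Perm.sign σ) with h | h <;> rw [h] <;> simp
        rw [h1, one_mul]
        exact Finset.prod_le_prod (fun i _ => norm_nonneg _) fun i _ => h _ _
    _ = k.factorial * ∏ j, b j := by
        rw [Finset.sum_const, Finset.card_univ, Fintype.card_perm, Fintype.card_fin, nsmul_eq_mul]

section

variable {F : Type} [Field F]

/-- the matrix of the system -/
private def coeffV {k : ℕ} (l : Fin k → F) : Matrix (Fin k) (Fin k) F := fun n i => l i ^ (n : ℕ)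

private theorem coeffV_det_ne {k : ℕ} (l : Fin k → F) (hl : Function.Injective l) :
    (coeffV l).det ≠ 0 := by
  have h : coeffV l = (Matrix.vandermonde l).transpose := by
    ext i j; rfl
  rw [h, Matrix.det_transpose]
  exact Matrix.det_vandermonde_ne_zero_iff.mpr hl

private theorem coeffV_cramer {k : ℕ} (l : Fin k → F) (v : ℕ → ℤ) (c : Fin k → F)
    (hv : ∀ n < k, (v n : F) = ∑ i, c i * l i ^ n) (i : Fin k) :
    (coeffV l).det * c i = ((coeffV l).updateCol i fun n => (v n : F)).det := by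
  have h1 : (coeffV l).mulVec c = fun n : Fin k => (v n : F) := by
    funext n
    rw [hv n n.2]
    simp only [Matrix.mulVec, dotProduct, coeffV]
    exact Finset.sum_congr rfl fun i _ => mul_comm _ _
  rw [← Matrix.cramer_apply, ← h1, Matrix.cramer_eq_adjugate_mulVec, Matrix.mulVec_mulVec,
    Matrix.adjugate_mul, Matrix.smul_mulVec, Matrix.one_mulVec]
  simp

private theorem coeffV_int {k : ℕ} (l : Fin k → F) (hint : ∀ i, IsIntegral ℤ (l i)) :
    IsIntegral ℤ (coeffV l).det :=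
  IsIntegral.det fun n i => (hint i).pow _

private theorem coeffV_int' {k : ℕ} (l : Fin k → F) (hint : ∀ i, IsIntegral ℤ (l i))
    (v : ℕ → ℤ) (i : Fin k) :
    IsIntegral ℤ ((coeffV l).updateCol i fun n => (v n : F)).det := by
  refine IsIntegral.det fun n j => ?_
  by_cases hj : j = i
  · subst hj
    rw [Matrix.updateCol_self]
    exact isIntegral_algebraMap (R := ℤ) (x := v n)
  · rw [Matrix.updateCol_ne hj]
    exact (hint j).pow _

private theorem coeffV_norm {k : ℕ} (l : Fin k → F) (R : ℝ) (hR : 1 ≤ R) (φ : F →+* ℂ)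
    (hRl : ∀ i, ‖φ (l i)‖ ≤ R) : ‖φ (coeffV l).det‖ ≤ k.factorial * R ^ (k * k) := by
  rw [RingHom.map_det]
  refine (coeff_det_bound _ (fun _ => R ^ k) fun n i => ?_).trans ?_
  · simp only [RingHom.mapMatrix_apply, Matrix.map_apply, coeffV, map_pow, norm_pow]
    exact (pow_le_pow_left₀ (norm_nonneg _) (hRl i) _).trans (pow_le_pow_right₀ hR n.2.le)
  · rw [Finset.prod_const, Finset.card_univ, Fintype.card_fin, ← pow_mul]

private theorem coeffV_norm' {k : ℕ} (l : Fin k → F) (R : ℝ) (hR : 1 ≤ R) (φ : F →+* ℂ)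
    (hRl : ∀ i, ‖φ (l i)‖ ≤ R) (v : ℕ → ℤ) (U : ℝ) (hU1 : 1 ≤ U)
    (hU : ∀ n < k, |(v n : ℝ)| ≤ U) (i : Fin k) :
    ‖φ ((coeffV l).updateCol i fun n => (v n : F)).det‖ ≤ k.factorial * R ^ (k * k) * U := by
  rw [RingHom.map_det]
  have hRk : 1 ≤ R ^ k := one_le_pow₀ hR
  refine (coeff_det_bound _ (Function.update (fun _ => R ^ k) i U) fun n j => ?_).trans ?_
  · simp only [RingHom.mapMatrix_apply, Matrix.map_apply]
    by_cases hj : j = i
    · subst hj
      rw [Matrix.updateCol_self, Function.update_self, map_intCast]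
      rw [Complex.norm_intCast]
      exact hU n n.2
    · rw [Matrix.updateCol_ne hj, Function.update_of_ne hj]
      simp only [coeffV, map_pow, norm_pow]
      exact (pow_le_pow_left₀ (norm_nonneg _) (hRl j) _).trans (pow_le_pow_right₀ hR n.2.le)
  · rw [mul_assoc]
    refine mul_le_mul_of_nonneg_left ?_ (Nat.cast_nonneg _)
    rw [Finset.prod_update_of_mem (Finset.mem_univ i), Finset.prod_const, mul_comm]
    refine mul_le_mul_of_nonneg_right ?_ (by linarith)
    rw [← pow_mul]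
    refine pow_le_pow_right₀ hR (Nat.mul_le_mul_left k ?_)
    refine (Finset.card_le_univ _).trans ?_
    rw [Fintype.card_fin]

end

theorem coeff_upper {F : Type} [Field F] [NumberField F] (ψ : F →+* ℂ) (k : ℕ) (l : Fin k → F)
    (hl : Function.Injective l) (hint : ∀ i, IsIntegral ℤ (l i)) (R : ℝ) (hR : 1 ≤ R)
    (hRl : ∀ (φ : F →+* ℂ) i, ‖φ (l i)‖ ≤ R) (D : ℕ) (hD : Module.finrank ℚ F ≤ D)
    (v : ℕ → ℤ) (U : ℝ) (hU1 : 1 ≤ U) (hU : ∀ n < k, |(v n : ℝ)| ≤ U) (c : Fin k → F)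
    (hv : ∀ n < k, (v n : F) = ∑ i, c i * l i ^ n) (i : Fin k) :
    ‖ψ (c i)‖ ≤ (k.factorial * R ^ (k * k) * U) ^ (D + 1) := by
  have hfac : (1 : ℝ) ≤ k.factorial := by exact_mod_cast Nat.factorial_pos k
  have hRk : 1 ≤ R ^ (k * k) := one_le_pow₀ hR
  have hB : (1 : ℝ) ≤ k.factorial * R ^ (k * k) := one_le_mul_of_one_le_of_one_le hfac hRk
  have h1 := liouville ψ (coeffV l).det (coeffV_int l hint) (coeffV_det_ne l hl) _ hB
    (fun φ => coeffV_norm l R hR φ (hRl φ)) D hD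
  have h2 := coeffV_norm' l R hR ψ (hRl ψ) v U hU1 hU i
  rw [← coeffV_cramer l v c hv i, map_mul, norm_mul] at h2
  have hBU : (k.factorial * R ^ (k * k) : ℝ) ≤ k.factorial * R ^ (k * k) * U :=
    le_mul_of_one_le_right (by linarith) hU1
  calc ‖ψ (c i)‖ = ‖ψ (c i)‖ * 1 := (mul_one _).symm
    _ ≤ ‖ψ (c i)‖ * (‖ψ (coeffV l).det‖ * (k.factorial * R ^ (k * k)) ^ D) :=
        mul_le_mul_of_nonneg_left h1 (norm_nonneg _)
    _ = (‖ψ (coeffV l).det‖ * ‖ψ (c i)‖) * (k.factorial * R ^ (k * k)) ^ D := by ring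
    _ ≤ (k.factorial * R ^ (k * k) * U) * (k.factorial * R ^ (k * k) * U) ^ D := by
        refine mul_le_mul h2 (pow_le_pow_left₀ (by linarith) hBU D) (by positivity) (by linarith)
    _ = (k.factorial * R ^ (k * k) * U) ^ (D + 1) := by rw [pow_succ]; ring

theorem coeff_lower {F : Type} [Field F] [NumberField F] (ψ : F →+* ℂ) (k : ℕ) (l : Fin k → F)
    (hl : Function.Injective l) (hint : ∀ i, IsIntegral ℤ (l i)) (R : ℝ) (hR : 1 ≤ R)
    (hRl : ∀ (φ : F →+* ℂ) i, ‖φ (l i)‖ ≤ R) (D : ℕ) (hD : Module.finrank ℚ F ≤ D)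
    (v : ℕ → ℤ) (U : ℝ) (hU1 : 1 ≤ U) (hU : ∀ n < k, |(v n : ℝ)| ≤ U) (c : Fin k → F)
    (hv : ∀ n < k, (v n : F) = ∑ i, c i * l i ^ n) (S : Finset (Fin k)) (a : ℕ)
    (h0 : ∑ i ∈ S, c i * l i ^ a ≠ 0) :
    1 ≤ ‖ψ (∑ i ∈ S, c i * l i ^ a)‖ *
      (k * k.factorial * R ^ (k * k + a) * U) ^ (D + 1) := by
  have hS : S.Nonempty := by
    rw [Finset.nonempty_iff_ne_empty]
    intro h
    rw [h] at h0
    simp at h0
  obtain ⟨i0, _⟩ := hS
  have hk0 : 0 < k := lt_of_le_of_lt (Nat.zero_le _) i0.2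
  have hk : (1 : ℝ) ≤ k := by exact_mod_cast hk0
  have hfac : (1 : ℝ) ≤ k.factorial := by exact_mod_cast Nat.factorial_pos k
  have hRk : 1 ≤ R ^ (k * k) := one_le_pow₀ hR
  have hRa : 1 ≤ R ^ a := one_le_pow₀ hR
  have hB0 : (1 : ℝ) ≤ k.factorial * R ^ (k * k) := one_le_mul_of_one_le_of_one_le hfac hRk
  set B : ℝ := k * k.factorial * R ^ (k * k + a) * U with hBdef
  have hBe : B = k * (R ^ a * (k.factorial * R ^ (k * k) * U)) := by
    rw [hBdef, pow_add]; ring
  have hVB : (k.factorial * R ^ (k * k) : ℝ) ≤ B := by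
    rw [hBe]
    calc (k.factorial * R ^ (k * k) : ℝ) ≤ k.factorial * R ^ (k * k) * U :=
          le_mul_of_one_le_right (by linarith) hU1
      _ ≤ R ^ a * (k.factorial * R ^ (k * k) * U) := le_mul_of_one_le_left (by positivity) hRa
      _ ≤ k * (R ^ a * (k.factorial * R ^ (k * k) * U)) :=
          le_mul_of_one_le_left (by positivity) hk
  have hB1 : 1 ≤ B := hB0.trans hVB
  have hx : (coeffV l).det * ∑ i ∈ S, c i * l i ^ a =
      ∑ i ∈ S, ((coeffV l).updateCol i fun n => (v n : F)).det * l i ^ a := by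
    rw [Finset.mul_sum]
    refine Finset.sum_congr rfl fun i _ => ?_
    rw [← mul_assoc, coeffV_cramer l v c hv i]
  have hx0 : (coeffV l).det * ∑ i ∈ S, c i * l i ^ a ≠ 0 :=
    mul_ne_zero (coeffV_det_ne l hl) h0
  have hxi : IsIntegral ℤ ((coeffV l).det * ∑ i ∈ S, c i * l i ^ a) := by
    rw [hx]
    exact IsIntegral.sum _ fun i _ => (coeffV_int' l hint v i).mul ((hint i).pow _)
  have hxB : ∀ φ : F →+* ℂ, ‖φ ((coeffV l).det * ∑ i ∈ S, c i * l i ^ a)‖ ≤ B := by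
    intro φ
    rw [hx, map_sum]
    refine (norm_sum_le _ _).trans ?_
    have h1 : ∀ i ∈ S, ‖φ (((coeffV l).updateCol i fun n => (v n : F)).det * l i ^ a)‖ ≤
        R ^ a * (k.factorial * R ^ (k * k) * U) := by
      intro i _
      rw [map_mul, norm_mul, map_pow, norm_pow, mul_comm]
      refine mul_le_mul (pow_le_pow_left₀ (norm_nonneg _) (hRl φ i) _)
        (coeffV_norm' l R hR φ (hRl φ) v U hU1 hU i) (norm_nonneg _) (by positivity)
    refine (Finset.sum_le_sum h1).trans ?_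
    rw [Finset.sum_const, nsmul_eq_mul, hBe]
    refine mul_le_mul_of_nonneg_right ?_ (by positivity)
    have := Finset.card_le_univ S
    rw [Fintype.card_fin] at this
    exact_mod_cast this
  have h1 := liouville ψ _ hxi hx0 B hB1 hxB D hD
  rw [map_mul, norm_mul] at h1
  have h2 := (coeffV_norm l R hR ψ (hRl ψ)).trans hVB
  calc (1 : ℝ) ≤ ‖ψ (coeffV l).det‖ * ‖ψ (∑ i ∈ S, c i * l i ^ a)‖ * B ^ D := h1
    _ ≤ B * ‖ψ (∑ i ∈ S, c i * l i ^ a)‖ * B ^ D := by
        refine mul_le_mul_of_nonneg_right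
          (mul_le_mul_of_nonneg_right h2 (norm_nonneg _)) (by positivity)
    _ = ‖ψ (∑ i ∈ S, c i * l i ^ a)‖ * B ^ (D + 1) := by rw [pow_succ]; ring

end Pool.Agent.AlmostPos
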