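import Pool.Agent.AlmostPos.Liouville

/-! AP7. Cramer's rule and Liouville's inequality for nearly vanishing terms. -/

set_option autoImplicit false

namespace Pool.Agent.AlmostPos

open Finset

/- PROOF SKETCH (uses AP4 = `liouville`, which may still be sorry). `K = card ι`,
`A i j = ψ (x j) ^ m i`, `δ i = ∑ j, C j * A i j`. Cramer: `det A * C j = det (A with column j
replaced by δ)`; every product in the expansion has absolute value `≤ ε ρ^(∑ m i)` (exactly one factor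
is a `δ`, `‖δ i‖ ≤ ε ρ ^ m i`, all others `ρ ^ m i`), so `‖det A‖ ‖C j‖ ≤ K! ε ρ^(∑ m i)`. On the
other side `det A = (∏ j, ψ (x j) ^ m0) * ψ y`, `y = det (x j ^ (m i - m0))` integral, nonzero, with
conjugates `≤ K! R^(K h)`, so `1 ≤ ‖ψ y‖ (K! R^(K h))^D` and
`‖C j‖ ≤ ε K! ρ^(∑ (m i - m0)) (K! R^(K h))^D`, and `ρ ≤ R`, `1 ≤ R` give
`ρ^(∑ (m i - m0)) ≤ R^(K h)`. (`0 ≤ ε` follows from `hε`, since `ι` is nonempty.) -/

private theorem cramer_det_bound {ι : Type} [Fintype ι] [DecidableEq ι] (M : Matrix ι ι ℂ)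
    (T : ℝ) (h : ∀ σ : Equiv.Perm ι, ∏ i, ‖M (σ i) i‖ ≤ T) :
    ‖M.det‖ ≤ (Fintype.card ι).factorial * T := by
  rw [Matrix.det_apply']
  calc ‖∑ σ : Equiv.Perm ι, ((Equiv.Perm.sign σ : ℤ) : ℂ) * ∏ i, M (σ i) i‖
      ≤ ∑ σ : Equiv.Perm ι, ‖((Equiv.Perm.sign σ : ℤ) : ℂ) * ∏ i, M (σ i) i‖ :=
        norm_sum_le _ _
    _ ≤ ∑ _σ : Equiv.Perm ι, T := by
        refine Finset.sum_le_sum fun σ _ => ?_
        rw [norm_mul, norm_prod]
        have h1 : ‖((Equiv.Perm.sign σ : ℤ) : ℂ)‖ = 1 := by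
          rcases Int.units_eq_one_or (Equiv.Perm.sign σ) with h | h <;> rw [h] <;> simp
        rw [h1, one_mul]
        exact h σ
    _ = (Fintype.card ι).factorial * T := by
        rw [Finset.sum_const, Finset.card_univ, Fintype.card_perm, nsmul_eq_mul]

theorem cramer_bound {F : Type} [Field F] [NumberField F] (ψ : F →+* ℂ) {ι : Type} [Fintype ι]
    [DecidableEq ι] (x : ι → F) (hint : ∀ i, IsIntegral ℤ (x i)) (ρ : ℝ) (hρ : 0 < ρ)
    (hx : ∀ i, ‖ψ (x i)‖ = ρ) (R : ℝ) (hR : 1 ≤ R) (hRx : ∀ (φ : F →+* ℂ) i, ‖φ (x i)‖ ≤ R)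
    (D : ℕ) (hD : Module.finrank ℚ F ≤ D) (m : ι → ℕ) (m0 h : ℕ)
    (hm : ∀ i, m0 ≤ m i ∧ m i ≤ m0 + h) (hdet : (Matrix.of fun i j => x j ^ m i).det ≠ 0)
    (C : ι → ℂ) (ε : ℝ) (hε : ∀ i, ‖∑ j, C j * ψ (x j) ^ m i‖ ≤ ε * ρ ^ m i) (j : ι) :
    ‖C j‖ ≤ ε * ((Fintype.card ι).factorial * R ^ (Fintype.card ι * h)) ^ (D + 1) := by
  set K := Fintype.card ι with hK
  set B : ℝ := K.factorial * R ^ (K * h) with hB
  have hε0 : 0 ≤ ε := by
    have h1 := (norm_nonneg _).trans (hε j)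
    have h2 : 0 < ρ ^ m j := pow_pos hρ _
    by_contra hneg
    push Not at hneg
    have := mul_neg_of_neg_of_pos hneg h2
    linarith
  have hfac : (1 : ℝ) ≤ K.factorial := by exact_mod_cast Nat.factorial_pos K
  have hB1 : 1 ≤ B := one_le_mul_of_one_le_of_one_le hfac (one_le_pow₀ hR)
  -- the matrices
  set A : Matrix ι ι ℂ := Matrix.of fun i j => ψ (x j) ^ m i with hA
  set Y : Matrix ι ι F := Matrix.of fun i j => x j ^ (m i - m0) with hY
  have hAdet : A.det = ψ (Matrix.of fun i j => x j ^ m i).det := by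
    rw [RingHom.map_det]
    congr 1
    ext i j
    simp [hA]
  have hXY : (Matrix.of fun i j => x j ^ m i).det = (∏ i, x i ^ m0) * Y.det := by
    rw [← Matrix.det_mul_row]
    congr 1
    ext i j
    simp only [Matrix.of_apply, hY]
    rw [← pow_add, Nat.add_sub_cancel' (hm i).1]
  have hY0 : Y.det ≠ 0 := by
    intro h0
    rw [hXY, h0, mul_zero] at hdet
    exact hdet rfl
  have hYi : IsIntegral ℤ Y.det := IsIntegral.det fun i j => (hint j).pow _
  have hYB : ∀ φ : F →+* ℂ, ‖φ Y.det‖ ≤ B := by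
    intro φ
    rw [RingHom.map_det]
    refine cramer_det_bound _ _ fun σ => ?_
    calc ∏ i, ‖(φ.mapMatrix Y) (σ i) i‖ ≤ ∏ _i : ι, R ^ h := by
          refine Finset.prod_le_prod (fun i _ => norm_nonneg _) fun i _ => ?_
          simp only [RingHom.mapMatrix_apply, Matrix.map_apply, hY, Matrix.of_apply, map_pow,
            norm_pow]
          refine (pow_le_pow_left₀ (norm_nonneg _) (hRx φ i) _).trans
            (pow_le_pow_right₀ hR ?_)
          have := (hm (σ i)).2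
          omega
      _ = R ^ (K * h) := by
          rw [Finset.prod_const, Finset.card_univ, ← pow_mul, mul_comm]
  have hl := liouville ψ Y.det hYi hY0 B hB1 hYB D hD
  -- Cramer
  have hcr : A.det * C j = (A.updateCol j fun i => ∑ j, C j * ψ (x j) ^ m i).det := by
    have h1 : A.mulVec C = fun i => ∑ j, C j * ψ (x j) ^ m i := by
      funext i
      simp only [Matrix.mulVec, dotProduct, hA, Matrix.of_apply]
      exact Finset.sum_congr rfl fun j _ => mul_comm _ _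
    rw [← Matrix.cramer_apply, ← h1, Matrix.cramer_eq_adjugate_mulVec, Matrix.mulVec_mulVec,
      Matrix.adjugate_mul, Matrix.smul_mulVec, Matrix.one_mulVec]
    simp
  have hup : ‖(A.updateCol j fun i => ∑ j, C j * ψ (x j) ^ m i).det‖ ≤
      K.factorial * (ε * ρ ^ (∑ i, m i)) := by
    refine cramer_det_bound _ _ fun σ => ?_
    have hsum : ∏ i, ρ ^ m (σ i) = ρ ^ (∑ i, m i) := by
      rw [Finset.prod_pow_eq_pow_sum, Equiv.sum_comp σ m]
    rw [← hsum, ← Finset.mul_prod_erase _ _ (Finset.mem_univ j),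
      ← Finset.mul_prod_erase Finset.univ (fun i => ρ ^ m (σ i)) (Finset.mem_univ j), ← mul_assoc]
    refine mul_le_mul ?_ ?_ (Finset.prod_nonneg fun i _ => norm_nonneg _)
      (by positivity)
    · rw [Matrix.updateCol_self]
      exact hε _
    · refine Finset.prod_le_prod (fun i _ => norm_nonneg _) fun i hi => ?_
      rw [Matrix.updateCol_ne (Finset.ne_of_mem_erase hi)]
      simp only [hA, Matrix.of_apply, norm_pow, hx]
      exact le_rfl
  have hsum : ∑ i, m i = K * m0 + ∑ i, (m i - m0) := by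
    have : ∀ i, m i = m0 + (m i - m0) := fun i => (Nat.add_sub_cancel' (hm i).1).symm
    calc ∑ i, m i = ∑ i, (m0 + (m i - m0)) := Finset.sum_congr rfl fun i _ => this i
      _ = K * m0 + ∑ i, (m i - m0) := by
        rw [Finset.sum_add_distrib, Finset.sum_const, Finset.card_univ, smul_eq_mul]
  have hAn : ‖A.det‖ = ρ ^ (K * m0) * ‖ψ Y.det‖ := by
    rw [hAdet, hXY, map_mul, norm_mul, map_prod, norm_prod]
    congr 1
    simp only [map_pow, norm_pow, hx]
    rw [Finset.prod_const, Finset.card_univ, ← pow_mul, mul_comm]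
  rw [← hcr, norm_mul, hAn, hsum, pow_add] at hup
  have hρm : 0 < ρ ^ (K * m0) := pow_pos hρ _
  have h3 : ‖ψ Y.det‖ * ‖C j‖ ≤ K.factorial * (ε * ρ ^ (∑ i, (m i - m0))) := by
    refine le_of_mul_le_mul_left ?_ hρm
    calc ρ ^ (K * m0) * (‖ψ Y.det‖ * ‖C j‖) = ρ ^ (K * m0) * ‖ψ Y.det‖ * ‖C j‖ := by ring
      _ ≤ K.factorial * (ε * (ρ ^ (K * m0) * ρ ^ (∑ i, (m i - m0)))) := hup
      _ = ρ ^ (K * m0) * (K.factorial * (ε * ρ ^ (∑ i, (m i - m0)))) := by ring
  have hρR : ρ ≤ R := by rw [← hx j]; exact hRx ψ j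
  have h4 : ρ ^ (∑ i, (m i - m0)) ≤ R ^ (K * h) := by
    refine (pow_le_pow_left₀ hρ.le hρR _).trans (pow_le_pow_right₀ hR ?_)
    calc ∑ i, (m i - m0) ≤ ∑ _i : ι, h := by
          refine Finset.sum_le_sum fun i _ => ?_
          have := (hm i).2
          omega
      _ = K * h := by rw [Finset.sum_const, Finset.card_univ, smul_eq_mul]
  have h5 : ‖ψ Y.det‖ * ‖C j‖ ≤ ε * B := by
    refine h3.trans ?_
    rw [hB]
    calc (K.factorial : ℝ) * (ε * ρ ^ (∑ i, (m i - m0)))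
        = ε * (K.factorial * ρ ^ (∑ i, (m i - m0))) := by ring
      _ ≤ ε * (K.factorial * R ^ (K * h)) :=
        mul_le_mul_of_nonneg_left (mul_le_mul_of_nonneg_left h4 (Nat.cast_nonneg _)) hε0
  calc ‖C j‖ = 1 * ‖C j‖ := (one_mul _).symm
    _ ≤ (‖ψ Y.det‖ * B ^ D) * ‖C j‖ := mul_le_mul_of_nonneg_right hl (norm_nonneg _)
    _ = (‖ψ Y.det‖ * ‖C j‖) * B ^ D := by ring
    _ ≤ (ε * B) * B ^ D := mul_le_mul_of_nonneg_right h5 (by positivity)
    _ = ε * B ^ (D + 1) := by rw [pow_succ]; ring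

end Pool.Agent.AlmostPos
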