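import Pool.Agent.UltPos.Positive

/-! The languages of simple recurrences without small violations, the set of large violations,
and almost everywhere positivity. -/

set_option autoImplicit false

namespace Pool.Agent.UltPos

open Filter Topology

/-- The instance is simple, ultimately positive, and its terms are positive up to the index
`2 ^ ((n + 2) ^ c)`, where `n` is the length of its code. -/
def Inst.VC (c : ℕ) (I : Inst) : Prop := I.Simple ∧ I.UltimatelyPositive ∧
  ∀ v : ℕ → ℚ, I.IsSeq v → ∀ n, n < 2 ^ ((I.enc.length + 2) ^ c) → 0 < v n

/-- The indices of all nonpositive terms of all instances with the property `VC c`. -/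
def largeViolations (c : ℕ) : Set ℕ :=
  {n | ∃ I : Inst, I.VC c ∧ ∃ v : ℕ → ℚ, I.IsSeq v ∧ v n ≤ 0}

/-- The terms with positive value have density one: the set of indices of nonpositive terms has
density zero. -/
def Inst.AEPositive (I : Inst) : Prop := ∀ v : ℕ → ℚ, I.IsSeq v →
  Tendsto (fun X : ℕ => (((Finset.range X).filter fun n => v n ≤ 0).card : ℝ) / X) atTop (𝓝 0)

end Pool.Agent.UltPos
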