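import Pool.Agent.AlmostPos.Modulus
import Pool.Agent.AlmostPos.Coeff
import Pool.Agent.AlmostPos.TopPos
import Pool.Agent.AlmostPos.Cramer

/-! Few violations, abstract form. -/

set_option autoImplicit false

namespace Pool.Agent.AlmostPos

open Finset Filter Topology Polynomial

/-- A set of integers without `K` points in a short interval is small. -/
theorem card_le_of_windows (A : Finset ℕ) (y h K : ℕ) (hA : ∀ n ∈ A, n < y)
    (hw : ∀ B ⊆ A, B.card = K → ∀ m0, ∃ n ∈ B, ¬ (m0 ≤ n ∧ n ≤ m0 + h)) :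
    A.card ≤ K * (y / (h + 1) + 1) := by
  classical
  have h1 : ∀ q ∈ Finset.range (y / (h + 1) + 1), (A.filter fun n => n / (h + 1) = q).card ≤ K := by
    intro q _
    by_contra hcon
    push Not at hcon
    obtain ⟨B, hB, hBc⟩ := Finset.exists_subset_card_eq hcon.le
    obtain ⟨n, hn, hn2⟩ := hw B (hB.trans (Finset.filter_subset _ _)) hBc (q * (h + 1))
    apply hn2
    have h2 := (Finset.mem_filter.mp (hB hn)).2
    have h3 := Nat.div_add_mod n (h + 1)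
    have h4 := Nat.mod_lt n (show 0 < h + 1 by omega)
    rw [h2, mul_comm] at h3
    generalize q * (h + 1) = z at h3 ⊢
    generalize n % (h + 1) = r at h3 h4
    omega
  have h2 : A.card = ∑ q ∈ Finset.range (y / (h + 1) + 1), (A.filter fun n => n / (h + 1) = q).card := by
    apply Finset.card_eq_sum_card_fiberwise
    intro n hn
    have := hA n hn
    simp only [Finset.coe_range, Set.mem_Iio]
    exact Nat.lt_succ_of_le (Nat.div_le_div_right this.le)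
  rw [h2]
  calc _ ≤ ∑ _q ∈ Finset.range (y / (h + 1) + 1), K := Finset.sum_le_sum h1
    _ = K * (y / (h + 1) + 1) := by rw [Finset.sum_const, Finset.card_range, smul_eq_mul, mul_comm]

/-- `(1 - 1/t)^t ≤ 1/2` -/
lemma one_sub_pow_le (t : ℕ) (ht : 0 < t) (r n : ℕ) (hn : t * r ≤ n) :
    (1 - 1 / (t : ℝ)) ^ n ≤ (1 / 2) ^ r := by
  have ht' : (1 : ℝ) ≤ t := by exact_mod_cast ht
  have h0 : 0 ≤ 1 - 1 / (t : ℝ) := by
    rw [sub_nonneg, div_le_one (by linarith)]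
    exact ht'
  have h1 : 1 - 1 / (t : ℝ) ≤ 1 := by
    have : 0 ≤ 1 / (t : ℝ) := by positivity
    linarith
  have h2 : (1 - 1 / (t : ℝ)) ^ t ≤ 1 / 2 := by
    have h3 : 1 - 1 / (t : ℝ) ≤ Real.exp (-(1 / (t : ℝ))) := by
      have := Real.add_one_le_exp (-(1 / (t : ℝ)))
      linarith
    calc (1 - 1 / (t : ℝ)) ^ t ≤ Real.exp (-(1 / (t : ℝ))) ^ t := pow_le_pow_left₀ h0 h3 t
      _ = Real.exp (-1) := by
          rw [← Real.exp_nat_mul]
          congr 1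
          field_simp
      _ ≤ 1 / 2 := by
          rw [Real.exp_neg, inv_eq_one_div]
          apply one_div_le_one_div_of_le (by norm_num)
          have := Real.add_one_le_exp (1 : ℝ)
          linarith
  calc (1 - 1 / (t : ℝ)) ^ n ≤ (1 - 1 / (t : ℝ)) ^ (t * r) := pow_le_pow_of_le_one h0 h1 hn
    _ = ((1 - 1 / (t : ℝ)) ^ t) ^ r := by rw [pow_mul]
    _ ≤ _ := pow_le_pow_left₀ (by positivity) h2 r

/-- The numerical threshold. -/
lemma arith (Q N h X : ℕ) (hQ : 1 ≤ Q) (hN : N ≤ 2 ^ (2 * Q ^ 2 + 6 * Q))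
    (hh : N * h * 2 ^ (4 * Q + 5) ≤ X) (hX : 2 ^ (20 * (Q + 2) ^ 2) ≤ X) :
    N + 2 ^ Q * ((1 + Q + (Q ^ 2 + Q ^ 3 + Q) * (2 ^ Q + 1) + Q * N) +
      (Q ^ 2 + Q ^ 2 * (N * h)) * (2 ^ Q + 1) + (Q + (Q ^ 2 + Q ^ 3 + Q) + Q * N) * (2 ^ Q + 1) + 1)
      ≤ X := by
  set n' := 2 ^ (2 * Q ^ 2 + 6 * Q) with hn'
  set t := 2 ^ Q with ht
  have hQt : Q ≤ t := Nat.lt_two_pow_self.le
  have ht1 : 1 ≤ t := Nat.one_le_two_pow
  have hn1 : 1 ≤ n' := Nat.one_le_two_pow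
  have hA : Q ^ 2 + Q ^ 3 + Q ≤ 3 * t ^ 3 := by
    have h1 : Q ^ 2 ≤ t ^ 3 := (Nat.pow_le_pow_left hQt 2).trans (Nat.pow_le_pow_right ht1 (by norm_num))
    have h2 : Q ^ 3 ≤ t ^ 3 := Nat.pow_le_pow_left hQt 3
    have h3 : Q ≤ t ^ 3 := hQt.trans (le_self_pow₀ ht1 (by norm_num))
    omega
  have hXe : 64 * t ^ 5 * n' ≤ X := by
    refine le_trans ?_ hX
    rw [hn', ht, ← pow_mul, show (64 : ℕ) = 2 ^ 6 by norm_num, ← pow_add, ← pow_add]
    apply Nat.pow_le_pow_right (by norm_num)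
    nlinarith
  have hNh : 16 * (2 * t ^ 4 * (N * h)) ≤ X := by
    refine le_trans (le_of_eq ?_) hh
    rw [ht, ← pow_mul, show 4 * Q + 5 = Q * 4 + 5 by ring, pow_add]
    ring
  have hmain : N + t * ((1 + Q + (Q ^ 2 + Q ^ 3 + Q) * (t + 1) + Q * N) +
      (Q ^ 2 + Q ^ 2 * (N * h)) * (t + 1) + (Q + (Q ^ 2 + Q ^ 3 + Q) + Q * N) * (t + 1) + 1) ≤
      n' + t * ((1 + t + (3 * t ^ 3) * (t + t) + t * n') +
      (t ^ 2 + t ^ 2 * (N * h)) * (t + t) + (t + 3 * t ^ 3 + t * n') * (t + t) + 1) := by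
    gcongr
  refine hmain.trans ?_
  have e1 : t ≤ t ^ 5 * n' := by
    calc t = t * 1 := by ring
      _ ≤ t ^ 5 * n' := Nat.mul_le_mul (le_self_pow₀ ht1 (by norm_num)) hn1
  have e2 : t ^ 2 ≤ t ^ 5 * n' := by
    calc t ^ 2 = t ^ 2 * 1 := by ring
      _ ≤ t ^ 5 * n' := Nat.mul_le_mul (Nat.pow_le_pow_right ht1 (by norm_num)) hn1
  have e3 : t ^ 3 ≤ t ^ 5 * n' := by
    calc t ^ 3 = t ^ 3 * 1 := by ring
      _ ≤ t ^ 5 * n' := Nat.mul_le_mul (Nat.pow_le_pow_right ht1 (by norm_num)) hn1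
  have e4 : t ^ 4 ≤ t ^ 5 * n' := by
    calc t ^ 4 = t ^ 4 * 1 := by ring
      _ ≤ t ^ 5 * n' := Nat.mul_le_mul (Nat.pow_le_pow_right ht1 (by norm_num)) hn1
  have e5 : t ^ 5 ≤ t ^ 5 * n' := Nat.le_mul_of_pos_right _ hn1
  have e6 : n' ≤ t ^ 5 * n' := Nat.le_mul_of_pos_left _ (by positivity)
  have e7 : t ^ 2 * n' ≤ t ^ 5 * n' := Nat.mul_le_mul_right _ (Nat.pow_le_pow_right ht1 (by norm_num))
  have e8 : t ^ 3 * n' ≤ t ^ 5 * n' := Nat.mul_le_mul_right _ (Nat.pow_le_pow_right ht1 (by norm_num))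
  have e9 : n' + t * ((1 + t + (3 * t ^ 3) * (t + t) + t * n') +
      (t ^ 2 + t ^ 2 * (N * h)) * (t + t) + (t + 3 * t ^ 3 + t * n') * (t + t) + 1) =
      n' + 2 * t + t ^ 2 + 6 * t ^ 5 + t ^ 2 * n' + 2 * t ^ 4 + 2 * t ^ 4 * (N * h) +
        2 * t ^ 3 + 6 * t ^ 5 + 2 * (t ^ 3 * n') := by ring
  rw [e9]
  have hX2 : 64 * (t ^ 5 * n') ≤ X := by rw [← mul_assoc]; exact hXe
  omega

/-- the numerical contradiction -/
lemma arith' (Q k K N h a X : ℕ) (hQ : 1 ≤ Q) (hkQ : k ≤ Q) (hK : K ≤ k)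
    (hN : N ≤ 2 ^ (2 * Q ^ 2 + 6 * Q)) (ha : a < N)
    (hh : N * h * 2 ^ (4 * Q + 5) ≤ X) (hX : 2 ^ (20 * (Q + 2) ^ 2) ≤ X) :
    2 * (k * (k.factorial * (2 ^ Q : ℝ) ^ (k * k) * 2 ^ Q) ^ (2 ^ Q + 1) * (2 ^ Q) ^ a) *
        (1 - 1 / ((2 ^ Q : ℕ) : ℝ)) ^ (X - N) *
        (K.factorial * ((2 ^ Q : ℝ) ^ N) ^ (K * h)) ^ (2 ^ Q + 1) *
        (k * k.factorial * (2 ^ Q : ℝ) ^ (k * k + a) * 2 ^ Q) ^ (2 ^ Q + 1) < 1 := by
  have hfac : ∀ j : ℕ, j ≤ k → (j.factorial : ℝ) ≤ 2 ^ (Q ^ 2) := by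
    intro j hj
    have h1 : j.factorial ≤ j ^ j := Nat.factorial_le_pow j
    have h2 : j ^ j ≤ (2 ^ Q) ^ Q := by
      calc j ^ j ≤ (2 ^ Q) ^ j := Nat.pow_le_pow_left ((hj.trans hkQ).trans Nat.lt_two_pow_self.le) j
        _ ≤ (2 ^ Q) ^ Q := Nat.pow_le_pow_right (by positivity) (hj.trans hkQ)
    have h3 : j.factorial ≤ 2 ^ (Q ^ 2) := by
      refine (h1.trans h2).trans (le_of_eq ?_)
      rw [← pow_mul, sq]
    exact_mod_cast h3
  have hkr : (k : ℝ) ≤ 2 ^ Q := by exact_mod_cast hkQ.trans Nat.lt_two_pow_self.le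
  have hkk : k * k ≤ Q ^ 2 := by nlinarith
  have e0 : (k.factorial * (2 ^ Q : ℝ) ^ (k * k) * 2 ^ Q) ≤ 2 ^ (Q ^ 2 + Q ^ 3 + Q) := by
    calc (k.factorial * (2 ^ Q : ℝ) ^ (k * k) * 2 ^ Q) ≤ 2 ^ (Q ^ 2) * (2 ^ Q) ^ (Q ^ 2) * 2 ^ Q := by
          gcongr
          · exact hfac k le_rfl
          · exact one_le_pow₀ (by norm_num)
      _ = 2 ^ (Q ^ 2 + Q ^ 3 + Q) := by
          rw [← pow_mul, ← pow_add, ← pow_add]
          congr 1
          ring
  have e1 : 2 * (k * (k.factorial * (2 ^ Q : ℝ) ^ (k * k) * 2 ^ Q) ^ (2 ^ Q + 1) * (2 ^ Q) ^ a) ≤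
      2 ^ (1 + Q + (Q ^ 2 + Q ^ 3 + Q) * (2 ^ Q + 1) + Q * N) := by
    calc 2 * (k * (k.factorial * (2 ^ Q : ℝ) ^ (k * k) * 2 ^ Q) ^ (2 ^ Q + 1) * (2 ^ Q) ^ a)
        ≤ 2 * (2 ^ Q * (2 ^ (Q ^ 2 + Q ^ 3 + Q)) ^ (2 ^ Q + 1) * (2 ^ Q) ^ N) := by
          gcongr
          exact one_le_pow₀ (by norm_num)
      _ = _ := by
          rw [← pow_mul, ← pow_mul, ← pow_add, ← pow_add, ← pow_succ']
          congr 1
          ring
  have e2 : (K.factorial * ((2 ^ Q : ℝ) ^ N) ^ (K * h)) ^ (2 ^ Q + 1) ≤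
      2 ^ ((Q ^ 2 + Q ^ 2 * (N * h)) * (2 ^ Q + 1)) := by
    rw [pow_mul (2 : ℝ) (Q ^ 2 + Q ^ 2 * (N * h)) (2 ^ Q + 1)]
    refine pow_le_pow_left₀ (by positivity) ?_ _
    calc (K.factorial * ((2 ^ Q : ℝ) ^ N) ^ (K * h)) ≤ 2 ^ (Q ^ 2) * ((2 ^ Q : ℝ) ^ N) ^ (Q * h) := by
          gcongr
          · exact hfac K hK
          · exact one_le_pow₀ (one_le_pow₀ (by norm_num))
          · exact hK.trans hkQ
      _ = _ := by
          rw [← pow_mul, ← pow_mul, ← pow_add]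
          congr 1
          ring
  have e3 : (k * k.factorial * (2 ^ Q : ℝ) ^ (k * k + a) * 2 ^ Q) ^ (2 ^ Q + 1) ≤
      2 ^ ((Q + (Q ^ 2 + Q ^ 3 + Q) + Q * N) * (2 ^ Q + 1)) := by
    rw [pow_mul (2 : ℝ) (Q + (Q ^ 2 + Q ^ 3 + Q) + Q * N) (2 ^ Q + 1)]
    refine pow_le_pow_left₀ (by positivity) ?_ _
    calc (k * k.factorial * (2 ^ Q : ℝ) ^ (k * k + a) * 2 ^ Q)
        ≤ 2 ^ Q * 2 ^ (Q ^ 2) * (2 ^ Q) ^ (Q ^ 2 + N) * 2 ^ Q := by
          gcongr
          · exact hfac k le_rfl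
          · exact one_le_pow₀ (by norm_num)
      _ = _ := by
          rw [← pow_mul, ← pow_add, ← pow_add, ← pow_add]
          congr 1
          ring
  have har := arith Q N h X hQ hN hh hX
  set E1 := 1 + Q + (Q ^ 2 + Q ^ 3 + Q) * (2 ^ Q + 1) + Q * N with hE1
  set E2 := (Q ^ 2 + Q ^ 2 * (N * h)) * (2 ^ Q + 1) with hE2
  set E3 := (Q + (Q ^ 2 + Q ^ 3 + Q) + Q * N) * (2 ^ Q + 1) with hE3
  have e4 : (1 - 1 / ((2 ^ Q : ℕ) : ℝ)) ^ (X - N) ≤ (1 / 2) ^ (E1 + E2 + E3 + 1) :=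
    one_sub_pow_le (2 ^ Q) (by positivity) _ _ (by omega)
  have e5 : 0 ≤ (1 - 1 / ((2 ^ Q : ℕ) : ℝ)) ^ (X - N) := by
    apply pow_nonneg
    rw [sub_nonneg, div_le_one (by positivity)]
    exact_mod_cast Nat.one_le_two_pow
  calc _ ≤ (2 : ℝ) ^ E1 * (1 / 2) ^ (E1 + E2 + E3 + 1) * 2 ^ E2 * 2 ^ E3 := by gcongr
    _ = 1 / 2 := by
        rw [one_div, inv_pow]
        have h7 : (2 : ℝ) ^ (E1 + E2 + E3 + 1) = 2 ^ E1 * 2 ^ E2 * 2 ^ E3 * 2 := by
          rw [pow_succ, pow_add, pow_add]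
        rw [h7]
        field_simp
    _ < 1 := by norm_num

/-- In a class of the modulus `N`, violations are at most `K - 1` per window. -/
theorem class_windows {F : Type} [Field F] [NumberField F] (ψ : F →+* ℂ) (Q k : ℕ) (hk : 0 < k)
    (hkQ : k ≤ Q) (l : Fin k → F) (hl : Function.Injective l) (f : ℤ[X]) (hf : f.Monic)
    (hfl : ∀ i, aeval (l i) f = 0)
    (hR : ∀ (φ : F →+* ℂ) i, ‖φ (l i)‖ ≤ 2 ^ Q)
    (hD : Module.finrank ℚ F ≤ 2 ^ Q)
    (hgap : ∀ i j, ‖ψ (l i)‖ < ‖ψ (l j)‖ → ‖ψ (l i)‖ ≤ (1 - 1 / 2 ^ Q) * ‖ψ (l j)‖)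
    (v : ℕ → ℤ) (hU : ∀ n < k, |v n| ≤ 2 ^ Q) (c : Fin k → F)
    (hv : ∀ n, (v n : F) = ∑ i, c i * l i ^ n) (hUP : ∃ n0, ∀ n, n0 ≤ n → 0 < v n)
    (N : ℕ) (hN0 : 0 < N) (hN : N ≤ 2 ^ (2 * Q ^ 2 + 6 * Q))
    (hdet : ∀ (ι : Type) [Fintype ι] [DecidableEq ι], Fintype.card ι ≤ k → ∀ x : ι → F,
          (∀ i, aeval (x i) f = 0) → (∀ i, x i ≠ 0) → Function.Injective (fun i => x i ^ N) →
            ∀ m : ι → ℕ, Function.Injective m →
              (Matrix.of fun i j => (x j ^ N) ^ m i).det ≠ 0)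
    (a : ℕ) (ha : a < N) (X h : ℕ) (hh : N * h * 2 ^ (4 * Q + 5) ≤ X)
    (hX : 2 ^ (20 * (Q + 2) ^ 2) ≤ X) :
    ∃ K : ℕ, 0 < K ∧ K ≤ k ∧ ∀ B : Finset ℕ, B.card = K →
      (∀ m ∈ B, X ≤ a + N * m ∧ v (a + N * m) ≤ 0) → ∀ m0, ∃ m ∈ B, ¬ (m0 ≤ m ∧ m ≤ m0 + h) := by
  classical
  have hQ : 1 ≤ Q := hk.trans_le hkQ
  have hint : ∀ i, IsIntegral ℤ (l i) := fun i => ⟨f, hf, by rw [← aeval_def]; exact hfl i⟩
  have hψ : Function.Injective ψ := ψ.injective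
  set g : ℝ := 1 - 1 / ((2 ^ Q : ℕ) : ℝ) with hg
  have hg0 : 0 ≤ g := by
    rw [hg, sub_nonneg, div_le_one (by positivity)]
    exact_mod_cast Nat.one_le_two_pow
  have hg1 : g < 1 := by
    rw [hg]
    have : (0 : ℝ) < 1 / ((2 ^ Q : ℕ) : ℝ) := by positivity
    linarith
  have hgap' : ∀ i j, ‖ψ (l i)‖ < ‖ψ (l j)‖ → ‖ψ (l i)‖ ≤ g * ‖ψ (l j)‖ := by
    intro i j hij
    have := hgap i j hij
    rw [hg]
    push_cast
    exact this
  -- grouping
  set I0 : Finset (Fin k) := univ.filter fun i => l i ≠ 0 with hI0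
  set Cf : F → F := fun μ => ∑ i ∈ I0.filter (fun i => l i ^ N = μ), c i * l i ^ a with hCf
  set Im : Finset F := I0.image fun i => l i ^ N with hIm
  set S : Finset F := Im.filter fun μ => Cf μ ≠ 0 with hS
  have hexp : ∀ m, 1 ≤ m → (v (a + N * m) : F) = ∑ μ ∈ S, Cf μ * μ ^ m := by
    intro m hm
    have h1 : (v (a + N * m) : F) = ∑ i ∈ I0, c i * l i ^ a * (l i ^ N) ^ m := by
      rw [hv, hI0, Finset.sum_filter]
      apply Finset.sum_congr rfl
      intro i _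
      by_cases h0 : l i = 0
      · have h2 : a + N * m ≠ 0 := by positivity
        rw [if_neg (not_not.mpr h0), h0, zero_pow h2, mul_zero]
      · rw [if_pos h0, pow_add, pow_mul]
        ring
    have h2 : ∑ i ∈ I0, c i * l i ^ a * (l i ^ N) ^ m = ∑ μ ∈ Im, Cf μ * μ ^ m := by
      rw [hIm, ← Finset.sum_fiberwise_of_maps_to (s := I0) (t := I0.image fun i => l i ^ N)
        (g := fun i => l i ^ N) (fun i hi => Finset.mem_image_of_mem _ hi)]
      apply Finset.sum_congr rfl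
      intro μ _
      rw [hCf]
      simp only
      rw [Finset.sum_mul]
      apply Finset.sum_congr rfl
      intro i hi
      rw [(Finset.mem_filter.mp hi).2]
    rw [h1, h2, hS, Finset.sum_filter]
    apply Finset.sum_congr rfl
    intro μ _
    by_cases h0 : Cf μ = 0
    · rw [if_neg (not_not.mpr h0), h0, zero_mul]
    · rw [if_pos h0]
  have hrep : ∀ μ ∈ S, ∃ i, l i ≠ 0 ∧ l i ^ N = μ := by
    intro μ hμ
    obtain ⟨i, hi, hi2⟩ := Finset.mem_image.mp (Finset.mem_filter.mp hμ).1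
    exact ⟨i, (Finset.mem_filter.mp hi).2, hi2⟩
  have hSne : S.Nonempty := by
    by_contra hcon
    rw [Finset.not_nonempty_iff_eq_empty] at hcon
    obtain ⟨n0, hn0⟩ := hUP
    have h1 := hexp (n0 + 1) (by omega)
    rw [hcon, Finset.sum_empty] at h1
    have h2 := hn0 (a + N * (n0 + 1)) (by nlinarith)
    have h3 : v (a + N * (n0 + 1)) = 0 := by exact_mod_cast h1
    omega
  obtain ⟨μ0, hμ0, hmax⟩ := Finset.exists_max_image S (fun μ => ‖ψ μ‖) hSne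
  set ρ : ℝ := ‖ψ μ0‖ with hρdef
  have hρ : 0 < ρ := by
    obtain ⟨i, hi, hi2⟩ := hrep μ0 hμ0
    rw [hρdef, norm_pos_iff, ← hi2, map_pow]
    apply pow_ne_zero
    intro h0
    exact hi (hψ (by rw [h0, map_zero]))
  set Top : Finset F := S.filter fun μ => ‖ψ μ‖ = ρ with hTop
  have hμ0T : μ0 ∈ Top := Finset.mem_filter.mpr ⟨hμ0, rfl⟩
  refine ⟨Top.card, Finset.card_pos.mpr ⟨μ0, hμ0T⟩, ?_, ?_⟩
  · calc Top.card ≤ S.card := Finset.card_filter_le _ _
      _ ≤ Im.card := Finset.card_filter_le _ _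
      _ ≤ I0.card := Finset.card_image_le
      _ ≤ (univ : Finset (Fin k)).card := Finset.card_filter_le _ _
      _ = k := by simp
  intro B hB hviol m0
  by_contra hcon
  push Not at hcon
  have hKk : Top.card ≤ k := by
    calc Top.card ≤ S.card := Finset.card_filter_le _ _
      _ ≤ Im.card := Finset.card_filter_le _ _
      _ ≤ I0.card := Finset.card_image_le
      _ ≤ (univ : Finset (Fin k)).card := Finset.card_filter_le _ _
      _ = k := by simp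
  -- bounds for the coefficients
  set E : ℝ := (k.factorial * (2 ^ Q : ℝ) ^ (k * k) * 2 ^ Q) ^ (2 ^ Q + 1) with hE
  have hUr : ∀ n < k, |(v n : ℝ)| ≤ 2 ^ Q := by
    intro n hn
    exact_mod_cast hU n hn
  have hcE : ∀ i, ‖ψ (c i)‖ ≤ E := fun i =>
    coeff_upper ψ k l hl hint (2 ^ Q) (one_le_pow₀ (by norm_num)) hR (2 ^ Q) hD v (2 ^ Q)
      (one_le_pow₀ (by norm_num)) hUr c (fun n _ => hv n) i
  have hE0 : 0 ≤ E := (norm_nonneg _).trans (hcE ⟨0, hk⟩)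
  have hCsum : ∑ μ ∈ S, ‖ψ (Cf μ)‖ ≤ k * E * (2 ^ Q) ^ a := by
    calc ∑ μ ∈ S, ‖ψ (Cf μ)‖ ≤ ∑ μ ∈ Im, ‖ψ (Cf μ)‖ :=
          Finset.sum_le_sum_of_subset_of_nonneg (Finset.filter_subset _ _)
            fun _ _ _ => norm_nonneg _
      _ ≤ ∑ μ ∈ Im, ∑ i ∈ I0.filter (fun i => l i ^ N = μ), E * (2 ^ Q) ^ a := by
          apply Finset.sum_le_sum
          intro μ _
          rw [hCf]
          simp only
          rw [map_sum]
          refine (norm_sum_le _ _).trans (Finset.sum_le_sum fun i _ => ?_)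
          rw [map_mul, map_pow, norm_mul, norm_pow]
          exact mul_le_mul (hcE i) (pow_le_pow_left₀ (norm_nonneg _) (hR ψ i) a)
            (by positivity) hE0
      _ = ∑ i ∈ I0, E * (2 ^ Q) ^ a := by
          rw [hIm, Finset.sum_fiberwise_of_maps_to (s := I0) (t := I0.image fun i => l i ^ N)
            (g := fun i => l i ^ N) (fun i hi => Finset.mem_image_of_mem _ hi)]
      _ ≤ ∑ i : Fin k, E * (2 ^ Q) ^ a :=
          Finset.sum_le_sum_of_subset_of_nonneg (Finset.filter_subset _ _)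
            fun _ _ _ => by positivity
      _ = k * E * (2 ^ Q) ^ a := by simp [mul_assoc]
  -- the top part
  set P : ℕ → ℂ := fun m => ∑ μ : Top, ψ (Cf μ) * ψ μ ^ m with hP
  set e : ℕ → ℂ := fun m => ((v (a + N * m) : ℝ) : ℂ) - P m with he
  have hPsum : ∀ m, P m = ∑ μ ∈ Top, ψ (Cf μ) * ψ μ ^ m := by
    intro m
    rw [hP]
    simp only
    exact Finset.sum_coe_sort Top (fun μ => ψ (Cf μ) * ψ μ ^ m)
  have hebd : ∀ m, 1 ≤ m → ‖e m‖ ≤ k * E * (2 ^ Q) ^ a * (g ^ (N * m) * ρ ^ m) := by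
    intro m hm
    have h1 : e m = ∑ μ ∈ S.filter (fun μ => ¬ ‖ψ μ‖ = ρ), ψ (Cf μ) * ψ μ ^ m := by
      have h2 : ((v (a + N * m) : ℝ) : ℂ) = ∑ μ ∈ S, ψ (Cf μ) * ψ μ ^ m := by
        have h3 := congrArg ψ (hexp m hm)
        rw [map_intCast, map_sum] at h3
        rw [Complex.ofReal_intCast, h3]
        apply Finset.sum_congr rfl
        intro μ _
        rw [map_mul, map_pow]
      rw [he]
      simp only
      rw [h2, hPsum, hTop, ← Finset.sum_filter_add_sum_filter_not S (fun μ => ‖ψ μ‖ = ρ)]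
      ring
    rw [h1]
    calc _ ≤ ∑ μ ∈ S.filter (fun μ => ¬ ‖ψ μ‖ = ρ), ‖ψ (Cf μ) * ψ μ ^ m‖ := norm_sum_le _ _
      _ ≤ ∑ μ ∈ S.filter (fun μ => ¬ ‖ψ μ‖ = ρ), ‖ψ (Cf μ)‖ * (g ^ (N * m) * ρ ^ m) := by
          apply Finset.sum_le_sum
          intro μ hμ
          rw [norm_mul, norm_pow]
          apply mul_le_mul_of_nonneg_left _ (norm_nonneg _)
          obtain ⟨hμS, hμρ⟩ := Finset.mem_filter.mp hμ
          have hlt : ‖ψ μ‖ < ρ := lt_of_le_of_ne (hmax μ hμS) hμρ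
          obtain ⟨i, hi, hi2⟩ := hrep μ hμS
          obtain ⟨j, hj, hj2⟩ := hrep μ0 hμ0
          have h4 : ‖ψ (l i)‖ < ‖ψ (l j)‖ := by
            rw [hρdef, ← hi2, ← hj2, map_pow, map_pow, norm_pow, norm_pow] at hlt
            exact lt_of_pow_lt_pow_left₀ N (norm_nonneg _) hlt
          have h5 : ‖ψ μ‖ ≤ g ^ N * ρ := by
            rw [hρdef, ← hi2, ← hj2, map_pow, map_pow, norm_pow, norm_pow, ← mul_pow]
            exact pow_le_pow_left₀ (norm_nonneg _) (hgap' i j h4) N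
          calc ‖ψ μ‖ ^ m ≤ (g ^ N * ρ) ^ m := pow_le_pow_left₀ (norm_nonneg _) h5 m
            _ = g ^ (N * m) * ρ ^ m := by rw [mul_pow, ← pow_mul]
      _ ≤ ∑ μ ∈ S, ‖ψ (Cf μ)‖ * (g ^ (N * m) * ρ ^ m) :=
          Finset.sum_le_sum_of_subset_of_nonneg (Finset.filter_subset _ _)
            fun _ _ _ => by positivity
      _ = (∑ μ ∈ S, ‖ψ (Cf μ)‖) * (g ^ (N * m) * ρ ^ m) := by rw [Finset.sum_mul]
      _ ≤ _ := mul_le_mul_of_nonneg_right hCsum (by positivity)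
  -- the top part has nonnegative real part
  have hPnn : ∀ m, 0 ≤ (P m).re := by
    intro m
    have h1 := re_nonneg_of_pos (ι := Top) (fun μ => ψ μ) (fun μ => ψ (Cf μ)) ρ hρ
      (fun μ => (Finset.mem_filter.mp μ.2).2) (fun m => (v (a + N * m) : ℝ)) e ?_ ?_ ?_ m
    · exact h1
    · have h2 : Tendsto (fun m : ℕ => k * E * (2 ^ Q) ^ a * (g ^ N) ^ m) atTop (𝓝 0) := by
        have h3 := tendsto_pow_atTop_nhds_zero_of_lt_one (r := g ^ N) (by positivity)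
          (pow_lt_one₀ hg0 hg1 hN0.ne')
        simpa using h3.const_mul (k * E * (2 ^ Q) ^ a)
      refine squeeze_zero' (Eventually.of_forall fun m => by positivity) ?_ h2
      filter_upwards [eventually_ge_atTop 1] with m hm
      rw [div_le_iff₀ (by positivity)]
      calc ‖e m‖ ≤ _ := hebd m hm
        _ = _ := by rw [pow_mul]; ring
    · intro m
      rw [he]
      simp only
      rw [hP]
      ring
    · obtain ⟨n0, hn0⟩ := hUP
      filter_upwards [eventually_ge_atTop n0] with m hm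
      have h2 := hn0 (a + N * m) (by nlinarith)
      exact_mod_cast h2
  -- violations
  have hPv : ∀ m ∈ B, ‖P m‖ ≤ 2 * (k * E * (2 ^ Q) ^ a) * g ^ (X - N) * ρ ^ m := by
    intro m hm
    obtain ⟨hmX, hmv⟩ := hviol m hm
    have hXN : N ≤ X := by
      refine hN.trans (le_trans ?_ hX)
      apply Nat.pow_le_pow_right (by norm_num)
      nlinarith
    have hm1 : 1 ≤ m := by
      by_contra h0
      have : m = 0 := by omega
      subst this
      omega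
    have h1 : ‖P m‖ ≤ 2 * ‖e m‖ := by
      have h2 : P m = ((v (a + N * m) : ℝ) : ℂ) - e m := by
        rw [he]
        ring
      have h3 : (P m).re = (v (a + N * m) : ℝ) - (e m).re := by
        rw [h2, Complex.sub_re, Complex.ofReal_re]
      have h4 : (P m).im = - (e m).im := by
        rw [h2, Complex.sub_im, Complex.ofReal_im, zero_sub]
      have h5 : (v (a + N * m) : ℝ) ≤ 0 := by exact_mod_cast hmv
      have h6 := hPnn m
      have h7 := Complex.abs_re_le_norm (e m)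
      have h8 := Complex.abs_im_le_norm (e m)
      have h9 := Complex.norm_le_abs_re_add_abs_im (P m)
      rw [h4, abs_neg, abs_of_nonneg h6] at h9
      have h10 : (P m).re ≤ |(e m).re| := by
        rw [h3]
        have := neg_abs_le (e m).re
        linarith
      linarith
    have h2 : g ^ (N * m) ≤ g ^ (X - N) := by
      apply pow_le_pow_of_le_one hg0 hg1.le
      omega
    calc ‖P m‖ ≤ 2 * ‖e m‖ := h1
      _ ≤ 2 * (k * E * (2 ^ Q) ^ a * (g ^ (N * m) * ρ ^ m)) := by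
          have := hebd m hm1
          linarith
      _ ≤ 2 * (k * E * (2 ^ Q) ^ a * (g ^ (X - N) * ρ ^ m)) := by gcongr
      _ = _ := by ring
  -- Cramer
  have hcard : Fintype.card Top = Fintype.card B := by
    rw [Fintype.card_coe, Fintype.card_coe, hB]
  obtain ⟨eq⟩ := Fintype.card_eq.mp hcard
  set m : Top → ℕ := fun μ => (eq μ : ℕ) with hm
  have hminj : Function.Injective m := fun x y hxy => eq.injective (Subtype.ext hxy)
  have hmB : ∀ μ, m μ ∈ B := fun μ => (eq μ).2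
  have : Nonempty (Fin k) := ⟨⟨0, hk⟩⟩
  choose! rep hrep1 hrep2 using hrep
  have hdet' : (Matrix.of fun i j : Top => (j : F) ^ m i).det ≠ 0 := by
    have h1 := hdet Top (by rw [Fintype.card_coe]; exact hKk) (fun μ => l (rep μ))
      (fun μ => hfl _) (fun μ => hrep1 μ (Finset.mem_filter.mp μ.2).1) (by
        intro x y hxy
        simp only at hxy
        rw [hrep2 x (Finset.mem_filter.mp x.2).1, hrep2 y (Finset.mem_filter.mp y.2).1] at hxy
        exact Subtype.ext hxy) m hminj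
    have h2 : (Matrix.of fun i j : Top => (j : F) ^ m i) =
        Matrix.of fun i j : Top => (l (rep j) ^ N) ^ m i := by
      ext i j
      simp only [Matrix.of_apply]
      rw [hrep2 j (Finset.mem_filter.mp j.2).1]
    rw [h2]
    exact h1
  have hintT : ∀ μ : Top, IsIntegral ℤ (μ : F) := by
    intro μ
    rw [← hrep2 μ (Finset.mem_filter.mp μ.2).1]
    exact (hint _).pow N
  have hRT : ∀ (φ : F →+* ℂ) (μ : Top), ‖φ (μ : F)‖ ≤ (2 ^ Q) ^ N := by
    intro φ μ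
    rw [← hrep2 μ (Finset.mem_filter.mp μ.2).1, map_pow, norm_pow]
    exact pow_le_pow_left₀ (norm_nonneg _) (hR φ _) N
  have hcr := cramer_bound ψ (fun μ : Top => (μ : F)) hintT ρ hρ
    (fun μ => (Finset.mem_filter.mp μ.2).2) ((2 ^ Q) ^ N)
    (one_le_pow₀ (one_le_pow₀ (by norm_num))) hRT (2 ^ Q) hD m m0 h (fun μ => hcon _ (hmB μ))
    hdet' (fun μ => ψ (Cf μ)) (2 * (k * E * (2 ^ Q) ^ a) * g ^ (X - N)) (fun μ => hPv _ (hmB μ))
    ⟨μ0, hμ0T⟩
  rw [Fintype.card_coe] at hcr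
  simp only at hcr
  have hlow := coeff_lower ψ k l hl hint (2 ^ Q) (one_le_pow₀ (by norm_num)) hR (2 ^ Q) hD v (2 ^ Q)
      (one_le_pow₀ (by norm_num)) hUr c (fun n _ => hv n) (I0.filter (fun i => l i ^ N = μ0)) a
      (Finset.mem_filter.mp hμ0).2
  have hfin := arith' Q k Top.card N h a X hQ hkQ hKk hN ha hh hX
  have h1 : ‖ψ (∑ i ∈ I0.filter (fun i => l i ^ N = μ0), c i * l i ^ a)‖ *
      (k * k.factorial * (2 ^ Q : ℝ) ^ (k * k + a) * 2 ^ Q) ^ (2 ^ Q + 1) < 1 := by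
    refine lt_of_le_of_lt ?_ hfin
    apply mul_le_mul_of_nonneg_right _ (by positivity)
    exact hcr
  linarith

/-- polynomial bound -/
def pC (Q : ℕ) : ℕ := 20 * (Q + 2) ^ 2

/-- **Few violations.** An ultimately positive integer sequence with simple roots has few
nonpositive terms in every dyadic block. -/
theorem few_violations {F : Type} [Field F] [NumberField F] (ψ : F →+* ℂ) (Q k : ℕ) (hk : 0 < k)
    (hkQ : k ≤ Q) (l : Fin k → F) (hl : Function.Injective l) (f : ℤ[X]) (hf : f.Monic)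
    (hfd : f.natDegree ≤ k) (hfl : ∀ i, aeval (l i) f = 0)
    (hft : f.trailingCoeff.natAbs ≤ 2 ^ Q) (hR : ∀ (φ : F →+* ℂ) i, ‖φ (l i)‖ ≤ 2 ^ Q)
    (hD : Module.finrank ℚ F ≤ 2 ^ Q)
    (hgap : ∀ i j, ‖ψ (l i)‖ < ‖ψ (l j)‖ → ‖ψ (l i)‖ ≤ (1 - 1 / 2 ^ Q) * ‖ψ (l j)‖)
    (v : ℕ → ℤ) (hU : ∀ n < k, |v n| ≤ 2 ^ Q) (c : Fin k → F)
    (hv : ∀ n, (v n : F) = ∑ i, c i * l i ^ n) (hUP : ∃ n0, ∀ n, n0 ≤ n → 0 < v n) (X : ℕ)
    (hX : 2 ^ pC Q ≤ X) :
    ((Finset.Ico X (2 * X)).filter fun n => v n ≤ 0).card ≤ 2 ^ pC Q := by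
  classical
  have hQ : 1 ≤ Q := hk.trans_le hkQ
  obtain ⟨N, hN0, hNle, hdet⟩ := exists_modulus f hf k (2 ^ Q) hfd hft
  have hN : N ≤ 2 ^ (2 * Q ^ 2 + 6 * Q) := by
    refine hNle.trans ?_
    have h1 : 4 * (2 ^ Q + k + 1) ≤ 2 ^ (Q + 3) := by
      have h2 : k + 1 ≤ 2 ^ Q := by
        have := Nat.lt_two_pow_self (n := Q)
        omega
      rw [pow_add]
      omega
    calc (4 * (2 ^ Q + k + 1)) ^ (2 * k) ≤ (2 ^ (Q + 3)) ^ (2 * k) := Nat.pow_le_pow_left h1 _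
      _ = 2 ^ ((Q + 3) * (2 * k)) := by rw [← pow_mul]
      _ ≤ 2 ^ (2 * Q ^ 2 + 6 * Q) := by
          apply Nat.pow_le_pow_right (by norm_num)
          nlinarith
  set W := 2 ^ (4 * Q + 5) with hW
  have hW0 : 0 < W := by positivity
  set h := X / (N * W) with hh
  have hhX : N * h * W ≤ X := by
    calc N * h * W = N * W * (X / (N * W)) := by rw [hh]; ring
      _ ≤ X := Nat.mul_div_le X (N * W)
  have hXlt : X < N * W * (h + 1) := Nat.lt_mul_div_succ X (by positivity)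
  have hcls : ∀ a ∈ Finset.range N, (((Finset.Ico X (2 * X)).filter fun n => v n ≤ 0).filter
      fun n => n % N = a).card ≤ k * (2 * W + 1) := by
    intro a ha
    rw [Finset.mem_range] at ha
    obtain ⟨K, hK0, hKk, hwin⟩ := class_windows ψ Q k hk hkQ l hl f hf hfl hR hD hgap v hU c hv hUP
      N hN0 hN (fun ι _ _ hc x hx1 hx2 hx3 m hm => hdet F N hN0 dvd_rfl ι hc x hx1 hx2 hx3 m hm)
      a ha X h hhX hX
    set A := (((Finset.Ico X (2 * X)).filter fun n => v n ≤ 0).filter fun n => n % N = a) with hA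
    have hAm : ∀ n ∈ A, n = a + N * (n / N) ∧ X ≤ n ∧ n < 2 * X ∧ v n ≤ 0 := by
      intro n hn
      simp only [hA, Finset.mem_filter, Finset.mem_Ico] at hn
      obtain ⟨⟨⟨h1, h2⟩, h3⟩, h4⟩ := hn
      refine ⟨?_, h1, h2, h3⟩
      rw [← h4]
      exact (Nat.mod_add_div n N).symm
    have himg : (A.image fun n => n / N).card = A.card := by
      apply Finset.card_image_of_injOn
      intro x hx y hy hxy
      simp only at hxy
      rw [(hAm x hx).1, (hAm y hy).1, hxy]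
    rw [← himg]
    have h1 := card_le_of_windows (A.image fun n => n / N) (2 * X / N + 1) h K (by
        intro m hm
        obtain ⟨n, hn, rfl⟩ := Finset.mem_image.mp hm
        exact Nat.lt_succ_of_le (Nat.div_le_div_right (hAm n hn).2.2.1.le)) (by
        intro B hB hBc m0
        apply hwin B hBc _ m0
        intro m hm
        obtain ⟨n, hn, rfl⟩ := Finset.mem_image.mp (hB hm)
        rw [← (hAm n hn).1]
        exact ⟨(hAm n hn).2.1, (hAm n hn).2.2.2⟩)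
    refine h1.trans ?_
    have h2 : (2 * X / N + 1) / (h + 1) ≤ 2 * W := by
      have h3 : 2 * X / N < 2 * W * (h + 1) := by
        rw [Nat.div_lt_iff_lt_mul hN0]
        calc 2 * X < 2 * (N * W * (h + 1)) := by omega
          _ = 2 * W * (h + 1) * N := by ring
      calc (2 * X / N + 1) / (h + 1) ≤ (2 * W * (h + 1)) / (h + 1) := Nat.div_le_div_right h3
        _ = 2 * W := Nat.mul_div_cancel _ (Nat.succ_pos h)
    exact Nat.mul_le_mul hKk (by omega)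
  have hsum : ((Finset.Ico X (2 * X)).filter fun n => v n ≤ 0).card = ∑ a ∈ Finset.range N,
      (((Finset.Ico X (2 * X)).filter fun n => v n ≤ 0).filter fun n => n % N = a).card := by
    apply Finset.card_eq_sum_card_fiberwise
    intro n _
    simp only [Finset.coe_range, Set.mem_Iio]
    exact Nat.mod_lt n hN0
  rw [hsum]
  calc _ ≤ ∑ _a ∈ Finset.range N, k * (2 * W + 1) := Finset.sum_le_sum hcls
    _ = N * (k * (2 * W + 1)) := by rw [Finset.sum_const, Finset.card_range, smul_eq_mul]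
    _ ≤ 2 ^ (2 * Q ^ 2 + 6 * Q) * (2 ^ Q * 2 ^ (4 * Q + 7)) := by
        apply Nat.mul_le_mul hN
        apply Nat.mul_le_mul (hkQ.trans Nat.lt_two_pow_self.le)
        rw [hW, show 4 * Q + 7 = (4 * Q + 5) + 2 by ring, pow_add 2 (4 * Q + 5) 2]
        have : 1 ≤ 2 ^ (4 * Q + 5) := Nat.one_le_two_pow
        omega
    _ = 2 ^ (2 * Q ^ 2 + 6 * Q + (Q + (4 * Q + 7))) := by rw [← pow_add, ← pow_add]
    _ ≤ 2 ^ pC Q := by
        apply Nat.pow_le_pow_right (by norm_num)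
        unfold pC
        nlinarith

end Pool.Agent.AlmostPos
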