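import Pool.Agent.AlmostPos.Few
import Pool.Agent.DD7719.TAssemble
import Pool.Agent.DD7719.Lang

/-! AP9. Few violations for instances.

The sequence `q ^ n w v n` (`q`, `w` the products of the denominators) is an integer valued
recurrence sequence, its roots `q l i` are algebraic integers in the splitting field of the
characteristic polynomial. -/

set_option autoImplicit false

namespace Pool.Agent.UltPos

open Pool.Agent.DD7719.M Pool.Agent.DD7719 Pool.Agent.AlmostPos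
open Polynomial Finset

/-- representation of a recurrence sequence by powers of the distinct roots -/
private lemma if_rep {F : Type} [Field F] (k : ℕ) (l : Fin k → F) (hl : Function.Injective l)
    (b : ℕ → F) (hr : ∀ i, l i ^ k = ∑ t ∈ range k, b t * l i ^ (k - 1 - t))
    (v : ℕ → F) (hv : ∀ n, k ≤ n → v n = ∑ t ∈ range k, b t * v (n - 1 - t)) :
    ∃ c : Fin k → F, ∀ n, v n = ∑ i, c i * l i ^ n := by
  classical
  have hdet : (Matrix.vandermonde l).det ≠ 0 := Matrix.det_vandermonde_ne_zero_iff.mpr hl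
  have hunit : IsUnit (Matrix.vandermonde l).det := isUnit_iff_ne_zero.mpr hdet
  refine ⟨Matrix.vecMul (fun n : Fin k => v n) (Matrix.vandermonde l)⁻¹, fun n => ?_⟩
  set c := Matrix.vecMul (fun n : Fin k => v n) (Matrix.vandermonde l)⁻¹ with hc
  have h0 : Matrix.vecMul c (Matrix.vandermonde l) = fun n : Fin k => v n := by
    rw [hc, Matrix.vecMul_vecMul, Matrix.nonsing_inv_mul _ hunit, Matrix.vecMul_one]
  induction n using Nat.strong_induction_on with
  | _ n ih =>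
  rcases lt_or_ge n k with hn | hn
  · have h1 := congrFun h0 ⟨n, hn⟩
    rw [Matrix.vecMul, dotProduct] at h1
    rw [← h1]
    apply Finset.sum_congr rfl
    intro i _
    rw [Matrix.vandermonde_apply]
  · rw [hv n hn]
    have h1 : ∀ t ∈ range k, b t * v (n - 1 - t) = ∑ i, c i * (b t * l i ^ (n - 1 - t)) := by
      intro t ht
      rw [Finset.mem_range] at ht
      rw [ih (n - 1 - t) (by omega), mul_sum]
      apply Finset.sum_congr rfl
      intro i _
      ring
    rw [Finset.sum_congr rfl h1, Finset.sum_comm]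
    apply Finset.sum_congr rfl
    intro i _
    rw [← mul_sum]
    congr 1
    have h2 : l i ^ n = l i ^ (n - k) * l i ^ k := by
      rw [← pow_add, Nat.sub_add_cancel hn]
    rw [h2, hr i, mul_sum]
    apply Finset.sum_congr rfl
    intro t ht
    rw [Finset.mem_range] at ht
    rw [mul_left_comm, ← pow_add]
    congr 2
    omega

/-- the monic integer polynomial of a recurrence -/
private noncomputable def ifp (k : ℕ) (b : ℕ → ℤ) : ℤ[X] :=
  X ^ k - ∑ t ∈ range k, C (b t) * X ^ (k - 1 - t)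

private lemma ifp_degree_aux (k : ℕ) (b : ℕ → ℤ) :
    (∑ t ∈ range k, C (b t) * X ^ (k - 1 - t) : ℤ[X]).degree < k := by
  rw [degree_lt_iff_coeff_zero]
  intro m hm
  rw [finsetSum_coeff]
  apply Finset.sum_eq_zero
  intro t ht
  rw [Finset.mem_range] at ht
  rw [coeff_C_mul_X_pow, if_neg]
  omega

private lemma ifp_monic (k : ℕ) (b : ℕ → ℤ) : (ifp k b).Monic :=
  monic_X_pow_sub (ifp_degree_aux k b)

private lemma ifp_natDegree (k : ℕ) (b : ℕ → ℤ) : (ifp k b).natDegree ≤ k := by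
  have h : (ifp k b).degree = k := by
    rw [ifp, degree_sub_eq_left_of_degree_lt, degree_X_pow]
    rw [degree_X_pow]
    exact ifp_degree_aux k b
  exact (natDegree_eq_of_degree_eq_some h).le

private lemma ifp_coeff_le (k : ℕ) (b : ℕ → ℤ) (B : ℕ) (hB : 1 ≤ B)
    (hb : ∀ t, t < k → (b t).natAbs ≤ B) (i : ℕ) : ((ifp k b).coeff i).natAbs ≤ B := by
  rw [ifp, coeff_sub, coeff_X_pow, finsetSum_coeff]
  simp only [coeff_C_mul_X_pow]
  by_cases h1 : i = k
  · rw [if_pos h1, Finset.sum_eq_zero, sub_zero]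
    · simpa using hB
    · intro t ht
      rw [Finset.mem_range] at ht
      rw [if_neg]
      omega
  · rw [if_neg h1, zero_sub, Int.natAbs_neg]
    by_cases h2 : i < k
    · rw [Finset.sum_eq_single (k - 1 - i)]
      · rw [if_pos (by omega)]
        exact hb _ (by omega)
      · intro t ht hne
        rw [Finset.mem_range] at ht
        rw [if_neg]
        omega
      · intro h
        rw [Finset.mem_range] at h
        omega
    · rw [Finset.sum_eq_zero]
      · simp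
      · intro t ht
        rw [Finset.mem_range] at ht
        rw [if_neg]
        omega

private lemma ifp_aeval {F : Type} [Field F] [CharZero F] (k : ℕ) (b : ℕ → ℤ) (z : F)
    (h : z ^ k = ∑ t ∈ range k, (b t : F) * z ^ (k - 1 - t)) : aeval z (ifp k b) = 0 := by
  rw [ifp, map_sub, map_sum, map_pow, aeval_X, h, sub_eq_zero]
  apply Finset.sum_congr rfl
  intro t _
  rw [map_mul, aeval_C, map_pow, aeval_X, algebraMap_int_eq, eq_intCast]

/-- the size of the exponent -/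
private lemma if_size (L : ℕ) : pC (pg L + (L + 3) ^ 4) ≤ (L + 2) ^ 25 := by
  set x := L + 2 with hx
  have hx2 : 2 ≤ x := by omega
  have h1 : pg L ≤ x ^ 7 := by
    unfold pg
    have e1 : 2 * (L * L) + 4 * L + 1 ≤ x * x ^ 2 := by
      have : x * x ^ 2 ≥ 2 * x ^ 2 := Nat.mul_le_mul_right _ hx2
      rw [hx] at this ⊢
      nlinarith
    have e2 : L ^ 4 + 1 ≤ x ^ 4 := by
      have := Nat.pow_lt_pow_left (show L < x by omega) (show (4 : ℕ) ≠ 0 by norm_num)
      omega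
    calc (2 * (L * L) + 4 * L + 1) * (L ^ 4 + 1) ≤ (x * x ^ 2) * x ^ 4 := Nat.mul_le_mul e1 e2
      _ = x ^ 7 := by ring
  have h2 : (L + 3) ^ 4 ≤ x ^ 8 := by
    have e1 : L + 3 ≤ x ^ 2 := by nlinarith
    calc (L + 3) ^ 4 ≤ (x ^ 2) ^ 4 := Nat.pow_le_pow_left e1 4
      _ = x ^ 8 := by ring
  have h3 : pg L + (L + 3) ^ 4 + 2 ≤ x ^ 10 := by
    have e1 : x ^ 7 ≤ x ^ 8 := Nat.pow_le_pow_right (by omega) (by norm_num)
    have e2 : 2 * x ^ 8 ≤ x ^ 9 := by
      rw [pow_succ x 8, mul_comm 2]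
      exact Nat.mul_le_mul_left _ hx2
    have e3 : 2 * x ^ 9 ≤ x ^ 10 := by
      rw [pow_succ x 9, mul_comm 2]
      exact Nat.mul_le_mul_left _ hx2
    have e4 : 2 ≤ x ^ 9 := by
      calc 2 ≤ x := hx2
        _ = x ^ 1 := (pow_one x).symm
        _ ≤ x ^ 9 := Nat.pow_le_pow_right (by omega) (by norm_num)
    omega
  have h4 : 20 ≤ x ^ 5 := by
    calc 20 ≤ 2 ^ 5 := by norm_num
      _ ≤ x ^ 5 := Nat.pow_le_pow_left hx2 5
  unfold pC
  calc 20 * (pg L + (L + 3) ^ 4 + 2) ^ 2 ≤ x ^ 5 * (x ^ 10) ^ 2 :=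
        Nat.mul_le_mul h4 (Nat.pow_le_pow_left h3 2)
    _ = x ^ 25 := by ring

/-- the product of the denominators of the coefficients -/
private def ifq (I : Inst) : ℕ := ∏ s ∈ range I.k, I.den s

/-- the product of the denominators of the initial values -/
private def ifw (I : Inst) : ℕ := ∏ i : Fin I.k, I.uDen i

/-- the coefficients of the scaled recurrence -/
private def ifb (I : Inst) (t : ℕ) : ℤ :=
  (I.num t * ∏ s ∈ (range I.k).erase t, (I.den s : ℤ)) * (ifq I : ℤ) ^ t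

private lemma ifq_pos (I : Inst) : 0 < ifq I :=
  Finset.prod_pos fun s hs => I.den_pos' s (Finset.mem_range.mp hs)

private lemma ifw_pos (I : Inst) : 0 < ifw I := Finset.prod_pos fun i _ => I.uDen_pos i

private lemma ifb_cast {K : Type} [Field K] [CharZero K] (I : Inst) (t : ℕ) (ht : t < I.k) :
    ((ifb I t : ℤ) : K) = ((I.num t : K) / (I.den t : K)) * (ifq I : K) ^ (t + 1) := by
  have h1 : (I.den t : K) ≠ 0 := by exact_mod_cast (I.den_pos' t ht).ne'
  have h2n : ifq I = I.den t * ∏ s ∈ (range I.k).erase t, I.den s :=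
    (Finset.mul_prod_erase (range I.k) I.den (Finset.mem_range.mpr ht)).symm
  have h2 : (ifq I : K) ^ (t + 1) = (I.den t : K) * (∏ s ∈ (range I.k).erase t, (I.den s : K)) *
      (ifq I : K) ^ t := by
    have h3 : (ifq I : K) = (I.den t : K) * ∏ s ∈ (range I.k).erase t, (I.den s : K) := by
      conv_lhs => rw [h2n]
      push_cast
      rfl
    rw [pow_succ', ← h3]
  rw [h2, ifb]
  push_cast
  field_simp

private lemma if_rec {I : Inst} {v : ℕ → ℚ} (hv : I.IsSeq v) (n : ℕ) (hn : I.k ≤ n) :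
    v n = ∑ t ∈ range I.k, ((I.num t : ℚ) / (I.den t : ℚ)) * v (n - 1 - t) := by
  rw [hv.2 n hn, Finset.sum_range]
  apply Finset.sum_congr rfl
  intro t _
  simp only [Inst.num, Inst.den, t.2, dif_pos, Inst.a]

private lemma if_scaled {I : Inst} {v : ℕ → ℚ} (hv : I.IsSeq v) (n : ℕ) (hn : I.k ≤ n) :
    (ifq I : ℚ) ^ n * ifw I * v n = ∑ t ∈ range I.k, (ifb I t : ℚ) *
      ((ifq I : ℚ) ^ (n - 1 - t) * ifw I * v (n - 1 - t)) := by
  rw [if_rec hv n hn, mul_sum]
  apply Finset.sum_congr rfl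
  intro t ht
  rw [Finset.mem_range] at ht
  rw [ifb_cast I t ht]
  have h1 : (ifq I : ℚ) ^ n = (ifq I : ℚ) ^ (t + 1) * (ifq I : ℚ) ^ (n - 1 - t) := by
    rw [← pow_add]
    congr 1
    omega
  rw [h1]
  ring

private lemma if_int {I : Inst} {v : ℕ → ℚ} (hv : I.IsSeq v) : ∃ v' : ℕ → ℤ,
    (∀ n, (v' n : ℚ) = (ifq I : ℚ) ^ n * ifw I * v n) ∧
    ∀ n, I.k ≤ n → v' n = ∑ t ∈ range I.k, ifb I t * v' (n - 1 - t) := by
  have key : ∀ n, ∃ z : ℤ, (z : ℚ) = (ifq I : ℚ) ^ n * ifw I * v n := by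
    intro n
    induction n using Nat.strong_induction_on with
    | _ n ih =>
    rcases lt_or_ge n I.k with hn | hn
    · refine ⟨(ifq I : ℤ) ^ n * (I.uNum ⟨n, hn⟩ *
        ∏ i ∈ (Finset.univ : Finset (Fin I.k)).erase ⟨n, hn⟩, (I.uDen i : ℤ)), ?_⟩
      have h1 : (I.uDen ⟨n, hn⟩ : ℚ) ≠ 0 := by exact_mod_cast (I.uDen_pos _).ne'
      have h2 : (ifw I : ℚ) = (I.uDen ⟨n, hn⟩ : ℚ) *
          ∏ i ∈ (Finset.univ : Finset (Fin I.k)).erase ⟨n, hn⟩, (I.uDen i : ℚ) := by
        have h2n : ifw I = I.uDen ⟨n, hn⟩ *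
            ∏ i ∈ (Finset.univ : Finset (Fin I.k)).erase ⟨n, hn⟩, I.uDen i :=
          (Finset.mul_prod_erase Finset.univ I.uDen (Finset.mem_univ _)).symm
        conv_lhs => rw [h2n]
        push_cast
        rfl
      have h3 := hv.1 ⟨n, hn⟩
      simp only [Inst.u] at h3
      rw [h3, h2]
      push_cast
      field_simp
    · choose g hg using ih
      refine ⟨∑ t : Fin I.k, ifb I t * g (n - 1 - t) (by have := t.2; omega), ?_⟩
      rw [if_scaled hv n hn, Finset.sum_range]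
      push_cast
      apply Finset.sum_congr rfl
      intro t _
      rw [hg]
  choose v' hv' using key
  refine ⟨v', hv', fun n hn => ?_⟩
  have h1 : ((v' n : ℤ) : ℚ) = ((∑ t ∈ range I.k, ifb I t * v' (n - 1 - t) : ℤ) : ℚ) := by
    rw [hv', if_scaled hv n hn]
    push_cast
    apply Finset.sum_congr rfl
    intro t _
    rw [hv']
  exact_mod_cast h1

section bounds

variable (I : Inst) (L : ℕ) (hkL : I.k ≤ L)
    (hb : ∀ i, (I.aNum i).natAbs ≤ 2 ^ L ∧ I.aDen i ≤ 2 ^ L)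
    (hb' : ∀ i, (I.uNum i).natAbs ≤ 2 ^ L ∧ I.uDen i ≤ 2 ^ L)

include hkL hb in
private lemma ifq_le : ifq I ≤ 2 ^ (L * L) := by
  have h1 := prod_den_le (range I.k) I.den L (fun i hi => I.den_le' L hb i (Finset.mem_range.mp hi))
  rw [Finset.card_range] at h1
  exact h1.trans (Nat.pow_le_pow_right (by norm_num) (Nat.mul_le_mul_left _ hkL))

include hkL hb' in
private lemma ifw_le : ifw I ≤ 2 ^ (L * L) := by
  have h1 := prod_den_le (Finset.univ : Finset (Fin I.k)) I.uDen L (fun i _ => (hb' i).2)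
  rw [Finset.card_univ, Fintype.card_fin] at h1
  exact h1.trans (Nat.pow_le_pow_right (by norm_num) (Nat.mul_le_mul_left _ hkL))

include hkL hb in
private lemma ifb_le (t : ℕ) (ht : t < I.k) : (ifb I t).natAbs ≤ 2 ^ (L * L + L * L * L) := by
  have h1 := prod_den_le ((range I.k).erase t) I.den L
    (fun i hi => I.den_le' L hb i (Finset.mem_range.mp (Finset.mem_of_mem_erase hi)))
  rw [Finset.card_erase_of_mem (Finset.mem_range.mpr ht), Finset.card_range] at h1
  have h2 := I.num_le' L hb t ht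
  have h3 := ifq_le I L hkL hb
  have h4 : (ifb I t).natAbs = (I.num t).natAbs * (∏ s ∈ (range I.k).erase t, I.den s) *
      (ifq I) ^ t := by
    rw [ifb, Int.natAbs_mul, Int.natAbs_mul, Int.natAbs_pow, Int.natAbs_natCast,
      ← Nat.cast_prod, Int.natAbs_natCast]
  rw [h4]
  calc (I.num t).natAbs * (∏ s ∈ (range I.k).erase t, I.den s) * (ifq I) ^ t
      ≤ 2 ^ L * 2 ^ (L * (I.k - 1)) * (2 ^ (L * L)) ^ t := by gcongr
    _ = 2 ^ (L + L * (I.k - 1) + L * L * t) := by rw [← pow_mul, ← pow_add, ← pow_add]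
    _ ≤ 2 ^ (L * L + L * L * L) := by
        apply Nat.pow_le_pow_right (by norm_num)
        have e1 : L + L * (I.k - 1) ≤ L * L := by
          have : L + L * (I.k - 1) = L * (I.k - 1 + 1) := by ring
          rw [this]
          exact Nat.mul_le_mul_left _ (by omega)
        have e2 : L * L * t ≤ L * L * L := Nat.mul_le_mul_left _ (by omega)
        omega

end bounds

private lemma if_sizes (L : ℕ) : L ≤ (L + 3) ^ 4 ∧ L * L + L * L * L ≤ (L + 3) ^ 4 ∧
    L * L + 2 * L ≤ (L + 3) ^ 4 ∧ L * L ≤ (L + 3) ^ 4 ∧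
    L * L * L + L * L + L ≤ (L + 3) ^ 4 := by
  have e : (L + 3) ^ 4 = L ^ 4 + 12 * (L * L * L) + 54 * (L * L) + 108 * L + 81 := by ring
  rw [e]
  refine ⟨?_, ?_, ?_, ?_, ?_⟩ <;> nlinarith [Nat.zero_le (L ^ 4), Nat.zero_le (L * L * L),
    Nat.zero_le (L * L)]

theorem Inst.few_violations : ∃ d : ℕ, ∀ I : Inst, I.Simple → I.UltimatelyPositive →
    ∀ v : ℕ → ℚ, I.IsSeq v → ∀ X : ℕ, 2 ^ ((I.enc.length + 2) ^ d) ≤ X →
      ((Finset.Ico X (2 * X)).filter fun n => v n ≤ 0).card ≤ 2 ^ ((I.enc.length + 2) ^ d) := by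
  refine ⟨25, fun I hS hUP v hv X hX => ?_⟩
  obtain ⟨kk, sg, nb, db, -, -, -, -, hI⟩ := exists_parser
  obtain ⟨-, hkL, -, -, -, -, hbd⟩ := hI I
  obtain ⟨L, hL⟩ : ∃ L, L = I.enc.length := ⟨_, rfl⟩
  rw [← hL] at hkL hbd hX ⊢
  have hb : ∀ i, (I.aNum i).natAbs ≤ 2 ^ L ∧ I.aDen i ≤ 2 ^ L :=
    fun i => ⟨(hbd i).1.le, (hbd i).2.1.le⟩
  have hb' : ∀ i, (I.uNum i).natAbs ≤ 2 ^ L ∧ I.uDen i ≤ 2 ^ L :=
    fun i => ⟨(hbd i).2.2.1.le, (hbd i).2.2.2.le⟩
  obtain ⟨z1, z2, z3, z4, z5⟩ := if_sizes L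
  obtain ⟨Q, hQ⟩ : ∃ Q, Q = pg L + (L + 3) ^ 4 := ⟨_, rfl⟩
  have hpQ : pg L ≤ Q := by omega
  have hQ4 : (L + 3) ^ 4 ≤ Q := by omega
  -- the roots
  obtain ⟨l, c, ex, hrd, -, -⟩ := exists_rootData I.k I.aQ I.uQ
  have ha : ∀ t (h : t < I.k), (fun t => ((I.aQ t : ℚ) : ℝ)) t = (I.a ⟨t, h⟩ : ℝ) := by
    intro t h
    simp only [Inst.aQ, h, dif_pos]
  have hex : ∀ i, i < I.k → ex i = 0 := by
    intro i hi
    by_contra hne
    have h1 := (I.simple_iff (fun t => ((I.aQ t : ℚ) : ℝ)) ha).mp hS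
    exact h1 ⟨l i, fun e he => hrd.2.2.1 i hi e (by omega)⟩
  have hroot : ∀ i : Fin I.k, l i ^ I.k =
      ∑ t ∈ range I.k, ((I.num t : ℂ) / (I.den t : ℂ)) * l i ^ (I.k - 1 - t) :=
    fun i => I.root_eq' _ _ ha hrd i
  have hinj : ∀ i j : Fin I.k, l i = l j → i = j := by
    intro i j hij
    by_contra hne
    have hne' : (i : ℕ) ≠ j := fun h => hne (Fin.ext h)
    rcases hrd.2.1 i i.2 j j.2 hne' with h | h
    · exact h hij
    · exact h (by rw [hex i i.2, hex j j.2])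
  -- the number field
  obtain ⟨p, hp⟩ : ∃ p, p = ipoly I.k I.num I.den := ⟨_, rfl⟩
  have hp0 : p ≠ 0 := by
    rw [hp]
    exact ipoly_ne_zero _ _ _ I.den_pos'
  have hmem : ∀ i : Fin I.k, l i ∈ IntermediateField.adjoin ℚ (p.rootSet ℂ) := fun i =>
    IntermediateField.subset_adjoin _ _ ((mem_rootSet_of_ne hp0).mpr (by
      rw [hp]
      exact ipoly_aeval _ _ _ I.den_pos' (l i) (hroot i)))
  have hNF : NumberField (IntermediateField.adjoin ℚ (p.rootSet ℂ)) := numberField_adjoin p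
  have hfin : Module.finrank ℚ (IntermediateField.adjoin ℚ (p.rootSet ℂ)) ≤ I.k.factorial :=
    finrank_adjoin_le I.k p (by
      rw [hp]
      exact ipoly_natDegree _ _ _)
  obtain ⟨ψ, hψ⟩ : ∃ ψ : IntermediateField.adjoin ℚ (p.rootSet ℂ) →+* ℂ, ∀ x, ψ x = (x : ℂ) :=
    ⟨algebraMap _ ℂ, fun x => rfl⟩
  obtain ⟨y, hy0⟩ : ∃ y : Fin I.k → IntermediateField.adjoin ℚ (p.rootSet ℂ),
      ∀ i, ψ (y i) = l i := ⟨fun i => ⟨l i, hmem i⟩, fun i => hψ _⟩
  generalize hFdef : IntermediateField.adjoin ℚ (p.rootSet ℂ) = E at *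
  have hy : ∀ i, y i ^ I.k =
      ∑ t ∈ range I.k, ((I.num t : E) / (I.den t : E)) * y i ^ (I.k - 1 - t) := by
    intro i
    apply ψ.injective
    rw [map_pow, map_sum, hy0, hroot i]
    apply Finset.sum_congr rfl
    intro t _
    rw [map_mul, map_div₀, map_pow, map_intCast, map_natCast, hy0]
  have hq0 : (ifq I : E) ≠ 0 := by exact_mod_cast (ifq_pos I).ne'
  obtain ⟨l', hl'⟩ : ∃ l' : Fin I.k → E, ∀ i, l' i = (ifq I : E) * y i := ⟨_, fun _ => rfl⟩
  have hl'inj : Function.Injective l' := by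
    intro i j hij
    rw [hl', hl'] at hij
    have h1 := mul_left_cancel₀ hq0 hij
    apply hinj
    rw [← hy0, ← hy0, h1]
  have hr' : ∀ i, l' i ^ I.k =
      ∑ t ∈ range I.k, ((ifb I t : ℤ) : E) * l' i ^ (I.k - 1 - t) := by
    intro i
    rw [hl', mul_pow, hy, mul_sum]
    apply Finset.sum_congr rfl
    intro t ht
    rw [Finset.mem_range] at ht
    rw [ifb_cast I t ht, mul_pow]
    have h1 : (ifq I : E) ^ I.k = (ifq I : E) ^ (t + 1) * (ifq I : E) ^ (I.k - 1 - t) := by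
      rw [← pow_add]
      congr 1
      omega
    rw [h1]
    ring
  -- the integer sequence
  obtain ⟨v', hv1, hv2⟩ := if_int hv
  obtain ⟨c', hc'⟩ := if_rep I.k l' hl'inj (fun t => ((ifb I t : ℤ) : E)) hr'
    (fun n => ((v' n : ℤ) : E)) (by
      intro n hn
      rw [hv2 n hn]
      push_cast
      rfl)
  have hqw : ∀ n, (0 : ℚ) < (ifq I : ℚ) ^ n * ifw I := by
    intro n
    have h1 : (0 : ℚ) < ifq I := by exact_mod_cast ifq_pos I
    have h2 : (0 : ℚ) < ifw I := by exact_mod_cast ifw_pos I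
    positivity
  have hsign : ∀ n, 0 < v n ↔ 0 < v' n := by
    intro n
    have h1 : (0 : ℚ) < (v' n : ℚ) ↔ 0 < v n := by
      rw [hv1]
      exact mul_pos_iff_of_pos_left (hqw n)
    rw [← h1]
    exact_mod_cast Iff.rfl
  -- bounds
  have hqle := ifq_le I L hkL hb
  have hwle := ifw_le I L hkL hb'
  have hpow : ∀ a, a ≤ (L + 3) ^ 4 → 2 ^ a ≤ 2 ^ Q := fun a ha =>
    Nat.pow_le_pow_right (by norm_num) (ha.trans hQ4)
  have hpowR : ∀ a, a ≤ (L + 3) ^ 4 → (2 : ℝ) ^ a ≤ 2 ^ Q := fun a ha =>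
    pow_le_pow_right₀ (by norm_num) (ha.trans hQ4)
  have hfew := AlmostPos.few_violations ψ Q I.k I.kpos (hkL.trans (z1.trans hQ4)) l' hl'inj
    (ifp I.k (ifb I)) (ifp_monic _ _) (ifp_natDegree _ _) (fun i => ifp_aeval _ _ _ (hr' i))
    (ifp_coeff_le I.k (ifb I) (2 ^ Q) Nat.one_le_two_pow
      (fun t ht => (ifb_le I L hkL hb t ht).trans (hpow _ z2)) _)
    (by
      intro φ i
      have h1 : φ (y i) ^ I.k =
          ∑ t ∈ range I.k, ((I.num t : ℂ) / (I.den t : ℂ)) * φ (y i) ^ (I.k - 1 - t) := by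
        rw [← map_pow, hy, map_sum]
        apply Finset.sum_congr rfl
        intro t _
        rw [map_mul, map_div₀, map_pow, map_intCast, map_natCast]
      have h2 := root_norm_le I.k I.num I.den L hkL I.den_pos' (I.num_le' L hb) _ h1
      rw [hl', map_mul, map_natCast, norm_mul, Complex.norm_natCast]
      have h3 : (ifq I : ℝ) ≤ 2 ^ (L * L) := by exact_mod_cast hqle
      calc (ifq I : ℝ) * ‖φ (y i)‖ ≤ 2 ^ (L * L) * 2 ^ (2 * L) := by gcongr
        _ = 2 ^ (L * L + 2 * L) := by rw [← pow_add]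
        _ ≤ 2 ^ Q := hpowR _ z3)
    (by
      refine hfin.trans ?_
      calc I.k.factorial ≤ I.k ^ I.k := Nat.factorial_le_pow I.k
        _ ≤ (2 ^ L) ^ I.k := Nat.pow_le_pow_left (hkL.trans Nat.lt_two_pow_self.le) _
        _ = 2 ^ (L * I.k) := by rw [← pow_mul]
        _ ≤ 2 ^ (L * L) := Nat.pow_le_pow_right (by norm_num) (Nat.mul_le_mul_left _ hkL)
        _ ≤ 2 ^ Q := hpow _ z4)
    (by
      intro i j hij
      rw [hl', hl', map_mul, map_mul, map_natCast, norm_mul, norm_mul, Complex.norm_natCast,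
        hy0, hy0] at hij ⊢
      have hq1 : (0 : ℝ) < ifq I := by exact_mod_cast ifq_pos I
      have h1 : ‖l i‖ < ‖l j‖ := lt_of_mul_lt_mul_left hij hq1.le
      have h2 := gap_of_roots I.k I.num I.den L hkL I.den_pos' (I.num_le' L hb)
        (I.den_le' L hb) (l i) (l j) (hroot i) (hroot j) h1
      have h3 : (1 : ℝ) / 2 ^ Q ≤ 1 / 2 ^ pg L :=
        one_div_le_one_div_of_le (by positivity) (pow_le_pow_right₀ (by norm_num) hpQ)
      calc (ifq I : ℝ) * ‖l i‖ ≤ ifq I * ((1 - 1 / 2 ^ pg L) * ‖l j‖) := by gcongr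
        _ ≤ ifq I * ((1 - 1 / 2 ^ Q) * ‖l j‖) := by gcongr
        _ = (1 - 1 / 2 ^ Q) * (ifq I * ‖l j‖) := by ring)
    v' (by
      intro n hn
      have h1 : |(v' n : ℚ)| ≤ 2 ^ Q := by
        rw [hv1, abs_mul, abs_of_pos (hqw n)]
        have h2 : |v n| ≤ 2 ^ L := by
          have h3 := hv.1 ⟨n, hn⟩
          simp only [Inst.u] at h3
          rw [h3, abs_div, Nat.abs_cast]
          have h4 : (1 : ℚ) ≤ I.uDen ⟨n, hn⟩ := by exact_mod_cast I.uDen_pos _
          have h5 : |(I.uNum ⟨n, hn⟩ : ℚ)| ≤ 2 ^ L := by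
            have := (hb' ⟨n, hn⟩).1
            rw [← Int.cast_abs, Int.abs_eq_natAbs]
            exact_mod_cast this
          exact (div_le_self (abs_nonneg _) h4).trans h5
        have h6 : (ifq I : ℚ) ≤ 2 ^ (L * L) := by exact_mod_cast hqle
        have h7 : (ifw I : ℚ) ≤ 2 ^ (L * L) := by exact_mod_cast hwle
        calc (ifq I : ℚ) ^ n * ifw I * |v n| ≤ (2 ^ (L * L)) ^ n * 2 ^ (L * L) * 2 ^ L := by
              gcongr
          _ = 2 ^ (L * L * n + L * L + L) := by rw [← pow_mul, ← pow_add, ← pow_add]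
          _ ≤ 2 ^ (L * L * L + L * L + L) := by
              apply pow_le_pow_right₀ (by norm_num)
              have : L * L * n ≤ L * L * L := Nat.mul_le_mul_left _ (by omega)
              omega
          _ ≤ 2 ^ Q := pow_le_pow_right₀ (by norm_num) (z5.trans hQ4)
      exact_mod_cast h1)
    c' hc' (by
      obtain ⟨N, hN⟩ := hUP v hv
      exact ⟨N, fun n hn => (hsign n).mp (hN n hn)⟩) X (by
      refine le_trans (Nat.pow_le_pow_right (by norm_num) ?_) hX
      rw [hQ]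
      exact if_size L)
  have hfilter : (Finset.Ico X (2 * X)).filter (fun n => v n ≤ 0) =
      (Finset.Ico X (2 * X)).filter (fun n => v' n ≤ 0) := by
    apply Finset.filter_congr
    intro n _
    rw [← not_lt, ← not_lt, hsign n]
  rw [hfilter]
  refine hfew.trans (Nat.pow_le_pow_right (by norm_num) ?_)
  rw [hQ]
  exact if_size L

end Pool.Agent.UltPos
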