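import Pool.Agent.AlmostPos.Defs
import Pool.Agent.DD7719.TLang

/-! AP11. The language is in `∀ℝ`. -/

set_option autoImplicit false

namespace Pool.Agent.UltPos

open Pool.Agent.PT Pool.Agent.AllR Pool.Agent.DD7719.M Pool.Agent.DD7719 Finset

/- TEMPLATE: the proof of `inForallR_simple` (end of DD7719/Lang.lean) with one more disjunct, the
small index predicate `re_small kk (fun x => (x.length + 2)^c) ..` exactly as in `inForallR_tame`
(DD7719/TLang.lean), both directions as there. The exponent `(x.length + 2)^c` is a `UF` function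
(`UF.pow`, `UF.add`, `UF.len`, `UF.const`). -/

theorem inForallR_VC (c : ℕ) : InForallR {w : List ISym | ∃ I : Inst, w = I.enc ∧ I.VC c} := by
  obtain ⟨kk, sg, nb, db, hkk, hsg, hnb, hdb, hI⟩ := exists_parser
  have h2 : RF (Γ := ISym) (fun _ _ _ => (2 : ℝ)) :=
    (RF.nat (UF.const 2)).congr fun _ _ _ => by norm_num
  have hε : RF (Γ := ISym) (fun x _ _ => (2 : ℝ) / ((2 ^ pq x.length : ℕ) : ℝ)) :=
    (h2.div (h2.pow (uf_pq UF.len))).congr fun x e α => by push_cast; rfl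
  have hδ : RF (Γ := ISym) (fun x _ _ => (1 : ℝ) / 2 ^ pdl x.length) :=
    RF.one.div (h2.pow (uf_pdl UF.len))
  have hfa : ∀ (I : Inst) (t : ℕ) (ht : t < I.k), fieldR sg nb db 0 I.enc t = (I.a ⟨t, ht⟩ : ℝ) := by
    intro I t ht
    obtain ⟨e1, e2, e3, e4, e5, e6, e7⟩ := hI I
    rw [Inst.a, fieldR]
    push_cast
    have h3 := congrArg (fun z : ℤ => (z : ℝ)) (e3 ⟨t, ht⟩)
    have h4 := congrArg (fun z : ℤ => (z : ℝ)) (e4 ⟨t, ht⟩)
    simp only at h3 h4
    push_cast at h3 h4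
    rw [h3, h4]
  have hfu : ∀ (I : Inst) (t : ℕ) (ht : t < I.k), fieldR sg nb db 1 I.enc t = (I.u ⟨t, ht⟩ : ℝ) := by
    intro I t ht
    obtain ⟨e1, e2, e3, e4, e5, e6, e7⟩ := hI I
    rw [Inst.u, fieldR]
    push_cast
    have h3 := congrArg (fun z : ℤ => (z : ℝ)) (e5 ⟨t, ht⟩)
    have h4 := congrArg (fun z : ℤ => (z : ℝ)) (e6 ⟨t, ht⟩)
    simp only at h3 h4
    push_cast at h3 h4
    rw [h3, h4]
  have hcert := re_cert kk (fun x => pbm x.length) (fun x => pbn x.length)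
    (fieldR sg nb db 0) (fieldR sg nb db 1) _ _ hkk (uf_pbm UF.len) (uf_pbn UF.len)
    (rf_fieldR 0 hsg hnb hdb) (rf_fieldR 1 hsg hnb hdb) hε hδ
  have hdbl := re_double kk (fieldR sg nb db 0) hkk (rf_fieldR 0 hsg hnb hdb)
  have hsmall := re_small kk (fun x => (x.length + 2) ^ c) (fieldR sg nb db 0)
    (fieldR sg nb db 1) hkk (UF.pow (UF.len.add (UF.const 2)) c) (rf_fieldR 0 hsg hnb hdb)
    (rf_fieldR 1 hsg hnb hdb)
  refine RE.inForallR ((((RE.up up_valid.not).or hdbl).or hcert).or hsmall) _ fun x => ?_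
  have hsimp : ∀ I : Inst, I.Simple ↔ ¬ DoubleRoot (kk I.enc) (fieldR sg nb db 0 I.enc) := by
    intro I
    rw [(hI I).1]
    exact I.simple_iff _ (hfa I)
  have hkey : ∀ I : Inst, (¬ (I.UltimatelyPositive ∧ ¬ I.CriticalM)) ↔ ∃ (l c : ℕ → ℂ) (ex : ℕ → ℕ),
      RootData (kk I.enc) (fieldR sg nb db 0 I.enc) (fieldR sg nb db 1 I.enc) l c ex ∧
      CertN (kk I.enc) l c ex (pbm I.enc.length) (pbn I.enc.length)
        (2 / ((2 ^ pq I.enc.length : ℕ) : ℝ)) (1 / 2 ^ pdl I.enc.length) := by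
    intro I
    obtain ⟨e1, e2, e3, e4, e5, e6, e7⟩ := hI I
    rw [e1]
    exact I.cert_iff I.enc.length e2 (fun i => ⟨(e7 i).1.le, (e7 i).2.1.le⟩) _ _ (hfa I) (hfu I)
  constructor
  · rintro ⟨I, rfl, h1, h2, hpos⟩ ⟨α, ((h3 | h3) | h3) | h3⟩
    · exact h3 ⟨I, rfl⟩
    · exact (hsimp I).mp h1 h3
    · exact (hkey I).mpr h3 ⟨h2, h1.not_criticalM⟩
    · obtain ⟨l, c', ex, hrd, n, hn, hle⟩ := h3
      have hIk := (hI I).1
      obtain ⟨v, hv, -⟩ := I.exists_unique_seq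
      rw [hIk] at hrd hle
      have h5 := I.all' _ _ (hfa I) (hfu I) v hv hrd n
      rw [← Finset.sum_range (fun i => c' i * (n.choose (ex i) : ℂ) * l i ^ (n - ex i))] at h5
      rw [termN, h5, Complex.ofReal_re] at hle
      have h6 : 0 < ((v n : ℚ) : ℝ) := by exact_mod_cast hpos v hv n hn
      linarith
  · intro h
    have h1 : ∃ I : Inst, x = I.enc := by
      by_contra hcon
      exact h ⟨fun _ => 0, Or.inl (Or.inl (Or.inl hcon))⟩
    obtain ⟨I, rfl⟩ := h1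
    have h2 : I.UltimatelyPositive ∧ ¬ I.CriticalM := by
      by_contra hcon
      exact h ⟨fun _ => 0, Or.inl (Or.inr ((hkey I).mp hcon))⟩
    have h3 : I.Simple := by
      by_contra hcon
      rw [hsimp I, not_not] at hcon
      exact h ⟨fun _ => 0, Or.inl (Or.inl (Or.inr hcon))⟩
    refine ⟨I, rfl, h3, h2.1, ?_⟩
    intro v hv n hn
    by_contra hcon
    push Not at hcon
    apply h
    refine ⟨fun _ => 0, Or.inr ?_⟩
    obtain ⟨l, c', ex, hrd⟩ := I.exists_rootData' _ _ (hfa I) (hfu I)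
    refine ⟨l, c', ex, ?_, n, hn, ?_⟩
    · rw [(hI I).1]
      exact hrd
    · have h6 := I.all' _ _ (hfa I) (hfu I) v hv hrd n
      rw [← Finset.sum_range (fun i => c' i * (n.choose (ex i) : ℂ) * l i ^ (n - ex i))] at h6
      rw [(hI I).1, termN, h6, Complex.ofReal_re]
      exact_mod_cast hcon

end Pool.Agent.UltPos
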