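import Mathlib

/-! AP4. Liouville's inequality. -/

set_option autoImplicit false

namespace Pool.Agent.AlmostPos

/- PROOF SKETCH. `Algebra.norm ℚ x` is the product of all `φ x` over the `finrank` embeddings
(`Algebra.norm_eq_prod_embeddings`; `ψ` is one of them, all others have `‖φ x‖ ≤ B`), it is a nonzero
integer (`Algebra.isIntegral_norm`, `IsIntegrallyClosed ℤ`), so its absolute value is `≥ 1`. See also
`DD7719/HtLower.lean` (`sum_embeddings_eq`) for the translation between `F →+* ℂ` and `F →ₐ[ℚ] ℂ`. -/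

/-- A nonzero algebraic integer of degree at most `D` all of whose conjugates are at most `B` has
absolute value at least `1 / B ^ D`. -/
theorem liouville {F : Type} [Field F] [NumberField F] (ψ : F →+* ℂ) (x : F)
    (hx : IsIntegral ℤ x) (hx0 : x ≠ 0) (B : ℝ) (hB : 1 ≤ B)
    (h : ∀ φ : F →+* ℂ, ‖φ x‖ ≤ B) (D : ℕ) (hD : Module.finrank ℚ F ≤ D) :
    1 ≤ ‖ψ x‖ * B ^ D := by
  classical
  have h1 : IsIntegral ℤ (Algebra.norm ℚ x) := Algebra.isIntegral_norm ℚ hx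
  obtain ⟨n, hn⟩ := IsIntegrallyClosed.isIntegral_iff.1 h1
  have hn0 : n ≠ 0 := by
    rintro rfl
    rw [map_zero] at hn
    exact (Algebra.norm_ne_zero_iff.2 hx0) hn.symm
  have h2 := Algebra.norm_eq_prod_embeddings ℚ ℂ x
  have h3 : ‖algebraMap ℚ ℂ (Algebra.norm ℚ x)‖ = |(n : ℝ)| := by
    rw [← hn]
    simp
  have h4 : (1 : ℝ) ≤ |(n : ℝ)| := by
    rw [← Int.cast_abs]
    exact_mod_cast Int.one_le_abs hn0
  have h5 : |(n : ℝ)| = ∏ σ : F →ₐ[ℚ] ℂ, ‖σ x‖ := by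
    rw [← h3, h2, norm_prod]
  let σ₀ : F →ₐ[ℚ] ℂ := ψ.toRatAlgHom
  have h6 : ∏ σ : F →ₐ[ℚ] ℂ, ‖σ x‖ = ‖σ₀ x‖ * ∏ σ ∈ Finset.univ.erase σ₀, ‖σ x‖ :=
    (Finset.mul_prod_erase _ _ (Finset.mem_univ σ₀)).symm
  have h7 : ∏ σ ∈ Finset.univ.erase σ₀, ‖σ x‖ ≤ B ^ D := by
    calc ∏ σ ∈ Finset.univ.erase σ₀, ‖σ x‖ ≤ ∏ _σ ∈ Finset.univ.erase σ₀, B :=
          Finset.prod_le_prod (fun _ _ => norm_nonneg _) fun σ _ => h (σ : F →+* ℂ)
      _ = B ^ (Finset.univ.erase σ₀).card := by rw [Finset.prod_const]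
      _ ≤ B ^ D := by
          refine pow_le_pow_right₀ hB ?_
          refine (Finset.card_le_card (Finset.erase_subset _ _)).trans ?_
          rw [Finset.card_univ, AlgHom.card]
          exact hD
  have h8 : ‖σ₀ x‖ = ‖ψ x‖ := rfl
  rw [h5, h6, h8] at h4
  exact h4.trans (mul_le_mul_of_nonneg_left h7 (norm_nonneg _))

end Pool.Agent.AlmostPos
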