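import Pool.Agent.AlmostPos.SimpleS
import Pool.Agent.DD7719.MLang

/-! Positivity of simple recurrences on a universal set of indices. -/

set_option autoImplicit false

namespace Pool.Agent.UltPos

open Pool.Agent.PT Pool.Agent.AllR Pool.Agent.DD7719.M Pool.Agent.DD7719 Finset Filter Topology

/-- The terms of the instance are positive at all indices `n ∈ S` and at all indices
`n < 2 ^ ((L + 2) ^ c)`, where `L` is the length of the code of the instance. -/
def Inst.PosOn (I : Inst) (c : ℕ) (S : Set ℕ) : Prop :=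
  ∀ v : ℕ → ℚ, I.IsSeq v → ∀ n, (n < 2 ^ ((I.enc.length + 2) ^ c) ∨ n ∈ S) → 0 < v n

theorem largeViolations_anti {c c' : ℕ} (h : c ≤ c') : largeViolations c' ⊆ largeViolations c := by
  rintro n ⟨I, ⟨h1, h2, h3⟩, v, hv, hn⟩
  refine ⟨I, ⟨h1, h2, fun w hw m hm => h3 w hw m (lt_of_lt_of_le hm ?_)⟩, v, hv, hn⟩
  exact Nat.pow_le_pow_right (by norm_num) (Nat.pow_le_pow_right (by omega) h)

private lemma main_growth (κ : ℕ) : ∃ N : ℕ, ∀ L : ℕ, N ≤ L → ∀ c : ℕ, 1 ≤ c →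
    κ * (L + 1) ≤ 2 ^ ((L + 2) ^ c) := by
  refine ⟨κ, fun L hL c hc => ?_⟩
  have h1 : (L + 2) ^ 1 ≤ (L + 2) ^ c := Nat.pow_le_pow_right (by omega) hc
  rw [pow_one] at h1
  have h2 : L + 1 ≤ 2 ^ (L + 1) := Nat.lt_two_pow_self.le
  have h3 : ∀ m : ℕ, m * (m + 1) ≤ 2 ^ (m + 2) := by
    intro m
    induction m with
    | zero => norm_num
    | succ m ih =>
      have h4 : m ≤ 2 ^ m := Nat.lt_two_pow_self.le
      have e1 : (m + 1) * (m + 1 + 1) = m * (m + 1) + 2 * (m + 1) := by ring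
      have e2 : 2 ^ (m + 1 + 2) = 2 ^ (m + 2) + 4 * 2 ^ m := by ring
      have e3 : 1 ≤ 2 ^ m := Nat.one_le_two_pow
      rw [e1, e2]
      omega
  calc κ * (L + 1) ≤ L * (L + 1) := Nat.mul_le_mul_right _ hL
    _ ≤ 2 ^ (L + 2) := h3 L
    _ ≤ 2 ^ ((L + 2) ^ c) := Nat.pow_le_pow_right (by norm_num) h1

/-- **Simple recurrences, universal set of indices.** -/
theorem simple_main (δ : ℝ) (hδ : 0 < δ) : ∃ (c₀ : ℕ) (S : Set ℕ),
    (∀ᶠ X : ℕ in atTop, ((Sᶜ ∩ Set.Iio X).ncard : ℝ) ≤ 2 ^ ((Real.logb 2 X) ^ δ)) ∧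
    ∀ c, c₀ ≤ c → InForallR {w : List ISym | ∃ I : Inst, w = I.enc ∧ I.Simple ∧ I.PosOn c S} ∧
      ∀ a : List ℚ, {w : List ISym | ∃ I : Inst, w = I.enc ∧ List.ofFn I.a = a ∧ I.Simple ∧
        I.PosOn c S ∧ ¬ I.Positive}.Finite := by
  obtain ⟨c0, hc0⟩ := largeViolations_sparse (min δ (1 / 2)) (lt_min hδ (by norm_num))
  have hc : ∀ᶠ X : ℕ in atTop, ((largeViolations c0 ∩ Set.Iio X).ncard : ℝ) ≤
      2 ^ ((Real.logb 2 X) ^ (min δ (1 / 2))) := hc0
  have key : ∀ c, c0 ≤ c → ∀ I : Inst,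
      (I.Simple ∧ I.PosOn c (largeViolations c0)ᶜ) ↔ I.VC c := by
    intro c hcc I
    constructor
    · rintro ⟨hS, h⟩
      refine ⟨hS, hS.up_of_aePositive ?_, fun v hv n hn => h v hv n (Or.inl hn)⟩
      refine aePositive_of_set I (largeViolations c0)ᶜ (fun v hv n hn => h v hv n (Or.inr hn)) ?_
      rw [compl_compl]
      exact density_zero_of_sparse _ _ (lt_of_le_of_lt (min_le_right _ _) (by norm_num)) hc
    · rintro ⟨hS, hUP, h⟩
      refine ⟨hS, fun v hv n hn => ?_⟩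
      rcases hn with hn | hn
      · exact h v hv n hn
      · by_contra hcon
        exact hn (largeViolations_anti hcc ⟨I, ⟨hS, hUP, h⟩, v, hv, not_lt.mp hcon⟩)
  refine ⟨c0 + 1, (largeViolations c0)ᶜ, ?_, fun c hcc => ⟨?_, ?_⟩⟩
  · rw [compl_compl]
    have hlog : Tendsto (fun X : ℕ => Real.logb 2 X) atTop atTop :=
      (Real.tendsto_logb_atTop (by norm_num)).comp tendsto_natCast_atTop_atTop
    filter_upwards [hc, hlog.eventually_ge_atTop 1] with X hX h1
    refine hX.trans (Real.rpow_le_rpow_of_exponent_le (by norm_num) ?_)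
    exact Real.rpow_le_rpow_of_exponent_le h1 (min_le_left _ _)
  · simp only [key c (by omega)]
    exact inForallR_VC c
  · intro a
    obtain ⟨κ, hκ⟩ := exists_linear_threshold a
    obtain ⟨N, hN⟩ := main_growth κ
    refine (List.finite_length_lt ISym N).subset ?_
    rintro w ⟨I, rfl, ha, hS, hP, hnp⟩
    change I.enc.length < N
    by_contra hcon
    apply hnp
    intro v hv n
    rcases Nat.lt_or_ge n (2 ^ ((I.enc.length + 2) ^ c)) with h | h
    · exact hP v hv n (Or.inl h)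
    · exact hκ I ha hS ((key c (by omega) I).mp ⟨hS, hP⟩).2.1 v hv n
        ((hN I.enc.length (by omega) c (by omega)).trans h)

end Pool.Agent.UltPos
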