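import Mathlib

/-! AP2. A common period modulo `M` of the powers of all roots of a monic integer polynomial. -/

set_option autoImplicit false

namespace Pool.Agent.AlmostPos

open Polynomial

/- PROOF SKETCH. Pigeonhole: the map `i ↦` (coefficients of `X^i %ₘ f` modulo `M`) from
`{0, .., M^d}` to `Fin d → ZMod M`, `d = f.natDegree`, is not injective, so for some `i < j ≤ M^d`
all coefficients of `X^j %ₘ f - X^i %ₘ f` are divisible by `M`; `T = j - i`. -/

/-- The powers of the roots of `f` are eventually periodic modulo `M`, with one period. -/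
theorem exists_period (f : ℤ[X]) (hf : f.Monic) (M : ℕ) (hM : 0 < M) :
    ∃ i T : ℕ, 0 < T ∧ i + T ≤ M ^ f.natDegree ∧ ∃ g h : ℤ[X],
      X ^ i * (X ^ T - 1) = f * g + C (M : ℤ) * h := by
  haveI : NeZero M := ⟨hM.ne'⟩
  let φ : Fin (M ^ f.natDegree + 1) → (Fin f.natDegree → ZMod M) := fun i n =>
    (((X ^ (i : ℕ) %ₘ f).coeff n : ℤ) : ZMod M)
  have hcard : Fintype.card (Fin f.natDegree → ZMod M) <
      Fintype.card (Fin (M ^ f.natDegree + 1)) := by
    rw [Fintype.card_fun, ZMod.card, Fintype.card_fin, Fintype.card_fin]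
    exact Nat.lt_succ_self _
  obtain ⟨i, j, hij, he⟩ := Fintype.exists_ne_map_eq_of_card_lt φ hcard
  wlog hlt : i < j generalizing i j
  · exact this j i hij.symm he.symm (lt_of_le_of_ne (not_lt.1 hlt) hij.symm)
  have hdvd : C (M : ℤ) ∣ (X ^ (j : ℕ) %ₘ f - X ^ (i : ℕ) %ₘ f) := by
    rw [C_dvd_iff_dvd_coeff]
    intro n
    rw [coeff_sub]
    by_cases hn : n < f.natDegree
    · have h1 := congrFun he ⟨n, hn⟩
      simp only [φ] at h1
      exact (ZMod.intCast_eq_intCast_iff_dvd_sub _ _ _).1 h1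
    · have h2 : ∀ p : ℤ[X], (p %ₘ f).coeff n = 0 := by
        intro p
        refine coeff_eq_zero_of_degree_lt ((degree_modByMonic_lt p hf).trans_le ?_)
        rw [degree_eq_natDegree hf.ne_zero]
        exact_mod_cast not_lt.1 hn
      rw [h2, h2, sub_zero]
      exact dvd_zero _
  obtain ⟨h, hh⟩ := hdvd
  have hij' : (i : ℕ) < j := hlt
  refine ⟨i, j - i, Nat.sub_pos_of_lt hij', ?_, X ^ (j : ℕ) /ₘ f - X ^ (i : ℕ) /ₘ f, h, ?_⟩
  · have := j.2
    omega
  · have e1 := modByMonic_add_div (X ^ (j : ℕ)) f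
    have e2 := modByMonic_add_div (X ^ (i : ℕ)) f
    have e3 : (X : ℤ[X]) ^ (i : ℕ) * (X ^ ((j : ℕ) - i) - 1) = X ^ (j : ℕ) - X ^ (i : ℕ) := by
      rw [mul_sub, ← pow_add, mul_one, Nat.add_sub_cancel' hij'.le]
    rw [e3, ← hh]
    linear_combination -e1 + e2

end Pool.Agent.AlmostPos
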