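import Pool.Agent.AlmostPos.Padic
import Pool.Agent.AlmostPos.Period

/-! AP3. A modulus `T` such that the `T`-th powers of the roots have nonvanishing generalised
Vandermonde determinants. -/

set_option autoImplicit false

namespace Pool.Agent.AlmostPos

open Polynomial

/- PROOF SKETCH (uses AP1 = `det_pow_ne_zero` and AP2 = `exists_period`).
Choose a prime `p` with `b + 2k + 2 < p ≤ 2 (b + 2k + 2)` (`Nat.exists_prime_lt_and_le_two_mul`) and
apply AP2 with `M = p^2`: `T ≤ (p^2)^(natDegree f) ≤ (4 (b + k + 1))^(2k)` (if the constant is not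
quite right take any bound of the same shape and tell helper26; `f.natDegree = 0` is trivial: then
there are no roots, `ι` is empty). `E = PadicAlgCl p` (Mathlib.NumberTheory.Padics.Complex),
`σ : F →+* E` from `IsAlgClosed.lift` (`F` is algebraic over `ℚ`). For `x` a root of `f`:
`‖σ x‖ ≤ 1` (monic integral equation, integers have norm `≤ 1`), and `‖σ x‖ = 1` if `x ≠ 0`: dividing
`f(x) = 0` by `x^z`, `z = natTrailingDegree f`, gives `‖trailingCoeff‖ ≤ ‖σ x‖`, and the trailing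
coefficient is prime to `p` because `0 < |trailingCoeff| ≤ b < p`. From AP2
`σ x ^ i * (σ x ^ T - 1) = p^2 * h(σ x)`, so `‖σ x ^ T - 1‖ ≤ ‖p‖^2`, and the same for `N`,
`T ∣ N` (`y^n - 1 = (y - 1)(..)`). Apply AP1 to `μ i = σ (x i) ^ N` and map the determinant by `σ`
(`RingHom.map_det`). -/

section

variable {E : Type} [NormedField E] [IsUltrametricDist E]

private theorem mod_norm_aeval_le (q : ℤ[X]) (y : E) (hy : ‖y‖ ≤ 1) : ‖aeval y q‖ ≤ 1 := by
  rw [aeval_eq_sum_range]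
  refine IsUltrametricDist.norm_sum_le_of_forall_le_of_nonneg zero_le_one fun i _ => ?_
  rw [zsmul_eq_mul, norm_mul, norm_pow]
  exact mul_le_one₀ (IsUltrametricDist.norm_intCast_le_one E _) (by positivity)
    (pow_le_one₀ (norm_nonneg _) hy)

private theorem mod_norm_root_le {f : ℤ[X]} (hf : f.Monic) (y : E) (hy : aeval y f = 0) :
    ‖y‖ ≤ 1 := by
  by_contra hlt
  rw [not_le] at hlt
  rw [aeval_eq_sum_range, Finset.sum_range_succ, hf.coeff_natDegree, one_smul] at hy
  rcases Nat.eq_zero_or_pos f.natDegree with h0 | h0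
  · rw [h0, Finset.range_zero, Finset.sum_empty, zero_add, pow_zero] at hy
    exact one_ne_zero hy
  · have h1 : y ^ f.natDegree = -∑ i ∈ Finset.range f.natDegree, f.coeff i • y ^ i :=
      eq_neg_of_add_eq_zero_right hy
    have h2 : ‖y ^ f.natDegree‖ ≤ ‖y‖ ^ (f.natDegree - 1) := by
      rw [h1, norm_neg]
      refine IsUltrametricDist.norm_sum_le_of_forall_le_of_nonneg (by positivity) fun i hi => ?_
      rw [zsmul_eq_mul, norm_mul, norm_pow]
      rw [Finset.mem_range] at hi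
      refine (mul_le_of_le_one_left (by positivity)
        (IsUltrametricDist.norm_intCast_le_one E _)).trans ?_
      exact pow_le_pow_right₀ hlt.le (by omega)
    rw [norm_pow] at h2
    have h3 : ‖y‖ ^ (f.natDegree - 1) < ‖y‖ ^ f.natDegree :=
      pow_lt_pow_right₀ hlt (by omega)
    exact absurd h2 (not_le.2 h3)

private theorem mod_norm_int {p : ℕ} (hp : p.Prime) (hp1 : ‖(p : E)‖ < 1) {a : ℤ} (ha : a ≠ 0)
    (hap : a.natAbs < p) : ‖(a : E)‖ = 1 := by
  refine le_antisymm (IsUltrametricDist.norm_intCast_le_one E a) ?_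
  have h0 : Nat.Coprime a.natAbs p := by
    rw [Nat.coprime_comm, Nat.Prime.coprime_iff_not_dvd hp]
    intro h
    have := Nat.le_of_dvd (Int.natAbs_pos.2 ha) h
    omega
  have h1 : IsCoprime a p := by
    rw [Int.isCoprime_iff_gcd_eq_one]
    simpa [Int.gcd] using h0
  obtain ⟨c, b, hab⟩ := h1
  have h2 : (c : E) * a + b * p = 1 := by exact_mod_cast congrArg (fun z : ℤ => (z : E)) hab
  have h3 := IsUltrametricDist.norm_add_le_max ((c : E) * a) (b * p)
  rw [h2, norm_one, norm_mul, norm_mul] at h3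
  by_contra hlt
  rw [not_le] at hlt
  have h4 : ‖(c : E)‖ * ‖(a : E)‖ < 1 :=
    lt_of_le_of_lt (mul_le_of_le_one_left (norm_nonneg _)
      (IsUltrametricDist.norm_intCast_le_one E c)) hlt
  have h5 : ‖(b : E)‖ * ‖(p : E)‖ < 1 :=
    lt_of_le_of_lt (mul_le_of_le_one_left (norm_nonneg _)
      (IsUltrametricDist.norm_intCast_le_one E b)) hp1
  exact absurd h3 (not_le.2 (max_lt h4 h5))

private theorem mod_norm_root_eq {f : ℤ[X]} (hf : f.Monic) {p : ℕ} (hp : p.Prime)
    (hp1 : ‖(p : E)‖ < 1) (hb : f.trailingCoeff.natAbs < p) (y : E) (hy : aeval y f = 0)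
    (hy0 : y ≠ 0) : ‖y‖ = 1 := by
  have hle := mod_norm_root_le hf y hy
  refine le_antisymm hle ?_
  obtain ⟨g, hg⟩ : X ^ f.natTrailingDegree ∣ f :=
    X_pow_dvd_iff.2 fun d hd => coeff_eq_zero_of_lt_natTrailingDegree hd
  have hc : g.coeff 0 = f.trailingCoeff := by
    rw [trailingCoeff]
    conv_rhs => rw [hg]
    rw [coeff_X_pow_mul', if_pos, Nat.sub_eq_zero_of_le]
    · rw [← hg]
    · rw [← hg]
  have hgy : aeval y g = 0 := by
    have h1 := hy
    rw [hg, map_mul, map_pow, aeval_X] at h1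
    exact (mul_eq_zero.1 h1).resolve_left (pow_ne_zero _ hy0)
  have h2 : aeval y g = y * aeval y g.divX + (g.coeff 0 : E) := by
    conv_lhs => rw [← X_mul_divX_add g]
    simp
  rw [hgy] at h2
  have h3 : ‖((g.coeff 0 : ℤ) : E)‖ = 1 := by
    rw [hc]
    refine mod_norm_int hp hp1 ?_ hb
    rw [Ne, trailingCoeff_eq_zero]
    exact hf.ne_zero
  have h4 : ((g.coeff 0 : ℤ) : E) = -(y * aeval y g.divX) := by
    exact eq_neg_of_add_eq_zero_right h2.symm
  rw [h4, norm_neg, norm_mul] at h3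
  calc (1 : ℝ) = ‖y‖ * ‖aeval y g.divX‖ := h3.symm
    _ ≤ ‖y‖ := mul_le_of_le_one_right (norm_nonneg _) (mod_norm_aeval_le _ y hle)

private theorem mod_norm_pow_sub {f : ℤ[X]} (hf : f.Monic) {p : ℕ} (hp : p.Prime)
    (hp1 : ‖(p : E)‖ < 1) (hb : f.trailingCoeff.natAbs < p) {i T : ℕ} {g h : ℤ[X]}
    (hgh : X ^ i * (X ^ T - 1) = f * g + C ((p ^ 2 : ℕ) : ℤ) * h) (y : E) (hy : aeval y f = 0)
    (hy0 : y ≠ 0) {N : ℕ} (hN : T ∣ N) : ‖y ^ N - 1‖ ≤ ‖(p : E)‖ ^ 2 := by
  have h1 := mod_norm_root_eq hf hp hp1 hb y hy hy0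
  have h2 := congrArg (aeval y) hgh
  rw [map_add, map_mul, map_mul, map_mul, hy, zero_mul, zero_add, map_pow, aeval_X, map_sub,
    map_pow, aeval_X, map_one, aeval_C] at h2
  have h3 := congrArg norm h2
  rw [norm_mul, norm_pow, h1, one_pow, one_mul, norm_mul] at h3
  have h4 : ‖y ^ T - 1‖ ≤ ‖(p : E)‖ ^ 2 := by
    rw [h3]
    have h5 : (algebraMap ℤ E) ((p ^ 2 : ℕ) : ℤ) = (p : E) ^ 2 := by simp
    rw [h5, norm_pow]
    exact mul_le_of_le_one_right (by positivity) (mod_norm_aeval_le _ y h1.le)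
  obtain ⟨n, rfl⟩ := hN
  have h6 : y ^ (T * n) - 1 = (y ^ T - 1) * aeval (y ^ T) (∑ j ∈ Finset.range n, X ^ j : ℤ[X]) := by
    rw [map_sum]
    simp only [map_pow, aeval_X]
    rw [pow_mul, mul_comm, geom_sum_mul]
  rw [h6, norm_mul]
  refine (mul_le_of_le_one_right (norm_nonneg _) (mod_norm_aeval_le _ _ ?_)).trans h4
  rw [norm_pow, h1, one_pow]

end

/-- The modulus. -/
theorem exists_modulus (f : ℤ[X]) (hf : f.Monic) (k b : ℕ) (hk : f.natDegree ≤ k)
    (hb : f.trailingCoeff.natAbs ≤ b) :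
    ∃ T : ℕ, 0 < T ∧ T ≤ (4 * (b + k + 1)) ^ (2 * k) ∧
      ∀ (F : Type) [Field F] [NumberField F] (N : ℕ), 0 < N → T ∣ N →
        ∀ (ι : Type) [Fintype ι] [DecidableEq ι], Fintype.card ι ≤ k → ∀ x : ι → F,
          (∀ i, aeval (x i) f = 0) → (∀ i, x i ≠ 0) → Function.Injective (fun i => x i ^ N) →
            ∀ m : ι → ℕ, Function.Injective m →
              (Matrix.of fun i j => (x j ^ N) ^ m i).det ≠ 0 := by
  obtain ⟨p, hp, hlt, hle⟩ := Nat.exists_prime_lt_and_le_two_mul (b + 2 * k + 1) (by omega)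
  obtain ⟨i, T, hT, hiT, g, h, hgh⟩ := exists_period f hf (p ^ 2) (pow_pos hp.pos 2)
  refine ⟨T, hT, ?_, ?_⟩
  · calc T ≤ (p ^ 2) ^ f.natDegree := by omega
      _ = p ^ (2 * f.natDegree) := by rw [← pow_mul]
      _ ≤ p ^ (2 * k) := Nat.pow_le_pow_right hp.pos (by omega)
      _ ≤ (4 * (b + k + 1)) ^ (2 * k) := Nat.pow_le_pow_left (by omega) _
  intro F _ _ N hN hTN ι _ _ hcard x hx hx0 hinj m hm
  have : Fact p.Prime := ⟨hp⟩
  let σ : F →ₐ[ℚ] PadicAlgCl p := IsAlgClosed.lift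
  have hσinj : Function.Injective σ := σ.toRingHom.injective
  have hp1 : ‖(p : PadicAlgCl p)‖ < 1 := by
    have h1 : (p : PadicAlgCl p) = algebraMap ℚ_[p] (PadicAlgCl p) (p : ℚ_[p]) := by simp
    rw [h1]
    have h2 := PadicAlgCl.norm_extends p (p : ℚ_[p])
    rw [h2]
    exact Padic.norm_p_lt_one
  have hroot : ∀ j, aeval (σ (x j)) f = 0 := by
    intro j
    have h1 := congrArg σ (hx j)
    rw [map_zero] at h1
    rw [← h1]
    have h2 : (aeval (σ (x j)) f : PadicAlgCl p) = eval₂ (Int.castRingHom _) (σ (x j)) f := by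
      rw [aeval_def]
      rfl
    have h3 : (aeval (x j) f : F) = eval₂ (Int.castRingHom _) (x j) f := by
      rw [aeval_def]
      rfl
    rw [h2, h3]
    have h4 := hom_eval₂ f (Int.castRingHom F) (σ : F →+* PadicAlgCl p) (x j)
    rw [RingHom.coe_coe] at h4
    rw [h4]
    congr 1
    exact (RingHom.ext_int _ _)
  have h1 := det_pow_ne_zero (E := PadicAlgCl p) (PadicAlgCl.isNonarchimedean p) p hp hp1
    (ι := ι) (by omega) (fun j => σ (x j) ^ N) ?_ ?_ m hm
  · intro h2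
    apply h1
    have h3 := congrArg (σ : F →+* PadicAlgCl p) h2
    rw [RingHom.map_det, map_zero] at h3
    rw [← h3]
    congr 1
    ext a c
    simp
  · intro a c hac
    apply hinj
    apply hσinj
    have h2 : σ (x a) ^ N = σ (x c) ^ N := hac
    simp only [map_pow]
    exact h2
  · intro j
    exact mod_norm_pow_sub hf hp hp1 (by omega) hgh (σ (x j)) (hroot j)
      (fun h2 => hx0 j (hσinj (by rw [h2, map_zero]))) hTN

end Pool.Agent.AlmostPos
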