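import Mathlib

/-! AP1. Generalised Vandermonde determinants over a nonarchimedean field. -/

set_option autoImplicit false

namespace Pool.Agent.AlmostPos

open Polynomial Finset

section

variable {E : Type} [NormedField E] [IsUltrametricDist E]

variable (E) in
/-- the unit ball -/
private def ballRing : Subring E where
  carrier := {x | ‖x‖ ≤ 1}
  mul_mem' := by
    intro a b ha hb
    change ‖a * b‖ ≤ 1
    rw [norm_mul]
    exact mul_le_one₀ ha (norm_nonneg _) hb
  one_mem' := by
    change ‖(1 : E)‖ ≤ 1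
    rw [norm_one]
  add_mem' := by
    intro a b ha hb
    exact (IsUltrametricDist.norm_add_le_max a b).trans (max_le ha hb)
  zero_mem' := by
    change ‖(0 : E)‖ ≤ 1
    rw [norm_zero]
    exact zero_le_one
  neg_mem' := by
    intro a ha
    change ‖-a‖ ≤ 1
    rw [norm_neg]
    exact ha

private theorem exists_reduce {K : ℕ} (y : Fin K → E) (hy : ∀ j, ‖y j‖ ≤ 1) (t : ℕ) :
    ∃ c : ℕ → E, (∀ k, ‖c k‖ ≤ 1) ∧ ∀ j, y j ^ t = ∑ k ∈ range K, c k * y j ^ k := by
  rcases Nat.eq_zero_or_pos K with hK | hK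
  · subst hK
    exact ⟨fun _ => 0, fun _ => by simp, fun j => j.elim0⟩
  set Q : (ballRing E)[X] := ∏ j, (X - C (⟨y j, hy j⟩ : ballRing E)) with hQ
  have hmon : Q.Monic := monic_prod_of_monic _ _ fun j _ => monic_X_sub_C _
  have hdeg : Q.natDegree = K := by
    rw [hQ, natDegree_prod_of_monic _ _ fun j _ => monic_X_sub_C _]
    simp
  set r := X ^ t %ₘ Q with hr
  have hrdeg : r.natDegree < K := by
    have h1 := natDegree_modByMonic_lt (X ^ t : (ballRing E)[X]) hmon (by
      intro h
      rw [h, natDegree_one] at hdeg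
      omega)
    rw [hdeg] at h1
    exact h1
  refine ⟨fun k => (r.coeff k : ballRing E), fun k => (r.coeff k).2, fun j => ?_⟩
  have h1 : r + Q * (X ^ t /ₘ Q) = X ^ t := modByMonic_add_div _ _
  have h2 := congrArg (Polynomial.eval (⟨y j, hy j⟩ : ballRing E)) h1
  rw [eval_add, eval_mul, eval_pow, eval_X] at h2
  have h3 : Q.eval (⟨y j, hy j⟩ : ballRing E) = 0 := by
    rw [hQ, eval_prod]
    refine Finset.prod_eq_zero (mem_univ j) ?_
    rw [eval_sub, eval_X, eval_C, sub_self]
  rw [h3, zero_mul, add_zero, eval_eq_sum_range' hrdeg] at h2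
  have h4 := congrArg (fun x : ballRing E => (x : E)) h2
  simp only [AddSubmonoidClass.coe_finsetSum, MulMemClass.coe_mul, SubmonoidClass.coe_pow] at h4
  exact h4.symm

private theorem norm_of_coprime {p : ℕ} (hp1 : ‖(p : E)‖ < 1) {n : ℕ} (h : Nat.Coprime n p) :
    ‖(n : E)‖ = 1 := by
  refine le_antisymm (IsUltrametricDist.norm_natCast_le_one E n) ?_
  have h1 : IsCoprime (n : ℤ) p := Nat.isCoprime_iff_coprime.2 h
  obtain ⟨a, b, hab⟩ := h1
  have h2 : (a : E) * n + b * p = 1 := by exact_mod_cast congrArg (fun z : ℤ => (z : E)) hab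
  have h3 := IsUltrametricDist.norm_add_le_max ((a : E) * n) (b * p)
  rw [h2, norm_one, norm_mul, norm_mul] at h3
  by_contra hlt
  rw [not_le] at hlt
  have h4 : ‖(a : E)‖ * ‖(n : E)‖ < 1 :=
    lt_of_le_of_lt (mul_le_of_le_one_left (norm_nonneg _)
      (IsUltrametricDist.norm_intCast_le_one E a)) hlt
  have h5 : ‖(b : E)‖ * ‖(p : E)‖ < 1 :=
    lt_of_le_of_lt (mul_le_of_le_one_left (norm_nonneg _)
      (IsUltrametricDist.norm_intCast_le_one E b)) hp1
  exact absurd h3 (not_le.2 (max_lt h4 h5))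

private theorem norm_natCast_eq {p : ℕ} (hp : p.Prime) (hp1 : ‖(p : E)‖ < 1) {n : ℕ} (hn : n ≠ 0) :
    ‖(n : E)‖ = ‖(p : E)‖ ^ padicValNat p n := by
  have := Fact.mk hp
  obtain ⟨m, hm⟩ := pow_padicValNat_dvd (p := p) (n := n)
  have hm1 : Nat.Coprime m p := by
    rw [Nat.coprime_comm, Nat.Prime.coprime_iff_not_dvd hp]
    rintro ⟨k, hk⟩
    have h1 : p ^ (padicValNat p n + 1) ∣ n := ⟨k, by rw [pow_succ, mul_assoc, ← hk]; exact hm⟩
    exact pow_succ_padicValNat_not_dvd hn h1
  conv_lhs => rw [hm]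
  rw [Nat.cast_mul, Nat.cast_pow, norm_mul, norm_pow, norm_of_coprime hp1 hm1, mul_one]

private theorem factorial_bound {p : ℕ} (hp : p.Prime) (hp0 : (p : E) ≠ 0) (hp1 : ‖(p : E)‖ < 1)
    {i t : ℕ} (hi : 2 * i < p) (hit : i < t) :
    ‖(p : E)‖ ^ (2 * t) < ‖(p : E)‖ ^ (2 * i) * ‖(t.factorial : E)‖ := by
  have := Fact.mk hp
  rw [norm_natCast_eq hp hp1 t.factorial_ne_zero, ← pow_add]
  refine pow_lt_pow_right_of_lt_one₀ (norm_pos_iff.2 hp0) hp1 ?_
  rcases lt_or_ge t p with h | h
  · have h1 : ¬ p ∣ t.factorial := by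
      rw [hp.dvd_factorial]
      omega
    rw [padicValNat.eq_zero_of_not_dvd h1]
    omega
  · have h1 := sub_one_mul_padicValNat_factorial (p := p) t
    have h2 : padicValNat p t.factorial ≤ (p - 1) * padicValNat p t.factorial :=
      Nat.le_mul_of_pos_left _ (by have := hp.two_le; omega)
    omega

private theorem det_pow_fin {K : ℕ} [CharZero E] {p : ℕ} (hp : p.Prime) (hp1 : ‖(p : E)‖ < 1)
    (hK : 2 * K < p) (μ : Fin K → E) (hμ : Function.Injective μ)
    (hμ1 : ∀ i, ‖μ i - 1‖ ≤ ‖(p : E)‖ ^ 2) (m : Fin K → ℕ) (hm : Function.Injective m) :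
    (Matrix.of fun i j => μ j ^ m i).det ≠ 0 := by
  intro hdet
  have hp0 : (p : E) ≠ 0 := by exact_mod_cast hp.ne_zero
  obtain ⟨b, hb0, hb⟩ := Matrix.exists_mulVec_eq_zero_iff.2 hdet
  have hbm : ∀ i, ∑ j, μ j ^ m i * b j = 0 := fun i => congrFun hb i
  -- the points `y`
  set y : Fin K → E := fun j => (μ j - 1) / (p : E) ^ 2 with hydef
  have hy : ∀ j, ‖y j‖ ≤ 1 := by
    intro j
    rw [hydef]
    simp only [norm_div, norm_pow]
    exact div_le_one_of_le₀ (hμ1 j) (by positivity)
  have hμy : ∀ j, μ j = (p : E) ^ 2 * y j + 1 := by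
    intro j
    rw [hydef]
    field_simp
    ring
  have hyinj : Function.Injective y := by
    intro i j hij
    apply hμ
    rw [hμy i, hμy j, hij]
  set s : ℕ → E := fun t => ∑ j, b j * y j ^ t with hs
  -- a largest value
  have hKpos : 0 < K := by
    rcases Nat.eq_zero_or_pos K with h | h
    · subst h
      exact absurd (_root_.funext fun j : Fin 0 => j.elim0) hb0
    · exact h
  obtain ⟨i0, hi0, hmax⟩ := (range K).exists_max_image (fun t => ‖s t‖) ⟨0, mem_range.2 hKpos⟩
  rw [mem_range] at hi0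
  have hw : 0 < ‖s i0‖ := by
    rw [norm_pos_iff]
    intro h0
    apply hb0
    refine Matrix.eq_zero_of_forall_pow_sum_mul_pow_eq_zero hyinj fun i => ?_
    have h1 := hmax i (mem_range.2 i.2)
    rw [h0, norm_zero] at h1
    exact norm_le_zero_iff.1 h1
  have hsw : ∀ t, ‖s t‖ ≤ ‖s i0‖ := by
    intro t
    obtain ⟨c, hc, hct⟩ := exists_reduce y hy t
    have h1 : s t = ∑ k ∈ range K, c k * s k := by
      rw [hs]
      simp only [Finset.mul_sum]
      rw [Finset.sum_comm]
      refine Finset.sum_congr rfl fun j _ => ?_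
      rw [hct j, Finset.mul_sum]
      refine Finset.sum_congr rfl fun k _ => ?_
      ring
    rw [h1]
    refine IsUltrametricDist.norm_sum_le_of_forall_le_of_nonneg hw.le fun k hk => ?_
    rw [norm_mul]
    exact (mul_le_of_le_one_left (norm_nonneg _) (hc k)).trans (hmax k hk)
  -- the polynomials
  set m' : Fin (i0 + 1) → ℕ := fun j => m (Fin.castLE (by omega) j) with hm'
  have hm'inj : Function.Injective m' := fun i j hij =>
    Fin.castLE_injective _ (hm hij)
  set W : ℤ[X] := ∏ j, (X - C ((m' j : ℕ) : ℤ)) with hW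
  have hWmon : W.Monic := monic_prod_of_monic _ _ fun j _ => monic_X_sub_C _
  have hWdeg : W.natDegree = i0 + 1 := by
    rw [hW, natDegree_prod_of_monic _ _ fun j _ => monic_X_sub_C _]
    simp only [natDegree_X_sub_C, sum_const, card_univ, Fintype.card_fin, smul_eq_mul, mul_one]
  set r : ℕ → ℤ[X] := fun t => descPochhammer ℤ t %ₘ W with hr
  have hrdeg : ∀ t, (r t).natDegree < i0 + 1 := by
    intro t
    have h1 := natDegree_modByMonic_lt (descPochhammer ℤ t) hWmon (by
      intro h
      rw [h, natDegree_one] at hWdeg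
      omega)
    rw [hWdeg] at h1
    exact h1
  have hreval : ∀ t j, (r t).eval ((m' j : ℕ) : ℤ) =
      (((m' j).choose t : ℕ) : ℤ) * (t.factorial : ℤ) := by
    intro t j
    have h1 : r t + W * (descPochhammer ℤ t /ₘ W) = descPochhammer ℤ t := modByMonic_add_div _ _
    have h2 := congrArg (Polynomial.eval ((m' j : ℕ) : ℤ)) h1
    have h3 : W.eval ((m' j : ℕ) : ℤ) = 0 := by
      rw [hW, eval_prod]
      refine Finset.prod_eq_zero (mem_univ j) ?_
      rw [eval_sub, eval_X, eval_C, sub_self]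
    rw [eval_add, eval_mul, h3, zero_mul, add_zero, descPochhammer_eval_eq_descFactorial,
      Nat.descFactorial_eq_factorial_mul_choose] at h2
    rw [h2]
    push_cast
    ring
  set T0 : ℕ := i0 + 1 + ∑ j, (m' j + 1) with hT0
  have hT0m : ∀ j, m' j + 1 ≤ T0 := by
    intro j
    have := Finset.single_le_sum (f := fun j => m' j + 1) (fun _ _ => Nat.zero_le _) (mem_univ j)
    omega
  set R : E[X] := ∑ t ∈ range T0, C ((p : E) ^ (2 * t) * s t / (t.factorial : E)) *
    (r t).map (Int.castRingHom E) with hR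
  have hRdeg : R.natDegree < i0 + 1 := by
    refine lt_of_le_of_lt (natDegree_sum_le_of_forall_le (n := i0) _ _ fun t _ => ?_)
      (Nat.lt_succ_self _)
    refine natDegree_mul_le.trans ?_
    rw [natDegree_C, zero_add]
    exact natDegree_map_le.trans (Nat.lt_succ_iff.1 (hrdeg t))
  have hReval : ∀ j, R.eval ((m' j : ℕ) : E) = 0 := by
    intro j
    rw [hR, eval_finsetSum]
    have h1 : ∀ t ∈ range T0, (C ((p : E) ^ (2 * t) * s t / (t.factorial : E)) *
        (r t).map (Int.castRingHom E)).eval ((m' j : ℕ) : E) =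
        (p : E) ^ (2 * t) * s t * ((m' j).choose t : ℕ) := by
      intro t _
      have h2 : ((r t).map (Int.castRingHom E)).eval ((m' j : ℕ) : E) =
          (((m' j).choose t : ℕ) : E) * (t.factorial : E) := by
        have h3 : ((m' j : ℕ) : E) = (Int.castRingHom E) ((m' j : ℕ) : ℤ) := by simp
        rw [h3, eval_map_apply, hreval]
        simp
      have h4 : (t.factorial : E) ≠ 0 := by exact_mod_cast t.factorial_ne_zero
      rw [eval_mul, eval_C, h2]
      field_simp
    rw [Finset.sum_congr rfl h1]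
    have h2 : ∑ t ∈ range T0, (p : E) ^ (2 * t) * s t * ((m' j).choose t : ℕ) =
        ∑ t ∈ range (m' j + 1), (p : E) ^ (2 * t) * s t * ((m' j).choose t : ℕ) := by
      symm
      refine Finset.sum_subset (range_subset_range.2 (hT0m j)) fun t _ ht => ?_
      rw [mem_range, not_lt] at ht
      rw [Nat.choose_eq_zero_of_lt (by omega), Nat.cast_zero, mul_zero]
    rw [h2]
    have h3 := hbm (Fin.castLE (by omega) j)
    rw [← h3]
    have h4 : ∀ l, μ l ^ m' j * b l =
        ∑ t ∈ range (m' j + 1), (p : E) ^ (2 * t) * (b l * y l ^ t) * ((m' j).choose t : ℕ) := by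
      intro l
      rw [hμy l, add_pow, Finset.sum_mul]
      refine Finset.sum_congr rfl fun t _ => ?_
      rw [one_pow, mul_pow, pow_mul]
      ring
    have h5 : ∀ l, μ l ^ m (Fin.castLE (by omega) j) * b l =
        ∑ t ∈ range (m' j + 1), (p : E) ^ (2 * t) * (b l * y l ^ t) * ((m' j).choose t : ℕ) := h4
    rw [Finset.sum_congr rfl fun l _ => h5 l, Finset.sum_comm]
    refine Finset.sum_congr rfl fun t _ => ?_
    rw [hs]
    simp only
    rw [Finset.mul_sum, Finset.sum_mul]
  have hR0 : R = 0 := by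
    refine eq_zero_of_natDegree_lt_card_of_eval_eq_zero R
      (f := fun j : Fin (i0 + 1) => ((m' j : ℕ) : E)) ?_ hReval (by simpa using hRdeg)
    intro i j hij
    have h : ((m' i : ℕ) : E) = ((m' j : ℕ) : E) := hij
    exact hm'inj (by exact_mod_cast h)
  -- the coefficient of `X ^ i0`
  have hcoeff : R.coeff i0 = 0 := by rw [hR0, coeff_zero]
  rw [hR, finsetSum_coeff] at hcoeff
  have hterm : ∀ t, (C ((p : E) ^ (2 * t) * s t / (t.factorial : E)) *
      (r t).map (Int.castRingHom E)).coeff i0 =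
      (p : E) ^ (2 * t) * s t / (t.factorial : E) * (((r t).coeff i0 : ℤ) : E) := by
    intro t
    rw [coeff_C_mul, coeff_map]
    rfl
  simp only [hterm] at hcoeff
  have hrt : ∀ t, t ≤ i0 → r t = descPochhammer ℤ t := by
    intro t ht
    rw [hr]
    simp only
    rw [(modByMonic_eq_self_iff hWmon)]
    refine degree_lt_degree ?_
    rw [descPochhammer_natDegree, hWdeg]
    omega
  have hi0T : i0 ∈ range T0 := mem_range.2 (by omega)
  rw [← Finset.add_sum_erase _ _ hi0T] at hcoeff
  have h1 : (r i0).coeff i0 = 1 := by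
    rw [hrt i0 le_rfl]
    have := monic_descPochhammer ℤ i0
    rw [Monic, leadingCoeff, descPochhammer_natDegree] at this
    exact this
  rw [h1, Int.cast_one, mul_one] at hcoeff
  have h2 : ‖(p : E) ^ (2 * i0) * s i0 / (i0.factorial : E)‖ < ‖(p : E)‖ ^ (2 * i0) * ‖s i0‖ := by
    rw [eq_neg_of_add_eq_zero_left hcoeff, norm_neg]
    have hpos : 0 < ‖(p : E)‖ ^ (2 * i0) * ‖s i0‖ :=
      mul_pos (pow_pos (norm_pos_iff.2 hp0) _) hw
    obtain hemp | hne := ((range T0).erase i0).eq_empty_or_nonempty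
    · rw [hemp, sum_empty, norm_zero]
      exact hpos
    · obtain ⟨t, ht, hle⟩ := IsUltrametricDist.exists_norm_finsetSum_le_of_nonempty hne
        (fun t => (p : E) ^ (2 * t) * s t / (t.factorial : E) * (((r t).coeff i0 : ℤ) : E))
      refine lt_of_le_of_lt hle ?_
      rw [mem_erase] at ht
      rcases lt_or_gt_of_ne ht.1 with hlt | hgt
      · have h3 : (r t).coeff i0 = 0 := by
          rw [hrt t hlt.le]
          refine coeff_eq_zero_of_natDegree_lt ?_
          rw [descPochhammer_natDegree]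
          exact hlt
        rw [h3, Int.cast_zero, mul_zero, norm_zero]
        exact hpos
      · have h3 := factorial_bound (E := E) hp hp0 hp1 (i := i0) (t := t) (by omega) hgt
        have hf : 0 < ‖(t.factorial : E)‖ := by
          rw [norm_pos_iff]
          exact_mod_cast t.factorial_ne_zero
        rw [norm_mul, norm_div, norm_mul, norm_pow]
        calc ‖(p : E)‖ ^ (2 * t) * ‖s t‖ / ‖(t.factorial : E)‖ * ‖(((r t).coeff i0 : ℤ) : E)‖
            ≤ ‖(p : E)‖ ^ (2 * t) * ‖s i0‖ / ‖(t.factorial : E)‖ * 1 := by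
              gcongr
              · exact hsw t
              · exact IsUltrametricDist.norm_intCast_le_one E _
          _ = ‖(p : E)‖ ^ (2 * t) / ‖(t.factorial : E)‖ * ‖s i0‖ := by ring
          _ < ‖(p : E)‖ ^ (2 * i0) * ‖s i0‖ := by
              refine mul_lt_mul_of_pos_right ?_ hw
              rw [div_lt_iff₀ hf]
              exact h3
  rw [norm_div, norm_mul, norm_pow] at h2
  have hf : 0 < ‖(i0.factorial : E)‖ := by
    rw [norm_pos_iff]
    exact_mod_cast i0.factorial_ne_zero
  rw [div_lt_iff₀ hf] at h2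
  have h3 : ‖(p : E)‖ ^ (2 * i0) * ‖s i0‖ * ‖(i0.factorial : E)‖ ≤
      ‖(p : E)‖ ^ (2 * i0) * ‖s i0‖ :=
    mul_le_of_le_one_right (by positivity) (IsUltrametricDist.norm_natCast_le_one E _)
  exact absurd h3 (not_le.2 h2)

end

/-- Generalised Vandermonde determinants of elements close to `1` do not vanish. -/
theorem det_pow_ne_zero {E : Type} [NormedField E] [CharZero E]
    (hna : IsNonarchimedean (norm : E → ℝ)) (p : ℕ) (hp : p.Prime) (hp1 : ‖(p : E)‖ < 1)
    {ι : Type} [Fintype ι] [DecidableEq ι] (hK : 2 * Fintype.card ι < p) (μ : ι → E)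
    (hμ : Function.Injective μ) (hμ1 : ∀ i, ‖μ i - 1‖ ≤ ‖(p : E)‖ ^ 2) (m : ι → ℕ)
    (hm : Function.Injective m) : (Matrix.of fun i j => μ j ^ m i).det ≠ 0 := by
  have : IsUltrametricDist E := IsUltrametricDist.isUltrametricDist_of_isNonarchimedean_norm hna
  have e := Fintype.equivFin ι
  have h1 := det_pow_fin hp hp1 hK (μ ∘ e.symm) (hμ.comp e.symm.injective) (fun i => hμ1 _)
    (m ∘ e.symm) (hm.comp e.symm.injective)
  rw [← Matrix.det_submatrix_equiv_self e.symm]
  exact h1

end Pool.Agent.AlmostPos
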