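import Pool.Agent.AlmostPos.Sparse
import Pool.Agent.AlmostPos.Lang
import Pool.Agent.AlmostPos.AELang

/-! Simple recurrences: almost everywhere positive ones are ultimately positive. -/

set_option autoImplicit false

namespace Pool.Agent.UltPos

open Pool.Agent.PT Pool.Agent.AllR Pool.Agent.DD7719.M Pool.Agent.DD7719 Finset Filter Topology

open scoped Classical in
/-- a sequence which is positive outside a set of density zero is almost everywhere positive -/
theorem aePositive_of_set (I : Inst) (S : Set ℕ) (hS : ∀ v : ℕ → ℚ, I.IsSeq v → ∀ n ∈ S, 0 < v n)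
    (h0 : Tendsto (fun X : ℕ => ((Sᶜ ∩ Set.Iio X).ncard : ℝ) / X) atTop (𝓝 0)) :
    I.AEPositive := by
  intro v hv
  refine squeeze_zero (fun X => by positivity) (fun X => ?_) h0
  have hfin : (Sᶜ ∩ Set.Iio X).Finite := (Set.finite_Iio X).subset Set.inter_subset_right
  have h1 : (((Finset.range X).filter fun n => v n ≤ 0 : Finset ℕ) : Set ℕ) ⊆ Sᶜ ∩ Set.Iio X := by
    intro n hn
    rw [Finset.mem_coe, Finset.mem_filter, Finset.mem_range] at hn
    exact ⟨fun h => absurd (hS v hv n h) (not_lt.mpr hn.2), hn.1⟩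
  have h2 := Set.ncard_le_ncard h1 hfin
  rw [Set.ncard_coe_finset] at h2
  have h3 : (((Finset.range X).filter fun n => v n ≤ 0).card : ℝ) ≤ (Sᶜ ∩ Set.Iio X).ncard := by
    exact_mod_cast h2
  exact div_le_div_of_nonneg_right h3 (by positivity)

theorem Inst.Simple.up_of_aePositive {I : Inst} (hS : I.Simple) (hAE : I.AEPositive) :
    I.UltimatelyPositive := by
  classical
  by_contra hcon
  obtain ⟨v, hv, -⟩ := I.exists_unique_seq
  obtain ⟨kk, sg, nb, db, -, -, -, -, hI⟩ := exists_parser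
  obtain ⟨-, hkL, -, -, -, -, hbd⟩ := hI I
  have hb : ∀ i, (I.aNum i).natAbs ≤ 2 ^ I.enc.length ∧ I.aDen i ≤ 2 ^ I.enc.length :=
    fun i => ⟨(hbd i).1.le, (hbd i).2.1.le⟩
  have ha : ∀ t (h : t < I.k), (fun t => ((I.aQ t : ℚ) : ℝ)) t = (I.a ⟨t, h⟩ : ℝ) := by
    intro t h
    simp only [Inst.aQ, h, dif_pos]
  have hu : ∀ t (h : t < I.k), (fun t => ((I.uQ t : ℚ) : ℝ)) t = (I.u ⟨t, h⟩ : ℝ) := by
    intro t h
    simp only [Inst.uQ, h, dif_pos]
  obtain ⟨l, c, ex, hrd, hc⟩ := (I.cert_iff I.enc.length hkL hb _ _ ha hu).mp fun h => hcon h.1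
  have hex : ∀ i, i < I.k → ex i = 0 := by
    intro i hi
    by_contra hne
    have h1 := (I.simple_iff (fun t => ((I.aQ t : ℚ) : ℝ)) ha).mp hS
    exact h1 ⟨l i, fun e he => hrd.2.2.1 i hi e (by omega)⟩
  have hc' : CertBN I.k l c ex (pbm I.enc.length) (pbn I.enc.length)
      (2 / ((2 ^ pq I.enc.length : ℕ) : ℝ)) (1 / 2 ^ pdl I.enc.length) PAE := by
    obtain ⟨n0, j, A, H, D, s, w, τ, z, z', ρ, d, g1, g2, g3, g4, g5, g6, g7, g8, g9, g10, g11, g12,
      g13, g14, g15, g16, g17, g18, g19⟩ := hc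
    refine ⟨n0, j, A, H, D, s, w, τ, z, z', ρ, d, g1, g2, g3, g4, g5, g6, g7, g8, g9, g10, g11, g12,
      g13, g14, g15, g16, g17, g18, ?_⟩
    rcases g19 with h | h | ⟨hd, -, h⟩
    · exact Or.inl h
    · exact Or.inr h
    · exfalso
      apply h
      rw [Finset.sum_eq_zero, Complex.zero_re]
      intro i hi
      rw [if_neg]
      rintro ⟨-, h2⟩
      rw [hex i (Finset.mem_range.mp hi)] at h2
      omega
  have hno := ae_sound (k := I.k) (fun i => l i) (fun i => c i) (fun i => ex i)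
      (2 ^ pr I.enc.length) (2 ^ pbm I.enc.length) (2 ^ pbn I.enc.length) _ _ I.kpos
      (fun i => hrd.1 i i.2) (fun i e he => hrd.closed i e he) Nat.one_le_two_pow
      Nat.one_le_two_pow (I.relBound' I.enc.length hkL hb _ _ ha hrd) (peps hkL) (pd1 hkL)
      (fun n => ((v n : ℚ) : ℝ)) (I.all' _ _ ha hu v hv hrd) hc'.toF
  apply hno
  have h1 := hAE v hv
  unfold AEPos
  refine h1.congr fun X => ?_
  congr 2
  rw [Finset.filter_congr_decidable]
  congr 1
  refine Finset.filter_congr fun n _ => ?_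
  change v n ≤ 0 ↔ ((v n : ℚ) : ℝ) ≤ 0
  exact_mod_cast Iff.rfl

/-- sets with few elements have density zero -/
theorem density_zero_of_sparse (S : Set ℕ) (δ : ℝ) (hδ1 : δ < 1)
    (h : ∀ᶠ X : ℕ in atTop, ((S ∩ Set.Iio X).ncard : ℝ) ≤ 2 ^ ((Real.logb 2 X) ^ δ)) :
    Tendsto (fun X : ℕ => ((S ∩ Set.Iio X).ncard : ℝ) / X) atTop (𝓝 0) := by
  have hlog : Tendsto (fun X : ℕ => Real.logb 2 X) atTop atTop :=
    (Real.tendsto_logb_atTop (by norm_num)).comp tendsto_natCast_atTop_atTop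
  -- `x^δ - x → -∞`
  have h1 : Tendsto (fun x : ℝ => x ^ δ - x) atTop atBot := by
    have h2 : Tendsto (fun x : ℝ => x ^ (δ - 1)) atTop (𝓝 0) := by
      have := tendsto_rpow_neg_atTop (y := 1 - δ) (by linarith)
      simpa using this
    have h3 : Tendsto (fun x : ℝ => x * (x ^ (δ - 1) - 1)) atTop atBot := by
      refine Tendsto.atTop_mul_neg (C := -1) (by norm_num) tendsto_id ?_
      simpa using h2.sub_const 1
    refine h3.congr' ?_
    filter_upwards [eventually_gt_atTop 0] with x hx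
    have h5 : x ^ δ = x * x ^ (δ - 1) := by
      conv_rhs => rw [← Real.rpow_one x, ← Real.rpow_mul hx.le, one_mul, ← Real.rpow_add hx]
      congr 1
      ring
    rw [h5]
    ring
  have h4 : Tendsto (fun X : ℕ => (2 : ℝ) ^ ((Real.logb 2 X) ^ δ - Real.logb 2 X)) atTop (𝓝 0) :=
    (tendsto_rpow_atBot_of_base_gt_one 2 (by norm_num)).comp (h1.comp hlog)
  refine squeeze_zero' (Eventually.of_forall fun X => by positivity) ?_ h4
  filter_upwards [h, eventually_gt_atTop 0] with X hX hX0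
  have hX0' : (0 : ℝ) < X := by exact_mod_cast hX0
  rw [Real.rpow_sub (by norm_num), Real.rpow_logb (by norm_num) (by norm_num) hX0']
  exact div_le_div_of_nonneg_right hX hX0'.le

end Pool.Agent.UltPos
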