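import Pool.Agent.AlmostPos.Defs
import Pool.Agent.AlmostPos.InstFew

/-! AP10. The set of large violations is sparse. -/

set_option autoImplicit false

namespace Pool.Agent.UltPos

open Filter Topology

/- PROOF SKETCH (uses AP9 = `Inst.few_violations`, which may still be sorry). Let `d` be from AP9 and
choose `c ≥ d`, `c ≥ 1`, with `d / c < δ` and `1 / c < δ`. If `n ∈ largeViolations c`, witnessed by
`I` with `L = I.enc.length`, then `2^((L+2)^c) ≤ n`; if `2^j ≤ n < 2^(j+1)` then `(L+2)^c ≤ j`, and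
`2^((L+2)^d) ≤ 2^j`, so AP9 with `X = 2^j` says that `I` has at most `2^((L+2)^d)` such `n`. The
sequence `v` is unique (`Inst.exists_unique_seq`), so the number of such `n` in the dyadic block is at
most `∑_{words w, (|w|+2)^c ≤ j} 2^((|w|+2)^d) ≤ (s+1) 6^s 2^(s^d)` with `s` maximal with `s^c ≤ j`
(the alphabet `ISym` has 6 letters). Sum over `j ≤ log2 X`, `s ≤ (log2 X)^(1/c)`. -/

/-- the number of violations in terms of the bound `t` for the length of the code -/
private lemma sp_count (c d : ℕ) (hdc : d ≤ c)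
    (hd : ∀ I : Inst, I.Simple → I.UltimatelyPositive →
      ∀ v : ℕ → ℚ, I.IsSeq v → ∀ X : ℕ, 2 ^ ((I.enc.length + 2) ^ d) ≤ X →
        ((Finset.Ico X (2 * X)).filter fun n => v n ≤ 0).card ≤ 2 ^ ((I.enc.length + 2) ^ d))
    (J t X : ℕ) (hX : X ≤ 2 ^ J) (ht : ∀ m, m ^ c ≤ J → m ≤ t) :
    (largeViolations c ∩ Set.Iio X).ncard ≤ J * 7 ^ t * 2 ^ (t ^ d) := by
  classical
  let P : Fin J × (Fin t → Option ISym) → Inst × (ℕ → ℚ) → Prop := fun k p =>
    (∀ i : Fin t, p.1.enc[(i : ℕ)]? = k.2 i) ∧ p.1.enc.length + 2 ≤ t ∧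
      (p.1.enc.length + 2) ^ c ≤ k.1 ∧ p.1.VC c ∧ p.1.IsSeq p.2
  have huniq : ∀ k p p', P k p → P k p' → p = p' := by
    rintro k ⟨I, v⟩ ⟨I', v'⟩ ⟨h1, h2, -, -, h5⟩ ⟨h1', h2', -, -, h5'⟩
    have hI : I = I' := by
      apply enc_injective
      apply List.ext_getElem?
      intro i
      by_cases hi : i < t
      · exact (h1 ⟨i, hi⟩).trans (h1' ⟨i, hi⟩).symm
      · simp only at h2 h2'
        rw [List.getElem?_eq_none (by omega), List.getElem?_eq_none (by omega)]
    subst hI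
    have hv : v = v' := I.exists_unique_seq.unique h5 h5'
    rw [hv]
  let S : Fin J × (Fin t → Option ISym) → Finset ℕ := fun k =>
    if h : ∃ p, P k p then
      (Finset.Ico (2 ^ (k.1 : ℕ)) (2 * 2 ^ (k.1 : ℕ))).filter (fun n => h.choose.2 n ≤ 0) else ∅
  have hS : ∀ k, (S k).card ≤ 2 ^ (t ^ d) := by
    intro k
    by_cases h : ∃ p, P k p
    · have e : S k = (Finset.Ico (2 ^ (k.1 : ℕ)) (2 * 2 ^ (k.1 : ℕ))).filter
          (fun n => h.choose.2 n ≤ 0) := dif_pos h
      obtain ⟨h1, h2, h3, h4, h5⟩ := h.choose_spec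
      rw [e]
      refine (hd _ h4.1 h4.2.1 _ h5 _ ?_).trans ?_
      · apply Nat.pow_le_pow_right (by norm_num)
        exact (Nat.pow_le_pow_right (by omega) hdc).trans h3
      · apply Nat.pow_le_pow_right (by norm_num)
        exact Nat.pow_le_pow_left h2 d
    · have e : S k = ∅ := dif_neg h
      rw [e]
      simp
  have hsub : largeViolations c ∩ Set.Iio X ⊆ ↑((Finset.univ).biUnion S) := by
    rintro n ⟨⟨I, hI, v, hv, hn⟩, hnX⟩
    have hnX' : n < X := hnX
    have hpos := hI.2.2 v hv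
    have h1 : 2 ^ ((I.enc.length + 2) ^ c) ≤ n := by
      by_contra hcon
      exact absurd (hpos n (not_le.1 hcon)) (not_lt.2 hn)
    have hn0 : n ≠ 0 := by
      have : 0 < 2 ^ ((I.enc.length + 2) ^ c) := by positivity
      omega
    have h2 : (I.enc.length + 2) ^ c ≤ Nat.log 2 n := Nat.le_log_of_pow_le (by norm_num) h1
    have h3 : Nat.log 2 n < J := Nat.log_lt_of_lt_pow hn0 (by omega)
    have h4 : I.enc.length + 2 ≤ t := ht _ (by omega)
    let k : Fin J × (Fin t → Option ISym) := (⟨Nat.log 2 n, h3⟩, fun i => I.enc[(i : ℕ)]?)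
    have hP : P k (I, v) := ⟨fun i => rfl, h4, h2, hI, hv⟩
    have hex : ∃ p, P k p := ⟨_, hP⟩
    have e : S k = (Finset.Ico (2 ^ (k.1 : ℕ)) (2 * 2 ^ (k.1 : ℕ))).filter
          (fun n => hex.choose.2 n ≤ 0) := dif_pos hex
    have h5 : hex.choose = (I, v) := huniq k _ _ hex.choose_spec hP
    rw [Finset.mem_coe, Finset.mem_biUnion]
    refine ⟨k, Finset.mem_univ _, ?_⟩
    rw [e, h5, Finset.mem_filter, Finset.mem_Ico]
    refine ⟨⟨Nat.pow_log_le_self 2 hn0, ?_⟩, hn⟩
    have := Nat.lt_pow_succ_log_self (b := 2) (by norm_num) n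
    rw [pow_succ] at this
    change n < 2 * 2 ^ (Nat.log 2 n)
    omega
  calc (largeViolations c ∩ Set.Iio X).ncard
      ≤ (↑((Finset.univ).biUnion S) : Set ℕ).ncard :=
        Set.ncard_le_ncard hsub (Finset.finite_toSet _)
    _ = ((Finset.univ).biUnion S).card := Set.ncard_coe_finset _
    _ ≤ (Finset.univ : Finset (Fin J × (Fin t → Option ISym))).card * 2 ^ (t ^ d) :=
        Finset.card_biUnion_le_card_mul _ _ _ fun k _ => hS k
    _ = J * 7 ^ t * 2 ^ (t ^ d) := by
        congr 1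
        rw [Finset.card_univ, Fintype.card_prod, Fintype.card_fin, Fintype.card_fun,
          Fintype.card_option, Fintype.card_fin]
        rfl

theorem largeViolations_sparse (δ : ℝ) (hδ : 0 < δ) : ∃ c : ℕ, ∀ᶠ X : ℕ in atTop,
    ((largeViolations c ∩ Set.Iio X).ncard : ℝ) ≤ 2 ^ ((Real.logb 2 X) ^ δ) := by
  obtain ⟨d, hd⟩ := Inst.few_violations
  set D : ℕ := max d 1 with hD
  have hD1 : 1 ≤ D := le_max_right _ _
  have hdD : d ≤ D := le_max_left _ _
  obtain ⟨c₀, hc₀⟩ := exists_nat_ge ((D : ℝ) / (δ / 2))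
  set c : ℕ := c₀ + D with hc
  have hcD : D ≤ c := Nat.le_add_left _ _
  have hc1 : 1 ≤ c := hD1.trans hcD
  have hcpos : (0 : ℝ) < c := by exact_mod_cast hc1
  have hDc : (D : ℝ) / c ≤ δ / 2 := by
    rw [div_le_iff₀ hcpos]
    have h1 : (D : ℝ) ≤ c₀ * (δ / 2) := by
      rwa [div_le_iff₀ (by positivity)] at hc₀
    have h2 : (c₀ : ℝ) ≤ c := by exact_mod_cast Nat.le_add_right _ _
    nlinarith
  refine ⟨c, ?_⟩
  set K : ℝ := 2 / (δ * Real.log 2) + 4 * 2 ^ (δ / 2) with hK
  have hlog2 : 0 < Real.log 2 := Real.log_pos (by norm_num)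
  have hK0 : 0 ≤ K := by positivity
  have htend : Tendsto (fun X : ℕ => Real.logb 2 (X : ℝ)) atTop atTop :=
    (Real.tendsto_logb_atTop (by norm_num)).comp tendsto_natCast_atTop_atTop
  have htend2 : Tendsto (fun X : ℕ => (Real.logb 2 (X : ℝ)) ^ (δ / 2)) atTop atTop :=
    (tendsto_rpow_atTop (by positivity)).comp htend
  filter_upwards [htend.eventually_ge_atTop 1, htend2.eventually_ge_atTop (K + 2),
    eventually_ge_atTop 1] with X h1 h2 hX1
  set x : ℝ := Real.logb 2 (X : ℝ) with hx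
  set y : ℝ := x ^ (δ / 2) with hy
  have hx0 : 0 < x := by linarith
  set J : ℕ := Nat.log 2 X + 1 with hJ
  set t : ℕ := Nat.findGreatest (fun m => m ^ c ≤ J) J with ht
  have htc : t ^ c ≤ J := by
    have h0 : (fun m => m ^ c ≤ J) 0 := by
      change 0 ^ c ≤ J
      rw [zero_pow (by omega)]
      exact Nat.zero_le _
    exact Nat.findGreatest_spec (P := fun m => m ^ c ≤ J) (Nat.zero_le J) h0
  have htm : ∀ m, m ^ c ≤ J → m ≤ t := by
    intro m hm
    have hmJ : m ≤ J := (Nat.le_self_pow (by omega) m).trans hm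
    exact Nat.le_findGreatest (P := fun m => m ^ c ≤ J) hmJ hm
  have hcount := sp_count c d (hdD.trans hcD) hd J t X
    (Nat.lt_pow_succ_log_self (by norm_num) X).le htm
  -- `J ≤ 2 x`
  have hJx : (J : ℝ) ≤ 2 * x := by
    have h3 : ((Nat.log 2 X : ℕ) : ℝ) ≤ x := by
      rw [hx, Real.le_logb_iff_rpow_le (by norm_num) (by exact_mod_cast hX1), Real.rpow_natCast]
      exact_mod_cast Nat.pow_log_le_self 2 (by omega)
    rw [hJ]
    push_cast
    linarith
  have hJ1 : (1 : ℝ) ≤ J := by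
    rw [hJ]
    push_cast
    linarith [Nat.cast_nonneg (α := ℝ) (Nat.log 2 X)]
  have hJ0 : (0 : ℝ) < J := by linarith
  -- `t ^ D ≤ J ^ (δ / 2)`
  have htD : (t : ℝ) ^ D ≤ (2 * x) ^ (δ / 2) := by
    have h3 : ((t : ℝ) ^ c) ^ ((D : ℝ) / c) = (t : ℝ) ^ D := by
      rw [← Real.rpow_natCast (t : ℝ) c, ← Real.rpow_mul (Nat.cast_nonneg t),
        mul_div_cancel₀ _ hcpos.ne', Real.rpow_natCast]
    have h4 : (t : ℝ) ^ c ≤ J := by exact_mod_cast htc
    rw [← h3]
    calc ((t : ℝ) ^ c) ^ ((D : ℝ) / c) ≤ (J : ℝ) ^ ((D : ℝ) / c) :=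
          Real.rpow_le_rpow (by positivity) h4 (by positivity)
      _ ≤ (J : ℝ) ^ (δ / 2) := Real.rpow_le_rpow_of_exponent_le hJ1 hDc
      _ ≤ (2 * x) ^ (δ / 2) := Real.rpow_le_rpow hJ0.le hJx (by positivity)
  have htD' : (2 * x) ^ (δ / 2) = 2 ^ (δ / 2) * y := by
    rw [Real.mul_rpow (by norm_num) hx0.le]
  -- `log J`
  have hlogJ : Real.logb 2 J ≤ 1 + 2 / (δ * Real.log 2) * y := by
    have h3 : Real.logb 2 J ≤ Real.logb 2 (2 * x) :=
      Real.logb_le_logb_of_le (by norm_num) hJ0 hJx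
    have h4 : Real.logb 2 (2 * x) = 1 + Real.logb 2 x := by
      rw [Real.logb_mul (by norm_num) hx0.ne', Real.logb_self_eq_one (by norm_num)]
    have h5 : Real.log y = δ / 2 * Real.log x := Real.log_rpow hx0 _
    have hy0 : 0 < y := Real.rpow_pos_of_pos hx0 _
    have h6 : Real.log y ≤ y := (Real.log_le_sub_one_of_pos hy0).trans (by linarith)
    have h7 : Real.logb 2 x ≤ 2 / (δ * Real.log 2) * y := by
      unfold Real.logb
      rw [div_le_iff₀ hlog2]
      have h8 : Real.log x ≤ 2 / δ * y := by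
        rw [div_mul_eq_mul_div, le_div_iff₀ hδ]
        nlinarith
      calc Real.log x ≤ 2 / δ * y := h8
        _ = 2 / (δ * Real.log 2) * y * Real.log 2 := by
            field_simp
    linarith
  -- the exponent
  have hy1 : 1 ≤ y := by linarith
  have hexp : Real.logb 2 J + 3 * t + (t : ℝ) ^ d ≤ x ^ δ := by
    have h3 : (t : ℝ) ≤ (t : ℝ) ^ D := by
      exact_mod_cast Nat.le_self_pow (by omega) t
    have h4 : (t : ℝ) ^ d ≤ (t : ℝ) ^ D + 1 := by
      rcases Nat.eq_zero_or_pos t with h5 | h5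
      · rw [h5]
        rcases Nat.eq_zero_or_pos d with h6 | h6
        · rw [h6]
          simp
        · rw [Nat.cast_zero, zero_pow h6.ne']
          positivity
      · have h6 : t ^ d ≤ t ^ D := Nat.pow_le_pow_right h5 hdD
        have h7 : (t : ℝ) ^ d ≤ (t : ℝ) ^ D := by exact_mod_cast h6
        linarith
    have h5 : x ^ δ = y * y := by
      rw [hy, ← Real.rpow_add hx0]
      congr 1
      ring
    rw [h5]
    rw [htD'] at htD
    have h6 : Real.logb 2 J + 3 * t + (t : ℝ) ^ d ≤ K * y + 2 := by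
      rw [hK]
      nlinarith
    nlinarith
  calc ((largeViolations c ∩ Set.Iio X).ncard : ℝ)
      ≤ ((J * 7 ^ t * 2 ^ (t ^ d) : ℕ) : ℝ) := by exact_mod_cast hcount
    _ = (J : ℝ) * 7 ^ t * 2 ^ (t ^ d) := by push_cast; ring
    _ ≤ (J : ℝ) * 2 ^ (3 * t) * 2 ^ (t ^ d) := by
        have h3 : (7 : ℝ) ^ t ≤ 2 ^ (3 * t) := by
          rw [pow_mul]
          exact pow_le_pow_left₀ (by norm_num) (by norm_num) t
        gcongr
    _ = 2 ^ (Real.logb 2 J + 3 * t + (t : ℝ) ^ d) := by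
        rw [Real.rpow_add (by norm_num), Real.rpow_add (by norm_num),
          Real.rpow_logb (by norm_num) (by norm_num) hJ0]
        congr 1
        · congr 1
          rw [← Real.rpow_natCast]
          push_cast
          ring
        · rw [← Real.rpow_natCast]
          push_cast
          ring
    _ ≤ 2 ^ (x ^ δ) := Real.rpow_le_rpow_of_exponent_le (by norm_num) hexp

end Pool.Agent.UltPos
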